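import Mathlib

set_option autoImplicit false

open MeasureTheory Set Filter Topology
open scoped ENNReal

namespace Pool.Agent.X100.SUC

lemma lint_smul {V : Type*} [NormedAddCommGroup V] [NormedSpace ℂ V] [FiniteDimensional ℂ V]
    [MeasurableSpace V] [BorelSpace V] (μ : Measure V) [μ.IsAddHaarMeasure] {c : ℂ} (hc : c ≠ 0)
    (f : V → ℝ≥0∞) :
    ∫⁻ x, f x ∂μ = ‖c‖ₑ ^ (2 * Module.finrank ℂ V) * ∫⁻ x, f (c • x) ∂μ := by
  have : FiniteDimensional ℝ V := FiniteDimensional.complexToReal V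
  set L : V →ₗ[ℂ] V := c • LinearMap.id with hL
  set D := Module.finrank ℂ V with hD
  have hdet : LinearMap.det (L.restrictScalars ℝ) = ‖c‖ ^ (2 * D) := by
    rw [LinearMap.det_restrictScalars, hL, LinearMap.det_smul, LinearMap.det_id, mul_one,
      Algebra.norm_complex_apply, ← hD, Complex.normSq_eq_norm_sq, norm_pow, ← pow_mul, mul_comm]
  have hc0 : 0 < ‖c‖ := norm_pos_iff.mpr hc
  have hne : LinearMap.det (L.restrictScalars ℝ) ≠ 0 := by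
    rw [hdet]; positivity
  have hmap := Measure.map_linearMap_addHaar_eq_smul_addHaar μ hne
  have he : ⇑(L.restrictScalars ℝ) = ⇑(Homeomorph.smulOfNeZero c hc : V ≃ₜ V).toMeasurableEquiv := by
    funext x
    simp [hL]
  have h1 : ∫⁻ x, f (c • x) ∂μ = ∫⁻ x, f x ∂(Measure.map (L.restrictScalars ℝ) μ) := by
    rw [he, lintegral_map_equiv]
    rfl
  rw [h1, hmap, lintegral_smul_measure, hdet, smul_eq_mul, ← mul_assoc]
  have h2 : ‖c‖ₑ ^ (2 * D) * ENNReal.ofReal |(‖c‖ ^ (2 * D))⁻¹| = 1 := by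
    rw [abs_of_pos (by positivity), ENNReal.ofReal_inv_of_pos (by positivity),
      ENNReal.ofReal_pow (norm_nonneg _), ofReal_norm]
    refine ENNReal.mul_inv_cancel ?_ ?_
    · exact pow_ne_zero _ (by simpa using hc)
    · exact ENNReal.pow_ne_top (by simp)
  rw [h2, one_mul]

lemma int_ball {a : ℝ} (ha : a < 2) (R : ℝ) :
    IntegrableOn (fun x : ℂ => ‖x‖ ^ (-a)) (Metric.ball 0 R) := by
  refine (integrableOn_fun_norm_addHaar (E := ℂ) volume (f := fun s => s ^ (-a)) (r := R)).2 ?_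
  have h1 : IntervalIntegrable (fun s : ℝ => s ^ (1 - a)) volume 0 R :=
    intervalIntegral.intervalIntegrable_rpow' (by linarith)
  rcases le_or_gt R 0 with hR | hR
  · rw [Ioo_eq_empty (by linarith)]; exact integrableOn_empty
  have h2 : IntegrableOn (fun s : ℝ => s ^ (1 - a)) (Ioo 0 R) :=
    ((intervalIntegrable_iff_integrableOn_Ioo_of_le hR.le).1 h1)
  refine h2.congr_fun (fun s hs => ?_) measurableSet_Ioo
  simp only [Complex.finrank_real_complex, smul_eq_mul, Nat.add_one_sub_one, pow_one]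
  rw [sub_eq_add_neg, Real.rpow_add hs.1, Real.rpow_one]

lemma int_one {s : ℝ} (h1 : 1 < s) (h2 : s < 2) :
    Integrable (fun x : ℂ => ‖x‖⁻¹ * ‖x - 1‖ ^ (-s)) := by
  have hs0 : 0 < s := by linarith
  have i1 : Integrable ((Metric.ball (0 : ℂ) (1 / 2)).indicator fun x => ‖x‖ ^ (-(1 : ℝ))) :=
    (int_ball (by norm_num) _).integrable_indicator Metric.isOpen_ball.measurableSet
  have i2' : Integrable ((Metric.ball (0 : ℂ) (1 / 2)).indicator fun x => ‖x‖ ^ (-s)) :=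
    (int_ball h2 _).integrable_indicator Metric.isOpen_ball.measurableSet
  have i2 := i2'.comp_sub_right (1 : ℂ)
  have i3 : Integrable (fun x : ℂ => (1 + ‖x‖) ^ (-(1 + s))) :=
    integrable_one_add_norm (by rw [Complex.finrank_real_complex]; push_cast; linarith)
  have i := ((i1.const_mul (2 ^ s)).add (i2.const_mul 2)).add (i3.const_mul (3 * 5 ^ s))
  refine i.mono' ?_ (ae_of_all _ fun x => ?_)
  · exact (by fun_prop : Measurable fun x : ℂ => ‖x‖⁻¹ * ‖x - 1‖ ^ (-s)).aestronglyMeasurable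
  have hn : 0 ≤ ‖x‖⁻¹ * ‖x - 1‖ ^ (-s) := by positivity
  rw [Real.norm_of_nonneg hn]
  simp only [Pi.add_apply, indicator, Metric.mem_ball, dist_zero_right]
  have p1 : 0 ≤ (if ‖x‖ < 1 / 2 then ‖x‖ ^ (-(1 : ℝ)) else 0) := by split_ifs <;> positivity
  have p2 : 0 ≤ (if ‖x - 1‖ < 1 / 2 then ‖x - 1‖ ^ (-s) else 0) := by split_ifs <;> positivity
  have p3 : 0 ≤ (1 + ‖x‖) ^ (-(1 + s)) := by positivity
  have q1 : (0 : ℝ) < 2 ^ s := by positivity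
  have q3 : (0 : ℝ) < 3 * 5 ^ s := by positivity
  by_cases c1 : ‖x‖ < 1 / 2
  · have e1 : 1 / 2 ≤ ‖x - 1‖ := by
      have := norm_sub_norm_le (1 : ℂ) x
      rw [norm_one, norm_sub_rev] at this
      linarith
    have e2 : ‖x - 1‖ ^ (-s) ≤ 2 ^ s := by
      calc ‖x - 1‖ ^ (-s) ≤ (1 / 2 : ℝ) ^ (-s) :=
            Real.rpow_le_rpow_of_nonpos (by norm_num) e1 (by linarith)
        _ = 2 ^ s := by rw [one_div, Real.inv_rpow (by norm_num), Real.rpow_neg (by norm_num), inv_inv]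
    have e3 : ‖x‖⁻¹ * ‖x - 1‖ ^ (-s) ≤ 2 ^ s * ‖x‖ ^ (-(1 : ℝ)) := by
      rw [Real.rpow_neg_one, mul_comm]
      exact mul_le_mul_of_nonneg_right e2 (by positivity)
    rw [if_pos c1]
    nlinarith [mul_nonneg q3.le p3]
  · by_cases c2 : ‖x - 1‖ < 1 / 2
    · have e1 : ‖x‖⁻¹ ≤ 2 := by
        push Not at c1
        rw [inv_le_comm₀ (by linarith) (by norm_num)]
        linarith
      have e3 : ‖x‖⁻¹ * ‖x - 1‖ ^ (-s) ≤ 2 * ‖x - 1‖ ^ (-s) :=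
        mul_le_mul_of_nonneg_right e1 (by positivity)
      rw [if_pos c2]
      nlinarith [mul_nonneg q3.le p3, mul_nonneg q1.le p1]
    · push Not at c1 c2
      have e1 : (1 + ‖x‖) ≤ 3 * ‖x‖ := by linarith
      have e2 : (1 + ‖x‖) ≤ 5 * ‖x - 1‖ := by
        have := norm_sub_norm_le x (1 : ℂ)
        rw [norm_one] at this
        linarith
      have hx0 : 0 < ‖x‖ := by linarith
      have hx1 : 0 < ‖x - 1‖ := by linarith
      have e3 : ‖x‖⁻¹ ≤ 3 * (1 + ‖x‖)⁻¹ := by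
        rw [← div_eq_mul_inv, inv_le_comm₀ hx0 (by positivity), inv_div, div_le_iff₀ (by norm_num)]
        linarith
      have e4 : ‖x - 1‖ ^ (-s) ≤ 5 ^ s * (1 + ‖x‖) ^ (-s) := by
        calc ‖x - 1‖ ^ (-s) ≤ ((1 + ‖x‖) / 5) ^ (-s) :=
              Real.rpow_le_rpow_of_nonpos (by positivity) (by linarith) (by linarith)
          _ = _ := by
            rw [Real.div_rpow (by positivity) (by norm_num), Real.rpow_neg (by norm_num : (0:ℝ) ≤ 5),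
              div_inv_eq_mul, mul_comm]
      have e5 : (1 + ‖x‖) ^ (-(1 + s)) = (1 + ‖x‖)⁻¹ * (1 + ‖x‖) ^ (-s) := by
        rw [neg_add, Real.rpow_add (by positivity), Real.rpow_neg_one]
      have e6 : ‖x‖⁻¹ * ‖x - 1‖ ^ (-s) ≤ 3 * 5 ^ s * (1 + ‖x‖) ^ (-(1 + s)) := by
        rw [e5]
        calc ‖x‖⁻¹ * ‖x - 1‖ ^ (-s) ≤ (3 * (1 + ‖x‖)⁻¹) * (5 ^ s * (1 + ‖x‖) ^ (-s)) := by gcongr
          _ = _ := by ring
      nlinarith [mul_nonneg q1.le p1]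

/-- the value of the kernel integral at `1` -/
noncomputable def C0 (s : ℝ) : ℝ≥0∞ := ∫⁻ x : ℂ, ‖x‖ₑ⁻¹ * ‖x - 1‖ₑ ^ (-s)

lemma C0_lt_top {s : ℝ} (h1 : 1 < s) (h2 : s < 2) : C0 s < ⊤ := by
  have h := (int_one h1 h2).lintegral_lt_top
  refine lt_of_le_of_lt (le_of_eq ?_) h
  unfold C0
  refine lintegral_congr_ae ?_
  filter_upwards [Measure.ae_ne volume (0 : ℂ), Measure.ae_ne volume (1 : ℂ)] with x hx0 hx1
  have h3 : 0 < ‖x‖ := norm_pos_iff.mpr hx0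
  have h4 : 0 < ‖x - 1‖ := norm_pos_iff.mpr (sub_ne_zero.mpr hx1)
  rw [ENNReal.ofReal_mul (by positivity), ENNReal.ofReal_inv_of_pos h3, ofReal_norm,
    ← ENNReal.ofReal_rpow_of_pos h4, ofReal_norm]

lemma kern_bound {s : ℝ} {η : ℂ} (hη : η ≠ 0) :
    ∫⁻ ζ : ℂ, ‖ζ‖ₑ⁻¹ * ‖ζ - η‖ₑ ^ (-s) = C0 s * ‖η‖ₑ ^ (1 - s) := by
  rw [lint_smul volume hη]
  have h0 : ‖η‖ₑ ≠ 0 := by simpa using hη
  have ht : ‖η‖ₑ ≠ ⊤ := by simp
  have h1 : ∀ x : ℂ, ‖η • x‖ₑ⁻¹ * ‖η • x - η‖ₑ ^ (-s) =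
      (‖η‖ₑ⁻¹ * ‖η‖ₑ ^ (-s)) * (‖x‖ₑ⁻¹ * ‖x - 1‖ₑ ^ (-s)) := by
    intro x
    have e1 : η • x - η = η • (x - 1) := by simp [mul_sub]
    rw [e1, enorm_smul, enorm_smul, ENNReal.mul_inv (Or.inl h0) (Or.inl ht)]
    by_cases hx : x - 1 = 0
    · rw [hx]
      simp only [enorm_zero, mul_zero]
      rcases lt_trichotomy s 0 with hs | hs | hs
      · rw [ENNReal.zero_rpow_of_pos (by linarith)]; simp
      · rw [hs]; simp [mul_comm]
      · rw [ENNReal.zero_rpow_of_neg (by linarith)]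
        have hx1 : x = 1 := by linear_combination hx
        subst hx1
        simp only [enorm_one, inv_one, mul_one, one_mul]
        rw [ENNReal.mul_top (by simpa using ht), ENNReal.mul_top]
        refine mul_ne_zero (by simpa using ht) ?_
        rw [Ne, ENNReal.rpow_eq_zero_iff]
        push Not
        exact ⟨fun h => absurd h h0, fun h => absurd h ht⟩
    · rw [ENNReal.mul_rpow_of_ne_top ht (by simp)]
      ring
  simp_rw [h1]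
  rw [lintegral_const_mul' _ _ (ENNReal.mul_ne_top (by simpa using h0) (by
    rw [Ne, ENNReal.rpow_eq_top_iff]
    push Not
    exact ⟨fun h => absurd h h0, fun h => absurd h ht⟩))]
  have h2 : ‖η‖ₑ ^ (2 * Module.finrank ℂ ℂ) * (‖η‖ₑ⁻¹ * ‖η‖ₑ ^ (-s)) = ‖η‖ₑ ^ (1 - s) := by
    rw [Module.finrank_self, mul_one, ← ENNReal.rpow_natCast, ← ENNReal.rpow_neg_one,
      ← ENNReal.rpow_add _ _ h0 ht, ← ENNReal.rpow_add _ _ h0 ht]
    congr 1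
    push_cast; ring
  rw [← mul_assoc, h2, mul_comm]
  rfl

/-- Jensen / Hölder -/
lemma jensen {α : Type*} [MeasurableSpace α] {μ : Measure α} {s : ℝ} (hs : 1 < s)
    {G k : α → ℝ≥0∞} (hG : AEMeasurable G μ) (hk : AEMeasurable k μ) :
    (∫⁻ a, G a * k a ∂μ) ^ s ≤ (∫⁻ a, G a ∂μ) ^ (s - 1) * ∫⁻ a, G a * k a ^ s ∂μ := by
  have hs0 : 0 < s := by linarith
  have hpq : (s / (s - 1)).HolderConjugate s := (Real.HolderConjugate.conjExponent hs).symm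
  have h := ENNReal.lintegral_mul_le_Lp_mul_Lq μ hpq (f := fun a => G a ^ ((s - 1) / s))
    (g := fun a => G a ^ (1 / s) * k a) (hG.pow_const _) ((hG.pow_const _).mul hk)
  have e1 : ∀ a, ((fun a => G a ^ ((s - 1) / s)) * fun a => G a ^ (1 / s) * k a) a = G a * k a := by
    intro a
    simp only [Pi.mul_apply]
    rw [← mul_assoc, ← ENNReal.rpow_add_of_nonneg _ _ (div_nonneg (by linarith) hs0.le)
      (by positivity)]
    have : (s - 1) / s + 1 / s = 1 := by field_simp; ring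
    rw [this, ENNReal.rpow_one]
  have e2 : ∀ a, ((fun a => G a ^ ((s - 1) / s)) a) ^ (s / (s - 1)) = G a := by
    intro a
    have hs1 : s - 1 ≠ 0 := by linarith
    simp only
    rw [← ENNReal.rpow_mul]
    have : (s - 1) / s * (s / (s - 1)) = 1 := by field_simp
    rw [this, ENNReal.rpow_one]
  have e3 : ∀ a, ((fun a => G a ^ (1 / s) * k a) a) ^ s = G a * k a ^ s := by
    intro a
    simp only
    rw [ENNReal.mul_rpow_of_nonneg _ _ hs0.le, ← ENNReal.rpow_mul]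
    have : 1 / s * s = 1 := by field_simp
    rw [this, ENNReal.rpow_one]
  simp_rw [e1, e2, e3] at h
  calc (∫⁻ a, G a * k a ∂μ) ^ s ≤
        ((∫⁻ a, G a ∂μ) ^ (1 / (s / (s - 1))) * (∫⁻ a, G a * k a ^ s ∂μ) ^ (1 / s)) ^ s :=
        ENNReal.rpow_le_rpow h hs0.le
    _ = _ := by
        rw [ENNReal.mul_rpow_of_nonneg _ _ hs0.le, ← ENNReal.rpow_mul, ← ENNReal.rpow_mul]
        have h1 : 1 / (s / (s - 1)) * s = s - 1 := by field_simp
        have h2 : 1 / s * s = 1 := by field_simp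
        rw [h1, h2, ENNReal.rpow_one]

/-- The weighted inequality for the Cauchy kernel. -/
theorem weighted {s : ℝ} (h1 : 1 < s) {F : ℂ → ℝ≥0∞} (hF : Measurable F) :
    ∫⁻ ζ : ℂ, ‖ζ‖ₑ⁻¹ * (∫⁻ η : ℂ, F η * ‖ζ - η‖ₑ⁻¹) ^ s ≤
      C0 s * (∫⁻ η : ℂ, ‖η‖ₑ ^ (1 / s - 1) * F η) ^ s := by
  have hs0 : 0 < s := by linarith
  set G : ℂ → ℝ≥0∞ := fun η => ‖η‖ₑ ^ (1 / s - 1) * F η with hG
  have hGm : Measurable G := by fun_prop
  have hne : ∀ᵐ η : ℂ, η ≠ 0 := Measure.ae_ne volume (0 : ℂ)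
  have a1 : ∀ ζ : ℂ, ∫⁻ η : ℂ, F η * ‖ζ - η‖ₑ⁻¹ =
      ∫⁻ η : ℂ, G η * (‖η‖ₑ ^ (1 - 1 / s) * ‖ζ - η‖ₑ⁻¹) := by
    intro ζ
    refine lintegral_congr_ae ?_
    filter_upwards [hne] with η hη
    have h0 : ‖η‖ₑ ≠ 0 := by simpa using hη
    have ht : ‖η‖ₑ ≠ ⊤ := by simp
    simp only [hG]
    have : ‖η‖ₑ ^ (1 / s - 1) * ‖η‖ₑ ^ (1 - 1 / s) = 1 := by
      rw [← ENNReal.rpow_add _ _ h0 ht]
      have : 1 / s - 1 + (1 - 1 / s) = 0 := by ring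
      rw [this, ENNReal.rpow_zero]
    calc F η * ‖ζ - η‖ₑ⁻¹ = (‖η‖ₑ ^ (1 / s - 1) * ‖η‖ₑ ^ (1 - 1 / s)) * (F η * ‖ζ - η‖ₑ⁻¹) := by
          rw [this, one_mul]
      _ = _ := by ring
  have a2 : ∀ ζ : ℂ, (∫⁻ η : ℂ, F η * ‖ζ - η‖ₑ⁻¹) ^ s ≤
      (∫⁻ η, G η) ^ (s - 1) * ∫⁻ η : ℂ, G η * (‖η‖ₑ ^ (s - 1) * ‖ζ - η‖ₑ ^ (-s)) := by
    intro ζ
    rw [a1 ζ]
    refine (jensen h1 hGm.aemeasurable (by fun_prop)).trans (le_of_eq ?_)
    congr 1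
    refine lintegral_congr fun η => ?_
    rw [ENNReal.mul_rpow_of_nonneg _ _ hs0.le, ← ENNReal.rpow_mul, ENNReal.inv_rpow,
      ← ENNReal.rpow_neg]
    have : (1 - 1 / s) * s = s - 1 := by field_simp
    rw [this]
  calc ∫⁻ ζ : ℂ, ‖ζ‖ₑ⁻¹ * (∫⁻ η : ℂ, F η * ‖ζ - η‖ₑ⁻¹) ^ s ≤
        ∫⁻ ζ : ℂ, ‖ζ‖ₑ⁻¹ * ((∫⁻ η, G η) ^ (s - 1) *
          ∫⁻ η : ℂ, G η * (‖η‖ₑ ^ (s - 1) * ‖ζ - η‖ₑ ^ (-s))) :=
        lintegral_mono fun ζ => mul_le_mul_right (a2 ζ) _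
    _ = (∫⁻ η, G η) ^ (s - 1) * ∫⁻ ζ : ℂ, ∫⁻ η : ℂ, ‖ζ‖ₑ⁻¹ *
          (G η * (‖η‖ₑ ^ (s - 1) * ‖ζ - η‖ₑ ^ (-s))) := by
        rw [← lintegral_const_mul _ (Measurable.lintegral_prod_right' (f := fun p : ℂ × ℂ =>
          ‖p.1‖ₑ⁻¹ * (G p.2 * (‖p.2‖ₑ ^ (s - 1) * ‖p.1 - p.2‖ₑ ^ (-s)))) (by fun_prop))]
        refine lintegral_congr fun ζ => ?_
        show _ = (∫⁻ η, G η) ^ (s - 1) * ∫⁻ η : ℂ, ‖ζ‖ₑ⁻¹ *
          (G η * (‖η‖ₑ ^ (s - 1) * ‖ζ - η‖ₑ ^ (-s)))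
        rw [lintegral_const_mul _ (by fun_prop)]
        ring
    _ = (∫⁻ η, G η) ^ (s - 1) * ∫⁻ η : ℂ, ∫⁻ ζ : ℂ, ‖ζ‖ₑ⁻¹ *
          (G η * (‖η‖ₑ ^ (s - 1) * ‖ζ - η‖ₑ ^ (-s))) := by
        rw [lintegral_lintegral_swap (by fun_prop)]
    _ = (∫⁻ η, G η) ^ (s - 1) * ∫⁻ η : ℂ, C0 s * G η := by
        congr 1
        refine lintegral_congr_ae ?_
        filter_upwards [hne] with η hη
        have h0 : ‖η‖ₑ ≠ 0 := by simpa using hη
        have ht : ‖η‖ₑ ≠ ⊤ := by simp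
        calc ∫⁻ ζ : ℂ, ‖ζ‖ₑ⁻¹ * (G η * (‖η‖ₑ ^ (s - 1) * ‖ζ - η‖ₑ ^ (-s))) =
              ∫⁻ ζ : ℂ, (G η * ‖η‖ₑ ^ (s - 1)) * (‖ζ‖ₑ⁻¹ * ‖ζ - η‖ₑ ^ (-s)) := by
              refine lintegral_congr fun ζ => ?_
              ring
          _ = (G η * ‖η‖ₑ ^ (s - 1)) * (C0 s * ‖η‖ₑ ^ (1 - s)) := by
              rw [lintegral_const_mul _ (by fun_prop), kern_bound hη]
          _ = (C0 s * G η) * (‖η‖ₑ ^ (s - 1) * ‖η‖ₑ ^ (1 - s)) := by ring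
          _ = C0 s * G η := by
              rw [← ENNReal.rpow_add _ _ h0 ht]
              have : s - 1 + (1 - s) = 0 := by ring
              rw [this, ENNReal.rpow_zero, mul_one]
    _ = C0 s * (∫⁻ η, G η) ^ s := by
        rw [lintegral_const_mul _ hGm]
        have : (∫⁻ η, G η) ^ s = (∫⁻ η, G η) ^ (s - 1) * (∫⁻ η, G η) := by
          conv_rhs => rw [← ENNReal.rpow_one (∫⁻ η, G η), ← ENNReal.rpow_mul, one_mul]
          rw [← ENNReal.rpow_add_of_nonneg _ _ (by linarith) (by norm_num)]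
          congr 1; ring
        rw [this]
        ring

end Pool.Agent.X100.SUC
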