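import Mathlib
import Pool.Agent.X100.SUC.Kern
import Pool.Agent.Helper523.LL.Pompeiu

set_option autoImplicit false

open MeasureTheory Set Filter Topology
open scoped ENNReal

namespace Pool.Agent.X100.SUC

/-- the Wirtinger derivative `∂/∂ζ̄` in one variable -/
noncomputable def db (ψ : ℂ → ℂ) (ζ : ℂ) : ℂ :=
  (1 / 2) * (fderiv ℝ ψ ζ 1 + Complex.I * fderiv ℝ ψ ζ Complex.I)

lemma db_mul {f g : ℂ → ℂ} {ζ : ℂ} (hf : DifferentiableAt ℝ f ζ) (hg : DifferentiableAt ℝ g ζ) :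
    db (fun z => f z * g z) ζ = f ζ * db g ζ + db f ζ * g ζ := by
  unfold db
  rw [fderiv_fun_mul hf hg]
  simp only [add_apply, smul_apply, smul_eq_mul]
  ring

lemma continuous_db {f : ℂ → ℂ} (hf : ContDiff ℝ 1 f) : Continuous (db f) := by
  unfold db
  have h := hf.continuous_fderiv (by simp)
  fun_prop

lemma db_zero {f : ℂ → ℂ} {ζ : ℂ} (h : ζ ∉ tsupport f) : db f ζ = 0 := by
  unfold db
  rw [fderiv_of_notMem_tsupport ℝ h]
  simp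

lemma smooth_ineq {w : ℂ → ℂ} (hw : ContDiff ℝ 1 w) (hc : HasCompactSupport w) (ζ : ℂ) :
    ‖w ζ‖ₑ ≤ ∫⁻ η, ‖db w η‖ₑ * ‖ζ - η‖ₑ⁻¹ := by
  have h := Pool.Agent.Helper523.LL.pompeiu hw hc ζ
  have h1 : ‖w ζ‖ₑ ≤ ‖-(Real.pi : ℂ) * w ζ‖ₑ := by
    rw [enorm_mul, enorm_neg]
    have h2 : (1 : ℝ≥0∞) ≤ ‖(Real.pi : ℂ)‖ₑ := by
      rw [← ofReal_norm, Complex.norm_real, Real.norm_of_nonneg Real.pi_pos.le,
        ← ENNReal.ofReal_one]
      exact ENNReal.ofReal_le_ofReal (by linarith [Real.pi_gt_three])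
    calc ‖w ζ‖ₑ = 1 * ‖w ζ‖ₑ := (one_mul _).symm
      _ ≤ _ := mul_le_mul_left h2 _
  refine h1.trans ?_
  rw [← h]
  refine (enorm_integral_le_lintegral_enorm _).trans (lintegral_mono fun η => ?_)
  rw [enorm_mul]
  have h3 : ‖(η - ζ)⁻¹‖ₑ ≤ ‖ζ - η‖ₑ⁻¹ := by
    rw [← neg_sub ζ η, inv_neg, enorm_neg]
    by_cases h0 : ζ - η = 0
    · rw [h0]; simp
    · rw [enorm_inv h0]
  exact mul_le_mul_right h3 _

/-- local bound for the Cauchy kernel -/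
noncomputable def CR (R : ℝ) : ℝ≥0∞ :=
  (∫⁻ x in Metric.ball (0 : ℂ) 1, ‖x‖ₑ⁻¹) + volume (Metric.ball (0 : ℂ) R)

lemma CR_lt_top (R : ℝ) : CR R < ⊤ := by
  unfold CR
  refine ENNReal.add_lt_top.mpr ⟨?_, measure_ball_lt_top⟩
  have h := (int_ball (a := 1) (by norm_num) 1).lintegral_lt_top
  refine lt_of_le_of_lt (le_of_eq ?_) h
  refine lintegral_congr_ae ?_
  filter_upwards [ae_restrict_of_ae (Measure.ae_ne volume (0 : ℂ))] with x hx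
  have h3 : 0 < ‖x‖ := norm_pos_iff.mpr hx
  rw [Real.rpow_neg_one, ENNReal.ofReal_inv_of_pos h3, ofReal_norm]

lemma cauchy_loc (R : ℝ) (η : ℂ) :
    ∫⁻ ζ in Metric.ball (0 : ℂ) R, ‖ζ - η‖ₑ⁻¹ ≤ CR R := by
  have h1 : ∀ ζ : ℂ, ‖ζ - η‖ₑ⁻¹ ≤
      (Metric.ball (0 : ℂ) 1).indicator (fun x => ‖x‖ₑ⁻¹) (ζ - η) + 1 := by
    intro ζ
    by_cases h : ζ - η ∈ Metric.ball (0 : ℂ) 1
    · rw [indicator_of_mem h]
      exact le_self_add
    · rw [indicator_of_notMem h, zero_add]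
      rw [mem_ball_zero_iff, not_lt] at h
      rw [ENNReal.inv_le_one, ← ofReal_norm, ← ENNReal.ofReal_one]
      exact ENNReal.ofReal_le_ofReal h
  calc ∫⁻ ζ in Metric.ball (0 : ℂ) R, ‖ζ - η‖ₑ⁻¹ ≤
        ∫⁻ ζ in Metric.ball (0 : ℂ) R,
          ((Metric.ball (0 : ℂ) 1).indicator (fun x => ‖x‖ₑ⁻¹) (ζ - η) + 1) :=
        lintegral_mono fun ζ => h1 ζ
    _ = (∫⁻ ζ in Metric.ball (0 : ℂ) R,
          (Metric.ball (0 : ℂ) 1).indicator (fun x => ‖x‖ₑ⁻¹) (ζ - η)) +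
          ∫⁻ ζ in Metric.ball (0 : ℂ) R, 1 := lintegral_add_right _ measurable_const
    _ ≤ CR R := by
        unfold CR
        refine add_le_add ?_ ?_
        · calc (∫⁻ ζ in Metric.ball (0 : ℂ) R,
              (Metric.ball (0 : ℂ) 1).indicator (fun x => ‖x‖ₑ⁻¹) (ζ - η)) ≤
              ∫⁻ ζ, (Metric.ball (0 : ℂ) 1).indicator (fun x => ‖x‖ₑ⁻¹) (ζ - η) :=
              setLIntegral_le_lintegral _ _
            _ = ∫⁻ ζ, (Metric.ball (0 : ℂ) 1).indicator (fun x => ‖x‖ₑ⁻¹) ζ :=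
              lintegral_sub_right_eq_self _ η
            _ = _ := lintegral_indicator Metric.isOpen_ball.measurableSet _
        · simp

lemma limit_ineq {v H : ℂ → ℂ} (hv : Measurable v) (hH : Measurable H) {O : Set ℂ}
    (g : ℕ → ℂ → ℂ) (hg : ∀ k, ContDiff ℝ 1 (g k))
    (hgv : ∀ K ⊆ O, IsCompact K → Tendsto (fun k => ∫⁻ ζ in K, ‖g k ζ - v ζ‖ₑ) atTop (𝓝 0))
    (hgH : ∀ K ⊆ O, IsCompact K → Tendsto (fun k => ∫⁻ ζ in K, ‖db (g k) ζ - H ζ‖ₑ) atTop (𝓝 0))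
    {χ : ℂ → ℂ} (hχ : ContDiff ℝ 1 χ) (hχc : HasCompactSupport χ) (hχO : tsupport χ ⊆ O) :
    ∀ᵐ ζ, ‖χ ζ * v ζ‖ₑ ≤ ∫⁻ η, ‖χ η * H η + db χ η * v η‖ₑ * ‖ζ - η‖ₑ⁻¹ := by
  set K := tsupport χ with hK
  have hKc : IsCompact K := hχc
  have hKm : MeasurableSet K := hKc.isClosed.measurableSet
  have hχcont := hχ.continuous
  have hdcont := continuous_db hχ
  -- bounds
  obtain ⟨M1, hM1⟩ := hKc.exists_bound_of_continuousOn hχcont.continuousOn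
  obtain ⟨M2, hM2⟩ := hKc.exists_bound_of_continuousOn hdcont.continuousOn
  set M : ℝ≥0∞ := ENNReal.ofReal M1 + ENNReal.ofReal M2 with hM
  have hMt : M ≠ ⊤ := by simp [hM]
  have hχM : ∀ ζ, ‖χ ζ‖ₑ ≤ K.indicator (fun _ => M) ζ := by
    intro ζ
    by_cases h : ζ ∈ K
    · rw [indicator_of_mem h, hM]
      refine le_trans ?_ le_self_add
      rw [← ofReal_norm]; exact ENNReal.ofReal_le_ofReal (hM1 ζ h)
    · rw [indicator_of_notMem h, image_eq_zero_of_notMem_tsupport h]; simp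
  have hdM : ∀ ζ, ‖db χ ζ‖ₑ ≤ K.indicator (fun _ => M) ζ := by
    intro ζ
    by_cases h : ζ ∈ K
    · rw [indicator_of_mem h, hM]
      refine le_trans ?_ le_add_self
      rw [← ofReal_norm]; exact ENNReal.ofReal_le_ofReal (hM2 ζ h)
    · rw [indicator_of_notMem h, db_zero h]; simp
  set E : ℕ → ℝ≥0∞ := fun k => ∫⁻ ζ in K, ‖g k ζ - v ζ‖ₑ with hE
  set E' : ℕ → ℝ≥0∞ := fun k => ∫⁻ ζ in K, ‖db (g k) ζ - H ζ‖ₑ with hE'
  set f : ℂ → ℂ := fun η => χ η * H η + db χ η * v η with hf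
  have hfm : Measurable f := by fun_prop
  set fk : ℕ → ℂ → ℂ := fun k η => χ η * db (g k) η + db χ η * g k η with hfk
  have hfkc : ∀ k, Continuous (fk k) := fun k =>
    (hχcont.mul (continuous_db (hg k))).add (hdcont.mul (hg k).continuous)
  set D : ℕ → ℂ → ℝ≥0∞ := fun k ζ => ‖χ ζ * (g k ζ - v ζ)‖ₑ +
    ∫⁻ η, ‖fk k η - f η‖ₑ * ‖ζ - η‖ₑ⁻¹ with hD
  have hp : ∀ k, Measurable (fun p : ℂ × ℂ => ‖fk k p.2 - f p.2‖ₑ * ‖p.1 - p.2‖ₑ⁻¹) := by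
    intro k
    have h3 := (hfkc k).measurable
    exact (((h3.comp measurable_snd).sub (hfm.comp measurable_snd)).enorm).mul
      ((measurable_fst.sub measurable_snd).enorm.inv)
  have hDm : ∀ k, Measurable (D k) := by
    intro k
    have h1 := (hg k).continuous
    have h2 := hfkc k
    have a1 : Measurable fun ζ => ‖χ ζ * (g k ζ - v ζ)‖ₑ := by fun_prop
    have a2 : Measurable fun ζ : ℂ => ∫⁻ η, ‖fk k η - f η‖ₑ * ‖ζ - η‖ₑ⁻¹ :=
      Measurable.lintegral_prod_right' (f := fun p : ℂ × ℂ => ‖fk k p.2 - f p.2‖ₑ *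
        ‖p.1 - p.2‖ₑ⁻¹) (hp k)
    exact a1.add a2
  -- pointwise inequality
  have hpt : ∀ k ζ, ‖χ ζ * v ζ‖ₑ ≤ D k ζ + ∫⁻ η, ‖f η‖ₑ * ‖ζ - η‖ₑ⁻¹ := by
    intro k ζ
    have hw : ContDiff ℝ 1 (fun z => χ z * g k z) := hχ.mul (hg k)
    have hwc : HasCompactSupport (fun z => χ z * g k z) := hχc.mul_right
    have h1 := smooth_ineq hw hwc ζ
    have h2 : ∀ η, db (fun z => χ z * g k z) η = fk k η := fun η =>
      db_mul (hχ.differentiable (by simp) η) ((hg k).differentiable (by simp) η)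
    simp_rw [h2] at h1
    have hfm' : Measurable fun η => ‖f η‖ₑ * ‖ζ - η‖ₑ⁻¹ := by fun_prop
    have h3 : (∫⁻ η, ‖fk k η‖ₑ * ‖ζ - η‖ₑ⁻¹) ≤
        (∫⁻ η, ‖fk k η - f η‖ₑ * ‖ζ - η‖ₑ⁻¹) + (∫⁻ η, ‖f η‖ₑ * ‖ζ - η‖ₑ⁻¹) := by
      rw [← lintegral_add_right _ hfm']
      refine lintegral_mono fun η => ?_
      show ‖fk k η‖ₑ * ‖ζ - η‖ₑ⁻¹ ≤ ‖fk k η - f η‖ₑ * ‖ζ - η‖ₑ⁻¹ + ‖f η‖ₑ * ‖ζ - η‖ₑ⁻¹
      rw [← add_mul]
      refine mul_le_mul_left ?_ _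
      calc ‖fk k η‖ₑ = ‖(fk k η - f η) + f η‖ₑ := by rw [sub_add_cancel]
        _ ≤ _ := enorm_add_le _ _
    calc ‖χ ζ * v ζ‖ₑ = ‖χ ζ * g k ζ - χ ζ * (g k ζ - v ζ)‖ₑ := by congr 1; ring
      _ ≤ ‖χ ζ * g k ζ‖ₑ + ‖χ ζ * (g k ζ - v ζ)‖ₑ := enorm_sub_le
      _ ≤ ((∫⁻ η, ‖fk k η - f η‖ₑ * ‖ζ - η‖ₑ⁻¹) + (∫⁻ η, ‖f η‖ₑ * ‖ζ - η‖ₑ⁻¹)) +
          ‖χ ζ * (g k ζ - v ζ)‖ₑ := add_le_add (h1.trans h3) le_rfl
      _ = _ := by simp only [hD]; ring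
  -- integral bound
  have hint : ∀ (R : ℝ) k, ∫⁻ ζ in Metric.ball (0 : ℂ) R, D k ζ ≤
      M * E k + CR R * (M * (E' k + E k)) := by
    intro R k
    have h1 := (hg k).continuous
    have h2 := hfkc k
    have h3 := continuous_db (hg k)
    have i1 : ∫⁻ ζ in Metric.ball (0 : ℂ) R, ‖χ ζ * (g k ζ - v ζ)‖ₑ ≤ M * E k := by
      calc ∫⁻ ζ in Metric.ball (0 : ℂ) R, ‖χ ζ * (g k ζ - v ζ)‖ₑ ≤
            ∫⁻ ζ, ‖χ ζ * (g k ζ - v ζ)‖ₑ := setLIntegral_le_lintegral _ _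
        _ ≤ ∫⁻ ζ, K.indicator (fun ζ => M * ‖g k ζ - v ζ‖ₑ) ζ := by
            refine lintegral_mono fun ζ => ?_
            rw [enorm_mul]
            refine (mul_le_mul_left (hχM ζ) _).trans (le_of_eq ?_)
            by_cases h : ζ ∈ K
            · rw [indicator_of_mem h, indicator_of_mem h]
            · rw [indicator_of_notMem h, indicator_of_notMem h, zero_mul]
        _ = M * E k := by
            rw [lintegral_indicator hKm, lintegral_const_mul _ (by fun_prop)]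
    have i2 : ∫⁻ η, ‖fk k η - f η‖ₑ ≤ M * (E' k + E k) := by
      calc ∫⁻ η, ‖fk k η - f η‖ₑ ≤
            ∫⁻ η, K.indicator (fun η => M * (‖db (g k) η - H η‖ₑ + ‖g k η - v η‖ₑ)) η := by
            refine lintegral_mono fun η => ?_
            have e1 : fk k η - f η = χ η * (db (g k) η - H η) + db χ η * (g k η - v η) := by
              simp only [hfk, hf]; ring
            rw [e1]
            refine (enorm_add_le _ _).trans ?_
            rw [enorm_mul, enorm_mul]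
            refine (add_le_add (mul_le_mul_left (hχM η) _) (mul_le_mul_left (hdM η) _)).trans
              (le_of_eq ?_)
            by_cases h : η ∈ K
            · rw [indicator_of_mem h, indicator_of_mem h]; ring
            · rw [indicator_of_notMem h, indicator_of_notMem h]; ring
        _ = M * (E' k + E k) := by
            rw [lintegral_indicator hKm, lintegral_const_mul _ (by fun_prop),
              lintegral_add_left (by fun_prop)]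
    have i3 : ∫⁻ ζ in Metric.ball (0 : ℂ) R, ∫⁻ η, ‖fk k η - f η‖ₑ * ‖ζ - η‖ₑ⁻¹ ≤
        CR R * (M * (E' k + E k)) := by
      rw [lintegral_lintegral_swap (hp k).aemeasurable]
      calc ∫⁻ η, ∫⁻ ζ in Metric.ball (0 : ℂ) R, ‖fk k η - f η‖ₑ * ‖ζ - η‖ₑ⁻¹ =
            ∫⁻ η, ‖fk k η - f η‖ₑ * ∫⁻ ζ in Metric.ball (0 : ℂ) R, ‖ζ - η‖ₑ⁻¹ := by
            refine lintegral_congr fun η => ?_
            rw [lintegral_const_mul _ (by fun_prop)]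
        _ ≤ ∫⁻ η, ‖fk k η - f η‖ₑ * CR R :=
            lintegral_mono fun η => mul_le_mul_right (cauchy_loc R η) _
        _ = (∫⁻ η, ‖fk k η - f η‖ₑ) * CR R := lintegral_mul_const _ (by fun_prop)
        _ ≤ _ := by rw [mul_comm]; exact mul_le_mul_right i2 _
    simp only [hD]
    rw [lintegral_add_left (by fun_prop)]
    exact add_le_add i1 i3
  have hlim : ∀ R : ℝ, Tendsto (fun k => ∫⁻ ζ in Metric.ball (0 : ℂ) R, D k ζ) atTop (𝓝 0) := by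
    intro R
    have t1 := hgv K hχO hKc
    have t2 := hgH K hχO hKc
    have t3 : Tendsto (fun k => M * E k + CR R * (M * (E' k + E k))) atTop (𝓝 0) := by
      have a1 := ENNReal.Tendsto.const_mul t1 (Or.inr hMt)
      have a2 := ENNReal.Tendsto.const_mul (t2.add t1) (Or.inr hMt)
      have a3 := ENNReal.Tendsto.const_mul a2 (Or.inr (CR_lt_top R).ne)
      have a4 := a1.add a3
      simpa using a4
    exact tendsto_of_tendsto_of_tendsto_of_le_of_le tendsto_const_nhds t3 (fun _ => bot_le)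
      (fun k => hint R k)
  have hball : ∀ n : ℕ, ∀ᵐ ζ ∂(volume.restrict (Metric.ball (0 : ℂ) n)),
      ‖χ ζ * v ζ‖ₑ ≤ ∫⁻ η, ‖f η‖ₑ * ‖ζ - η‖ₑ⁻¹ := by
    intro n
    have h1 : ∫⁻ ζ in Metric.ball (0 : ℂ) n, liminf (fun k => D k ζ) atTop = 0 := by
      refine le_antisymm ?_ bot_le
      refine (lintegral_liminf_le hDm).trans ?_
      rw [(hlim n).liminf_eq]
    rw [lintegral_eq_zero_iff (Measurable.liminf hDm)] at h1
    filter_upwards [h1] with ζ hζ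
    have h2 : ‖χ ζ * v ζ‖ₑ - ∫⁻ η, ‖f η‖ₑ * ‖ζ - η‖ₑ⁻¹ ≤ liminf (fun k => D k ζ) atTop := by
      refine le_liminf_of_le (by isBoundedDefault) (Eventually.of_forall fun k => ?_)
      exact tsub_le_iff_right.mpr (hpt k ζ)
    have h3 : liminf (fun k => D k ζ) atTop = 0 := hζ
    rw [h3] at h2
    have h4 := tsub_eq_zero_iff_le.mp (le_antisymm h2 bot_le)
    exact h4
  have hun : (⋃ n : ℕ, Metric.ball (0 : ℂ) n) = univ := by
    rw [eq_univ_iff_forall]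
    intro ζ
    obtain ⟨n, hn⟩ := exists_nat_gt ‖ζ‖
    exact mem_iUnion.mpr ⟨n, by rwa [mem_ball_zero_iff]⟩
  have := (ae_restrict_iUnion_iff (fun n : ℕ => Metric.ball (0 : ℂ) n) _).2 hball
  rwa [hun, Measure.restrict_univ] at this

/-- vector-valued version -/
lemma limit_ineq_vec {m : ℕ} {v H : ℂ → Fin m → ℂ} (hv : Measurable v) (hH : Measurable H)
    {O : Set ℂ} (g : ℕ → Fin m → ℂ → ℂ) (hg : ∀ k c, ContDiff ℝ 1 (g k c))
    (hgv : ∀ c, ∀ K ⊆ O, IsCompact K →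
      Tendsto (fun k => ∫⁻ ζ in K, ‖g k c ζ - v ζ c‖ₑ) atTop (𝓝 0))
    (hgH : ∀ c, ∀ K ⊆ O, IsCompact K →
      Tendsto (fun k => ∫⁻ ζ in K, ‖db (g k c) ζ - H ζ c‖ₑ) atTop (𝓝 0))
    {χ : ℂ → ℂ} (hχ : ContDiff ℝ 1 χ) (hχc : HasCompactSupport χ) (hχO : tsupport χ ⊆ O) :
    ∀ᵐ ζ, ‖χ ζ • v ζ‖ₑ ≤ ∫⁻ η, ‖χ η • H η + db χ η • v η‖ₑ * ‖ζ - η‖ₑ⁻¹ := by
  have h1 : ∀ c : Fin m, ∀ᵐ ζ, ‖χ ζ * v ζ c‖ₑ ≤
      ∫⁻ η, ‖χ η * H η c + db χ η * v η c‖ₑ * ‖ζ - η‖ₑ⁻¹ := fun c =>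
    limit_ineq (v := fun ζ => v ζ c) (H := fun ζ => H ζ c) ((measurable_pi_apply c).comp hv)
      ((measurable_pi_apply c).comp hH) (fun k => g k c) (fun k => hg k c) (hgv c) (hgH c)
      hχ hχc hχO
  have hpi : ∀ x : Fin m → ℂ, ∀ d : ℝ≥0∞, (∀ c, ‖x c‖ₑ ≤ d) → ‖x‖ₑ ≤ d := by
    intro x d h
    rw [← edist_zero_right, edist_pi_le_iff]
    intro c
    rw [Pi.zero_apply, edist_zero_right]
    exact h c
  have hpi' : ∀ (x : Fin m → ℂ) (c : Fin m), ‖x c‖ₑ ≤ ‖x‖ₑ := by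
    intro x c
    have := edist_le_pi_edist x 0 c
    rwa [Pi.zero_apply, edist_zero_right, edist_zero_right] at this
  filter_upwards [ae_all_iff.mpr h1] with ζ hζ
  refine hpi _ _ fun c => ?_
  refine (hζ c).trans (lintegral_mono fun η => ?_)
  refine mul_le_mul_left ?_ _
  exact hpi' (χ η • H η + db χ η • v η) c

end Pool.Agent.X100.SUC
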