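import Mathlib
import Pool.Agent.X100.SUC.Line

set_option autoImplicit false

open MeasureTheory Set Filter Topology
open scoped ENNReal

namespace Pool.Agent.X100.SUC

/-- the exponent `2n/(2n-1)`, `n = d + 1` -/
noncomputable def sg (d : ℕ) : ℝ := (2 * d + 2) / (2 * d + 1)

lemma sg_gt (d : ℕ) : 1 < sg d := by
  unfold sg
  rw [lt_div_iff₀ (by positivity)]
  linarith

lemma sg_lt {d : ℕ} (hd : 1 ≤ d) : sg d < 2 := by
  unfold sg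
  rw [div_lt_iff₀ (by positivity)]
  have : (1 : ℝ) ≤ d := by exact_mod_cast hd
  linarith

lemma sg_conj (d : ℕ) : ((2 * d + 2 : ℝ)).HolderConjugate (sg d) := by
  have h := Real.HolderConjugate.conjExponent (p := (2 * d + 2 : ℝ)) (by
    have : (0 : ℝ) ≤ d := by positivity
    linarith)
  have e : Real.conjExponent (2 * d + 2 : ℝ) = sg d := by
    unfold Real.conjExponent sg
    congr 1; ring
  rwa [e] at h

lemma le_rpow_add_one {t : ℝ≥0∞} {s : ℝ} (hs : 1 ≤ s) : t ≤ t ^ s + 1 := by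
  rcases le_total t 1 with h | h
  · exact h.trans le_add_self
  · refine le_trans ?_ le_self_add
    calc t = t ^ (1 : ℝ) := (ENNReal.rpow_one t).symm
      _ ≤ t ^ s := ENNReal.rpow_le_rpow_of_exponent_le h hs

lemma enorm_ne_zero' {ζ : ℂ} (h : ζ ≠ 0) : ‖ζ‖ₑ ≠ 0 := by simpa using h

lemma enorm_ne_top' (ζ : ℂ) : ‖ζ‖ₑ ≠ ⊤ := by simp

/-- finiteness of weighted `L^1` norms -/
lemma finite_L1 {m : ℕ} {v : ℂ → Fin m → ℂ} {ρ s : ℝ} (hs : 1 ≤ s)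
    (h : ∀ x : ℝ, ∫⁻ ζ in Metric.ball 0 ρ, ‖ζ‖ₑ ^ x * ‖v ζ‖ₑ ^ s < ⊤) (x : ℝ) :
    ∫⁻ ζ in Metric.ball 0 ρ, ‖ζ‖ₑ ^ x * ‖v ζ‖ₑ < ⊤ := by
  have h1 : ∀ ζ : ℂ, ‖ζ‖ₑ ^ x * ‖v ζ‖ₑ ≤ ‖ζ‖ₑ ^ (x * s) * ‖v ζ‖ₑ ^ s + 1 := by
    intro ζ
    refine (le_rpow_add_one hs).trans (le_of_eq ?_)
    rw [ENNReal.mul_rpow_of_nonneg _ _ (by linarith), ← ENNReal.rpow_mul]
  refine (lintegral_mono fun ζ => h1 ζ).trans_lt ?_
  rw [lintegral_add_right _ measurable_const]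
  refine ENNReal.add_lt_top.mpr ⟨h _, ?_⟩
  rw [lintegral_const, one_mul, Measure.restrict_apply_univ]
  exact measure_ball_lt_top

/-- a fixed bump -/
noncomputable def bmp : ContDiffBump (0 : ℂ) := ⟨1, 2, one_pos, one_lt_two⟩

/-- the cutoff at scale `δ` -/
noncomputable def kp (δ : ℝ) (ζ : ℂ) : ℂ := ((bmp (δ⁻¹ • ζ) : ℝ) : ℂ)

lemma kp_contDiff (δ : ℝ) : ContDiff ℝ 1 (kp δ) := by
  unfold kp
  exact Complex.ofRealCLM.contDiff.comp (bmp.contDiff.comp (contDiff_id.const_smul δ⁻¹))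

lemma kp_one {δ : ℝ} (hδ : 0 < δ) {ζ : ℂ} (h : ‖ζ‖ ≤ δ) : kp δ ζ = 1 := by
  unfold kp
  rw [bmp.one_of_mem_closedBall]
  · simp
  · rw [mem_closedBall_zero_iff, norm_smul, norm_inv, Real.norm_of_nonneg hδ.le]
    show δ⁻¹ * ‖ζ‖ ≤ 1
    rw [inv_mul_le_iff₀ hδ]; linarith

lemma kp_zero {δ : ℝ} (hδ : 0 < δ) {ζ : ℂ} (h : 2 * δ ≤ ‖ζ‖) : kp δ ζ = 0 := by
  unfold kp
  rw [bmp.zero_of_le_dist]
  · simp
  · rw [dist_zero_right, norm_smul, norm_inv, Real.norm_of_nonneg hδ.le]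
    show 2 ≤ δ⁻¹ * ‖ζ‖
    rw [inv_mul_eq_div, le_div_iff₀ hδ]; exact h

lemma kp_norm (δ : ℝ) (ζ : ℂ) : ‖1 - kp δ ζ‖ₑ ≤ 1 := by
  unfold kp
  rw [← Complex.ofReal_one, ← Complex.ofReal_sub, ← ofReal_norm, Complex.norm_real,
    ← ENNReal.ofReal_one]
  refine ENNReal.ofReal_le_ofReal ?_
  have h1 := bmp.nonneg (x := δ⁻¹ • ζ)
  have h2 := bmp.le_one (x := δ⁻¹ • ζ)
  rw [Real.norm_eq_abs, abs_le]
  constructor <;> linarith

lemma kp_db_zero {δ : ℝ} (hδ : 0 < δ) {ζ : ℂ} (h : 2 * δ < ‖ζ‖) : db (kp δ) ζ = 0 := by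
  refine db_zero fun h1 => ?_
  have h2 : tsupport (kp δ) ⊆ Metric.closedBall 0 (2 * δ) := by
    refine closure_minimal (fun z hz => ?_) Metric.isClosed_closedBall
    rw [mem_closedBall_zero_iff]
    by_contra hcon
    push Not at hcon
    exact hz (kp_zero hδ hcon.le)
  have h3 := h2 h1
  rw [mem_closedBall_zero_iff] at h3
  linarith

lemma kp_db_bound : ∃ M : ℝ≥0∞, M ≠ ⊤ ∧ ∀ δ : ℝ, 0 < δ → ∀ ζ : ℂ, ζ ≠ 0 →
    ‖db (kp δ) ζ‖ₑ ≤ M * ‖ζ‖ₑ⁻¹ := by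
  have hc : HasCompactSupport (kp 1) := by
    refine HasCompactSupport.of_support_subset_isCompact (isCompact_closedBall (0 : ℂ) 2) ?_
    intro z hz
    rw [mem_closedBall_zero_iff]
    by_contra hcon
    push Not at hcon
    exact hz (kp_zero one_pos (by linarith))
  have hdc : Continuous (db (kp 1)) := continuous_db (kp_contDiff 1)
  obtain ⟨M, hM⟩ := hc.exists_bound_of_continuousOn (f := db (kp 1)) hdc.continuousOn
  have hM' : ∀ z, ‖db (kp 1) z‖ ≤ |M| := by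
    intro z
    by_cases hz : z ∈ tsupport (kp 1)
    · exact (hM z hz).trans (le_abs_self _)
    · rw [db_zero hz, norm_zero]; exact abs_nonneg _
  refine ⟨ENNReal.ofReal (2 * |M|), ENNReal.ofReal_ne_top, fun δ hδ ζ hζ => ?_⟩
  have hζ0 : 0 < ‖ζ‖ := norm_pos_iff.mpr hζ
  by_cases h : 2 * δ < ‖ζ‖
  · rw [kp_db_zero hδ h]; simp
  push Not at h
  have e : db (kp δ) ζ = (δ⁻¹ : ℝ) * db (kp 1) (δ⁻¹ • ζ) := by
    have h1 : kp δ = fun z => kp 1 (δ⁻¹ • z) := by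
      funext z; simp [kp]
    have h2 : HasFDerivAt (kp 1) (fderiv ℝ (kp 1) (δ⁻¹ • ζ)) (δ⁻¹ • ζ) :=
      ((kp_contDiff 1).differentiable (by simp) _).hasFDerivAt
    have h3 : HasFDerivAt (fun z : ℂ => δ⁻¹ • z) (δ⁻¹ • ContinuousLinearMap.id ℝ ℂ) ζ :=
      (hasFDerivAt_id ζ).const_smul δ⁻¹
    have h4 := (h2.comp ζ h3).fderiv
    have h5 : fderiv ℝ (kp δ) ζ = (fderiv ℝ (kp 1) (δ⁻¹ • ζ)).comp
        (δ⁻¹ • ContinuousLinearMap.id ℝ ℂ) := by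
      rw [h1]; exact h4
    have h6 : ∀ v : ℂ, (fderiv ℝ (kp 1) (δ⁻¹ • ζ)).comp (δ⁻¹ • ContinuousLinearMap.id ℝ ℂ) v =
        (δ⁻¹ : ℝ) * fderiv ℝ (kp 1) (δ⁻¹ • ζ) v := by
      intro v
      rw [ContinuousLinearMap.comp_apply, ← Complex.real_smul, ← map_smul]
      rfl
    unfold db
    rw [h5, h6, h6]
    ring
  have h6 : ‖db (kp δ) ζ‖ ≤ 2 * |M| * ‖ζ‖⁻¹ := by
    rw [e, norm_mul, Complex.norm_real, Real.norm_of_nonneg (inv_nonneg.mpr hδ.le)]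
    have h7 := hM' (δ⁻¹ • ζ)
    have h8 : δ⁻¹ ≤ 2 * ‖ζ‖⁻¹ := by
      rw [← div_eq_mul_inv, inv_le_comm₀ hδ (by positivity), inv_div, div_le_iff₀ (by norm_num)]
      linarith
    calc δ⁻¹ * ‖db (kp 1) (δ⁻¹ • ζ)‖ ≤ (2 * ‖ζ‖⁻¹) * |M| := by gcongr
      _ = _ := by ring
  calc ‖db (kp δ) ζ‖ₑ = ENNReal.ofReal ‖db (kp δ) ζ‖ := (ofReal_norm _).symm
    _ ≤ ENNReal.ofReal (2 * |M| * ‖ζ‖⁻¹) := ENNReal.ofReal_le_ofReal h6
    _ = _ := by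
      rw [ENNReal.ofReal_mul (by positivity), ENNReal.ofReal_inv_of_pos hζ0, ofReal_norm]

lemma db_holo {f : ℂ → ℂ} {ζ : ℂ} (h : DifferentiableAt ℂ f ζ) : db f ζ = 0 := by
  have h1 : HasFDerivAt f ((fderiv ℂ f ζ).restrictScalars ℝ) ζ := h.hasFDerivAt.restrictScalars ℝ
  unfold db
  rw [h1.fderiv]
  simp only [ContinuousLinearMap.coe_restrictScalars']
  have h2 : fderiv ℂ f ζ Complex.I = Complex.I * fderiv ℂ f ζ 1 := by
    have : (Complex.I : ℂ) = Complex.I • (1 : ℂ) := by simp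
    conv_lhs => rw [this]
    rw [map_smul, smul_eq_mul]
  rw [h2, ← mul_assoc, Complex.I_mul_I]
  ring

/-- the modified cutoff -/
noncomputable def ch (N : ℕ) (χ : ℂ → ℂ) (δ : ℝ) (ζ : ℂ) : ℂ := (ζ ^ N)⁻¹ * (χ ζ * (1 - kp δ ζ))

lemma ch_zero {N : ℕ} {χ : ℂ → ℂ} {δ : ℝ} (hδ : 0 < δ) {ζ : ℂ} (h : ‖ζ‖ ≤ δ) :
    ch N χ δ ζ = 0 := by
  unfold ch
  rw [kp_one hδ h]; ring

lemma ch_tsupport {N : ℕ} {χ : ℂ → ℂ} {δ : ℝ} (hδ : 0 < δ) :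
    tsupport (ch N χ δ) ⊆ tsupport χ ∩ {ζ | δ ≤ ‖ζ‖} := by
  refine closure_minimal (fun ζ hζ => ⟨?_, ?_⟩)
    ((isClosed_tsupport χ).inter (isClosed_le continuous_const continuous_norm))
  · refine subset_tsupport _ fun h0 => hζ ?_
    unfold ch; rw [h0]; ring
  · by_contra hcon
    have : ‖ζ‖ < δ := not_le.mp hcon
    exact hζ (ch_zero hδ this.le)

lemma ch_contDiff {N : ℕ} {χ : ℂ → ℂ} (hχ : ContDiff ℝ 1 χ) {δ : ℝ} (hδ : 0 < δ) :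
    ContDiff ℝ 1 (ch N χ δ) := by
  rw [contDiff_iff_contDiffAt]
  intro ζ
  by_cases h : ‖ζ‖ < δ
  · have h1 : ch N χ δ =ᶠ[𝓝 ζ] fun _ => 0 := by
      filter_upwards [(isOpen_lt continuous_norm continuous_const).mem_nhds h] with z hz
      exact ch_zero hδ (le_of_lt hz)
    exact contDiffAt_const.congr_of_eventuallyEq h1
  · push Not at h
    have h0 : ζ ≠ 0 := norm_pos_iff.mp (hδ.trans_le h)
    have h1 : ContDiffAt ℝ 1 (fun z : ℂ => z ^ N) ζ := (contDiff_id.pow N).contDiffAt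
    exact (h1.inv (pow_ne_zero N h0)).mul
      (hχ.contDiffAt.mul (contDiffAt_const.sub (kp_contDiff δ).contDiffAt))

lemma ch_db {N : ℕ} {χ : ℂ → ℂ} (hχ : ContDiff ℝ 1 χ) {δ : ℝ} {ζ : ℂ} (h0 : ζ ≠ 0) :
    db (ch N χ δ) ζ = (ζ ^ N)⁻¹ * (db χ ζ * (1 - kp δ ζ) - χ ζ * db (kp δ) ζ) := by
  have h1 : DifferentiableAt ℂ (fun z : ℂ => (z ^ N)⁻¹) ζ :=
    (differentiableAt_id.pow N).inv (pow_ne_zero N h0)
  have h2 : DifferentiableAt ℝ χ ζ := hχ.differentiable (by simp) ζ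
  have h3 : DifferentiableAt ℝ (kp δ) ζ := (kp_contDiff δ).differentiable (by simp) ζ
  have h4 : DifferentiableAt ℝ (fun z => 1 - kp δ z) ζ := (differentiableAt_const _).sub h3
  have e1 : db (fun z => 1 - kp δ z) ζ = - db (kp δ) ζ := by
    unfold db
    rw [fderiv_const_sub]
    simp only [neg_apply]
    ring
  have e2 := db_mul h2 h4
  have h5 : DifferentiableAt ℝ (fun z => χ z * (1 - kp δ z)) ζ := h2.mul h4
  have e3 := db_mul (h1.restrictScalars ℝ) h5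
  have e4 : db (ch N χ δ) ζ = db (fun z => (z ^ N)⁻¹ * (χ z * (1 - kp δ z))) ζ := rfl
  rw [e4, e3, db_holo h1, e2, e1]
  ring

end Pool.Agent.X100.SUC
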