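import Mathlib
import Pool.Agent.X100.SUC.Disc

set_option autoImplicit false

open MeasureTheory Set Filter Topology
open scoped ENNReal

namespace Pool.Agent.X100.SUC

/-- the hypotheses on one complex line -/
structure Sl (m d : ℕ) (ρ : ℝ) (v H : ℂ → Fin m → ℂ) (V : ℂ → ℝ≥0∞) : Prop where
  mv : Measurable v
  mH : Measurable H
  mV : Measurable V
  ineq : ∀ᵐ ζ : ℂ, ζ ∈ Metric.ball (0 : ℂ) ρ → ‖H ζ‖ₑ ≤ V ζ * ‖v ζ‖ₑ
  intV : ∫⁻ ζ in Metric.ball (0 : ℂ) ρ, ‖ζ‖ₑ ^ (2 * d : ℝ) * V ζ ^ (2 * d + 2 : ℝ) < ⊤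
  intv : ∀ x : ℝ, ∫⁻ ζ in Metric.ball (0 : ℂ) ρ, ‖ζ‖ₑ ^ x * ‖v ζ‖ₑ ^ sg d < ⊤
  rep : ∀ χ : ℂ → ℂ, ContDiff ℝ 1 χ → HasCompactSupport χ → tsupport χ ⊆ Metric.ball 0 ρ \ {0} →
    ∀ᵐ ζ, ‖χ ζ • v ζ‖ₑ ≤ ∫⁻ η, ‖χ η • H η + db χ η • v η‖ₑ * ‖ζ - η‖ₑ⁻¹

lemma enorm_pow_inv {ζ : ℂ} (h : ζ ≠ 0) (N : ℕ) : ‖(ζ ^ N)⁻¹‖ₑ = ‖ζ‖ₑ ^ (-(N : ℝ)) := by
  rw [enorm_inv (pow_ne_zero N h), enorm_pow, ENNReal.rpow_neg, ENNReal.rpow_natCast]

lemma vol_closedBall_tendsto (c : ℝ) :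
    Tendsto (fun k : ℕ => volume (Metric.closedBall (0 : ℂ) (c * (1 / ((k : ℝ) + 1))))) atTop
      (𝓝 0) := by
  have h := tendsto_one_div_add_atTop_nhds_zero_nat (𝕜 := ℝ)
  have h1 := ENNReal.tendsto_ofReal (h.const_mul c)
  simp only [mul_zero, ENNReal.ofReal_zero] at h1
  have h2 : Tendsto (fun k : ℕ => ENNReal.ofReal (c * (1 / ((k : ℝ) + 1))) ^ 2 * NNReal.pi) atTop
      (𝓝 (0 ^ 2 * NNReal.pi)) :=
    ENNReal.Tendsto.mul_const (((ENNReal.continuous_pow 2).tendsto 0).comp h1)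
      (Or.inr ENNReal.coe_ne_top)
  simp only [ne_eq, OfNat.ofNat_ne_zero, not_false_eq_true, zero_pow, zero_mul] at h2
  refine h2.congr fun k => ?_
  rw [Complex.volume_closedBall]

variable {m d : ℕ} {ρ : ℝ} {v H : ℂ → Fin m → ℂ} {V : ℂ → ℝ≥0∞}

lemma main_est (S : Sl m d ρ v H V) (hd : 1 ≤ d) {χ : ℂ → ℂ} (hχ : ContDiff ℝ 1 χ)
    (hχc : HasCompactSupport χ) (hχρ : tsupport χ ⊆ Metric.ball 0 ρ) (hχ1 : ∀ ζ, ‖χ ζ‖ₑ ≤ 1)
    (N : ℕ) :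
    ∫⁻ ζ, ‖ζ‖ₑ ^ (-1 - N * sg d) * (‖χ ζ‖ₑ * ‖v ζ‖ₑ) ^ sg d ≤
      C0 (sg d) * ((∫⁻ η, ‖η‖ₑ ^ (1 / sg d - 1 - N) * (‖χ η‖ₑ * ‖H η‖ₑ)) +
        (∫⁻ η, ‖η‖ₑ ^ (1 / sg d - 1 - N) * (‖db χ η‖ₑ * ‖v η‖ₑ))) ^ sg d := by
  have hs1 := sg_gt d
  have hs2 := sg_lt hd
  set s := sg d with hs
  have hs0 : 0 < s := by linarith
  have mv := S.mv
  have mH := S.mH
  have hχcont := hχ.continuous
  have hdχ := continuous_db hχ
  obtain ⟨M, hMt, hM⟩ := kp_db_bound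
  set A := ∫⁻ η, ‖η‖ₑ ^ (1 / s - 1 - N) * (‖χ η‖ₑ * ‖H η‖ₑ) with hA
  set B := ∫⁻ η, ‖η‖ₑ ^ (1 / s - 1 - N) * (‖db χ η‖ₑ * ‖v η‖ₑ) with hB
  set δ : ℕ → ℝ := fun k => 1 / ((k : ℝ) + 1) with hδ
  have hδ0 : ∀ k, 0 < δ k := fun k => by simp only [hδ]; positivity
  set U : ℕ → Set ℂ := fun k => Metric.closedBall (0 : ℂ) (2 * δ k) with hU
  set E : ℕ → ℝ≥0∞ := fun k => ∫⁻ η in U k ∩ Metric.ball (0 : ℂ) ρ,
    ‖η‖ₑ ^ (1 / s - 2 - N) * ‖v η‖ₑ with hE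
  set Q : ℕ → ℂ → ℝ≥0∞ := fun k ζ => ‖ζ‖ₑ⁻¹ * ‖ch N χ (δ k) ζ • v ζ‖ₑ ^ s with hQ
  have hchc : ∀ k, Continuous (ch N χ (δ k)) := fun k => (ch_contDiff hχ (hδ0 k)).continuous
  have hchd : ∀ k, Continuous (db (ch N χ (δ k))) := fun k =>
    continuous_db (ch_contDiff hχ (hδ0 k))
  have hQm : ∀ k, Measurable (Q k) := by
    intro k
    have := (hchc k).measurable
    exact (measurable_enorm.inv).mul (((this.smul mv).enorm).pow_const s)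
  -- step 1
  have step1 : ∀ k, ∫⁻ ζ, Q k ζ ≤ C0 s * (A + B + M * E k) ^ s := by
    intro k
    have hts := ch_tsupport (N := N) (χ := χ) (hδ0 k)
    have h1 := S.rep (ch N χ (δ k)) (ch_contDiff hχ (hδ0 k))
      (hχc.isCompact.of_isClosed_subset (isClosed_tsupport _) (fun x hx => (hts hx).1))
      (fun x hx => ⟨hχρ (hts hx).1, fun h0 => by
        have h2 := (hts hx).2
        have h3 : x = 0 := h0
        rw [h3] at h2
        have h4 : δ k ≤ ‖(0 : ℂ)‖ := h2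
        rw [norm_zero] at h4
        exact absurd h4 (not_le.mpr (hδ0 k))⟩)
    set F : ℂ → ℝ≥0∞ := fun η => ‖ch N χ (δ k) η • H η + db (ch N χ (δ k)) η • v η‖ₑ with hF
    have hFm : Measurable F :=
      (((hchc k).measurable.smul mH).add ((hchd k).measurable.smul mv)).enorm
    have h2 : ∫⁻ η, ‖η‖ₑ ^ (1 / s - 1) * F η ≤ A + B + M * E k := by
      have hpt : ∀ᵐ η : ℂ, ‖η‖ₑ ^ (1 / s - 1) * F η ≤
          (‖η‖ₑ ^ (1 / s - 1 - N) * (‖χ η‖ₑ * ‖H η‖ₑ) +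
            ‖η‖ₑ ^ (1 / s - 1 - N) * (‖db χ η‖ₑ * ‖v η‖ₑ)) +
            (U k ∩ Metric.ball (0 : ℂ) ρ).indicator
              (fun η => M * (‖η‖ₑ ^ (1 / s - 2 - N) * ‖v η‖ₑ)) η := by
        filter_upwards [Measure.ae_ne volume (0 : ℂ)] with η hη
        have hn0 := enorm_ne_zero' hη
        have hnt := enorm_ne_top' η
        have e1 : ‖ch N χ (δ k) η‖ₑ ≤ ‖η‖ₑ ^ (-(N : ℝ)) * ‖χ η‖ₑ := by
          unfold ch
          rw [enorm_mul, enorm_pow_inv hη, enorm_mul]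
          refine mul_le_mul_right ?_ _
          calc ‖χ η‖ₑ * ‖1 - kp (δ k) η‖ₑ ≤ ‖χ η‖ₑ * 1 := mul_le_mul_right (kp_norm _ _) _
            _ = _ := mul_one _
        have e2 : ‖db (ch N χ (δ k)) η‖ₑ ≤ ‖η‖ₑ ^ (-(N : ℝ)) *
            (‖db χ η‖ₑ + ‖χ η‖ₑ * ‖db (kp (δ k)) η‖ₑ) := by
          rw [ch_db hχ hη, enorm_mul, enorm_pow_inv hη]
          refine mul_le_mul_right ?_ _
          refine enorm_sub_le.trans (add_le_add ?_ ?_)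
          · rw [enorm_mul]
            calc ‖db χ η‖ₑ * ‖1 - kp (δ k) η‖ₑ ≤ ‖db χ η‖ₑ * 1 := mul_le_mul_right (kp_norm _ _) _
              _ = _ := mul_one _
          · rw [enorm_mul]
        have e3 : ‖χ η‖ₑ * ‖db (kp (δ k)) η‖ₑ * ‖v η‖ₑ ≤
            (U k ∩ Metric.ball (0 : ℂ) ρ).indicator (fun η => M * (‖η‖ₑ⁻¹ * ‖v η‖ₑ)) η := by
          by_cases h3 : η ∈ U k ∩ Metric.ball (0 : ℂ) ρ
          · rw [indicator_of_mem h3]
            calc ‖χ η‖ₑ * ‖db (kp (δ k)) η‖ₑ * ‖v η‖ₑ ≤ 1 * (M * ‖η‖ₑ⁻¹) * ‖v η‖ₑ := by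
                  gcongr
                  · exact hχ1 η
                  · exact hM (δ k) (hδ0 k) η hη
              _ = _ := by ring
          · rw [indicator_of_notMem h3]
            by_cases h4 : η ∈ U k
            · have h5 : η ∉ tsupport χ := fun h6 => h3 ⟨h4, hχρ h6⟩
              rw [image_eq_zero_of_notMem_tsupport h5]; simp
            · have h5 : 2 * δ k < ‖η‖ := by
                rw [hU] at h4
                simpa using h4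
              rw [kp_db_zero (hδ0 k) h5]; simp
        have e4 : ‖η‖ₑ ^ (1 / s - 1) * ‖η‖ₑ ^ (-(N : ℝ)) = ‖η‖ₑ ^ (1 / s - 1 - N) := by
          rw [← ENNReal.rpow_add _ _ hn0 hnt]
          congr 1
        have e5 : ‖η‖ₑ ^ (1 / s - 1 - N) * ‖η‖ₑ⁻¹ = ‖η‖ₑ ^ (1 / s - 2 - N) := by
          rw [← ENNReal.rpow_neg_one, ← ENNReal.rpow_add _ _ hn0 hnt]
          congr 1; ring
        calc ‖η‖ₑ ^ (1 / s - 1) * F η ≤ ‖η‖ₑ ^ (1 / s - 1) *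
              (‖ch N χ (δ k) η‖ₑ * ‖H η‖ₑ + ‖db (ch N χ (δ k)) η‖ₑ * ‖v η‖ₑ) := by
              refine mul_le_mul_right ?_ _
              refine (enorm_add_le _ _).trans ?_
              rw [enorm_smul, enorm_smul]
          _ ≤ ‖η‖ₑ ^ (1 / s - 1) * ((‖η‖ₑ ^ (-(N : ℝ)) * ‖χ η‖ₑ) * ‖H η‖ₑ +
              (‖η‖ₑ ^ (-(N : ℝ)) * (‖db χ η‖ₑ + ‖χ η‖ₑ * ‖db (kp (δ k)) η‖ₑ)) * ‖v η‖ₑ) :=
              mul_le_mul_right (add_le_add (mul_le_mul_left e1 _) (mul_le_mul_left e2 _)) _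
          _ = (‖η‖ₑ ^ (1 / s - 1) * ‖η‖ₑ ^ (-(N : ℝ))) * (‖χ η‖ₑ * ‖H η‖ₑ) +
              (‖η‖ₑ ^ (1 / s - 1) * ‖η‖ₑ ^ (-(N : ℝ))) * (‖db χ η‖ₑ * ‖v η‖ₑ) +
              (‖η‖ₑ ^ (1 / s - 1) * ‖η‖ₑ ^ (-(N : ℝ))) *
                (‖χ η‖ₑ * ‖db (kp (δ k)) η‖ₑ * ‖v η‖ₑ) := by ring
          _ ≤ _ := by
              rw [e4]
              refine add_le_add le_rfl ?_
              refine (mul_le_mul_right e3 _).trans (le_of_eq ?_)
              by_cases h3 : η ∈ U k ∩ Metric.ball (0 : ℂ) ρ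
              · rw [indicator_of_mem h3, indicator_of_mem h3, ← e5]; ring
              · rw [indicator_of_notMem h3, indicator_of_notMem h3, mul_zero]
      refine (lintegral_mono_ae hpt).trans (le_of_eq ?_)
      have m1 : Measurable fun η : ℂ => ‖η‖ₑ ^ (1 / s - 1 - N) * (‖χ η‖ₑ * ‖H η‖ₑ) := by
        have := hχcont.measurable
        fun_prop
      have m2 : Measurable fun η : ℂ => ‖η‖ₑ ^ (1 / s - 1 - N) * (‖db χ η‖ₑ * ‖v η‖ₑ) := by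
        have := hdχ.measurable
        fun_prop
      have m12 : Measurable fun η : ℂ => ‖η‖ₑ ^ (1 / s - 1 - N) * (‖χ η‖ₑ * ‖H η‖ₑ) +
          ‖η‖ₑ ^ (1 / s - 1 - N) * (‖db χ η‖ₑ * ‖v η‖ₑ) := m1.add m2
      rw [lintegral_add_left m12, lintegral_add_left m1, lintegral_indicator
        (Metric.isClosed_closedBall.measurableSet.inter Metric.isOpen_ball.measurableSet),
        lintegral_const_mul _ (by fun_prop)]
    calc ∫⁻ ζ, Q k ζ ≤ ∫⁻ ζ, ‖ζ‖ₑ⁻¹ * (∫⁻ η, F η * ‖ζ - η‖ₑ⁻¹) ^ s := by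
          refine lintegral_mono_ae ?_
          filter_upwards [h1] with ζ hζ
          exact mul_le_mul_right (ENNReal.rpow_le_rpow hζ hs0.le) _
      _ ≤ C0 s * (∫⁻ η, ‖η‖ₑ ^ (1 / s - 1) * F η) ^ s := weighted hs1 hFm
      _ ≤ _ := mul_le_mul_right (ENNReal.rpow_le_rpow h2 hs0.le) _
  -- step 2
  have step2 : Tendsto E atTop (𝓝 0) := by
    have h1 := finite_L1 hs1.le S.intv (1 / s - 2 - N)
    have h2 : Tendsto ((volume.restrict (Metric.ball (0 : ℂ) ρ)) ∘ U) atTop (𝓝 0) := by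
      refine tendsto_of_tendsto_of_tendsto_of_le_of_le tendsto_const_nhds
        (vol_closedBall_tendsto 2) (fun _ => bot_le) (fun k => ?_)
      exact Measure.restrict_apply_le _ _
    have h3 := tendsto_setLIntegral_zero h1.ne h2
    refine h3.congr fun k => ?_
    simp only [hE]
    rw [Measure.restrict_restrict Metric.isClosed_closedBall.measurableSet]
  -- step 3
  have step3 : ∀ᵐ ζ : ℂ, ‖ζ‖ₑ ^ (-1 - N * s) * (‖χ ζ‖ₑ * ‖v ζ‖ₑ) ^ s =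
      liminf (fun k => Q k ζ) atTop := by
    filter_upwards [Measure.ae_ne volume (0 : ℂ)] with ζ hζ
    have hn0 := enorm_ne_zero' hζ
    have hnt := enorm_ne_top' ζ
    have h1 : ∀ᶠ k in atTop, 2 * δ k ≤ ‖ζ‖ := by
      have h2 := (tendsto_one_div_add_atTop_nhds_zero_nat (𝕜 := ℝ)).const_mul 2
      rw [mul_zero] at h2
      exact (h2.eventually_lt_const (norm_pos_iff.mpr hζ)).mono fun k hk => hk.le
    have h2 : Tendsto (fun k => Q k ζ) atTop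
        (𝓝 (‖ζ‖ₑ ^ (-1 - N * s) * (‖χ ζ‖ₑ * ‖v ζ‖ₑ) ^ s)) := by
      refine tendsto_const_nhds.congr' ?_
      filter_upwards [h1] with k hk
      simp only [hQ]
      unfold ch
      rw [kp_zero (hδ0 k) hk, sub_zero, mul_one, enorm_smul, enorm_mul, enorm_pow_inv hζ, mul_assoc,
        ENNReal.mul_rpow_of_nonneg (‖ζ‖ₑ ^ (-(N : ℝ))) _ hs0.le, ← ENNReal.rpow_mul, ← mul_assoc]
      congr 1
      rw [← ENNReal.rpow_neg_one, ← ENNReal.rpow_add _ _ hn0 hnt]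
      congr 1; ring
    exact h2.liminf_eq.symm
  rw [lintegral_congr_ae step3]
  refine (lintegral_liminf_le hQm).trans ?_
  have h4 : Tendsto (fun k => C0 s * (A + B + M * E k) ^ s) atTop (𝓝 (C0 s * (A + B) ^ s)) := by
    have h5 : Tendsto (fun k => A + B + M * E k) atTop (𝓝 (A + B)) := by
      have := (ENNReal.Tendsto.const_mul step2 (Or.inr hMt)).const_add (A + B)
      simpa using this
    exact ENNReal.Tendsto.const_mul ((ENNReal.continuous_rpow_const.tendsto _).comp h5)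
      (Or.inr (C0_lt_top hs1 hs2).ne)
  rw [← h4.liminf_eq]
  exact liminf_le_liminf (Eventually.of_forall step1)

end Pool.Agent.X100.SUC
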