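import Mathlib
import Pool.Agent.X100.SUC.Disc2

set_option autoImplicit false

open MeasureTheory Set Filter Topology
open scoped ENNReal

namespace Pool.Agent.X100.SUC

variable {m d : ℕ} {ρ : ℝ} {v H : ℂ → Fin m → ℂ} {V : ℂ → ℝ≥0∞}

/-- the annulus `r₀ ≤ |ζ| ≤ r₀ + 1/(k+1)` -/
def ann (r0 : ℝ) (k : ℕ) : Set ℂ :=
  Metric.closedBall (0 : ℂ) (r0 + 1 / ((k : ℝ) + 1)) \ Metric.ball 0 r0

lemma ann_meas (r0 : ℝ) (k : ℕ) : MeasurableSet (ann r0 k) :=
  Metric.isClosed_closedBall.measurableSet.diff Metric.isOpen_ball.measurableSet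

lemma ann_vol {r0 : ℝ} : Tendsto (fun k => volume (ann r0 k)) atTop (𝓝 0) := by
  have h1 := tendsto_measure_iInter_atTop (μ := (volume : Measure ℂ)) (s := ann r0)
    (fun k => (ann_meas r0 k).nullMeasurableSet) (by
      intro k l hkl
      refine sdiff_subset_sdiff_left (Metric.closedBall_subset_closedBall ?_)
      have : (1 : ℝ) / ((l : ℝ) + 1) ≤ 1 / ((k : ℝ) + 1) := by
        refine one_div_le_one_div_of_le (by positivity) ?_
        have : (k : ℝ) ≤ l := by exact_mod_cast hkl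
        linarith
      linarith) ⟨0, ((measure_mono sdiff_subset).trans_lt measure_closedBall_lt_top).ne⟩
  have h2 : volume (⋂ k, ann r0 k) = 0 := by
    refine measure_mono_null ?_ (Measure.addHaar_sphere (volume : Measure ℂ) 0 r0)
    intro z hz
    rw [mem_iInter] at hz
    rw [mem_sphere_zero_iff_norm]
    refine le_antisymm ?_ ?_
    · have h3 : Tendsto (fun k : ℕ => r0 + 1 / ((k : ℝ) + 1)) atTop (𝓝 (r0 + 0)) :=
        (tendsto_one_div_add_atTop_nhds_zero_nat (𝕜 := ℝ)).const_add r0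
      rw [add_zero] at h3
      refine ge_of_tendsto' h3 fun k => ?_
      have := (hz k).1
      rwa [mem_closedBall_zero_iff] at this
    · have := (hz 0).2
      rwa [mem_ball_zero_iff, not_lt] at this
  rw [h2] at h1
  exact h1

lemma half_cancel {X Y : ℝ≥0∞} (hX : X ≠ ⊤) (h : X ≤ 2⁻¹ * X + Y) : X ≤ 2 * Y := by
  have h1 : X = 2⁻¹ * X + 2⁻¹ * X := by
    rw [← add_mul, ENNReal.inv_two_add_inv_two, one_mul]
  have h2 : 2⁻¹ * X + 2⁻¹ * X ≤ 2⁻¹ * X + Y := h1 ▸ h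
  have h3 : 2⁻¹ * X ≠ ⊤ := ENNReal.mul_ne_top (by simp) hX
  have h4 : 2⁻¹ * X ≤ Y := (ENNReal.add_le_add_iff_left h3).mp h2
  calc X = 2 * (2⁻¹ * X) := by
        rw [← mul_assoc, ENNReal.mul_inv_cancel (by norm_num) (by norm_num), one_mul]
    _ ≤ 2 * Y := mul_le_mul_right h4 _

lemma step (S : Sl m d ρ v H V) (hd : 1 ≤ d) {r0 : ℝ} (h0 : 0 ≤ r0) (hr : r0 < ρ)
    (hz : ∀ᵐ ζ : ℂ, ζ ∈ Metric.ball (0 : ℂ) r0 → v ζ = 0) :
    ∃ r, r0 < r ∧ r ≤ ρ ∧ ∀ᵐ ζ : ℂ, ζ ∈ Metric.ball (0 : ℂ) r → v ζ = 0 := by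
  have hs1 := sg_gt d
  have hs2 := sg_lt hd
  have hconj := sg_conj d
  have mv := S.mv
  have mH := S.mH
  have mV := S.mV
  have hsval : 1 / sg d = (2 * d + 1) / (2 * d + 2) := by unfold sg; rw [one_div_div]
  set s := sg d with hs
  have hs0 : 0 < s := by linarith
  have hC := (C0_lt_top hs1 hs2).ne
  set p : ℝ := 2 * d + 2 with hp
  have hp0 : 0 < p := by positivity
  set W : ℕ → ℝ≥0∞ := fun k => ∫⁻ ζ in ann r0 k ∩ Metric.ball (0 : ℂ) ρ,
    ‖ζ‖ₑ ^ (2 * d : ℝ) * V ζ ^ p with hW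
  have hWlim : Tendsto W atTop (𝓝 0) := by
    have h2 : Tendsto ((volume.restrict (Metric.ball (0 : ℂ) ρ)) ∘ ann r0) atTop (𝓝 0) :=
      tendsto_of_tendsto_of_tendsto_of_le_of_le tendsto_const_nhds
        ann_vol (fun _ => bot_le) (fun k => Measure.restrict_apply_le _ _)
    have h3 := tendsto_setLIntegral_zero S.intV.ne h2
    refine h3.congr fun k => ?_
    simp only [hW]
    rw [Measure.restrict_restrict (ann_meas r0 k)]
  have hlim2 : Tendsto (fun k => C0 s ^ (1 / s) * W k ^ (1 / p)) atTop (𝓝 0) := by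
    have h1 : Tendsto (fun k => W k ^ (1 / p)) atTop (𝓝 0) := by
      have := ((ENNReal.continuous_rpow_const (y := 1 / p)).tendsto 0).comp hWlim
      rw [ENNReal.zero_rpow_of_pos (by positivity)] at this
      exact this
    have h2 := ENNReal.Tendsto.const_mul h1 (a := C0 s ^ (1 / s))
      (Or.inr (ENNReal.rpow_ne_top_of_nonneg (by positivity) hC))
    rwa [mul_zero] at h2
  have hev1 : ∀ᶠ k in atTop, C0 s ^ (1 / s) * W k ^ (1 / p) < 2⁻¹ :=
    hlim2.eventually_lt_const (by simp)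
  have hev2 : ∀ᶠ k : ℕ in atTop, r0 + 1 / ((k : ℝ) + 1) < ρ := by
    have h3 : Tendsto (fun k : ℕ => r0 + 1 / ((k : ℝ) + 1)) atTop (𝓝 (r0 + 0)) :=
      (tendsto_one_div_add_atTop_nhds_zero_nat (𝕜 := ℝ)).const_add r0
    rw [add_zero] at h3
    exact h3.eventually_lt_const hr
  obtain ⟨k, hk1, hk2⟩ := (hev1.and hev2).exists
  set e : ℝ := 1 / ((k : ℝ) + 1) with he
  have he0 : 0 < e := by rw [he]; positivity
  set ra := r0 + e / 2 with hra
  set t := r0 + e / 4 with ht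
  have hra0 : 0 < ra := by rw [hra]; linarith
  have ht0 : 0 < t := by rw [ht]; linarith
  have htra : t < ra := by rw [ht, hra]; linarith
  let χb : ContDiffBump (0 : ℂ) := ⟨ra, r0 + e, hra0, by rw [hra]; linarith⟩
  set χ : ℂ → ℂ := fun ζ => ((χb ζ : ℝ) : ℂ) with hχdef
  have hχ : ContDiff ℝ 1 χ := Complex.ofRealCLM.contDiff.comp χb.contDiff
  have hsupp : tsupport χ ⊆ Metric.closedBall 0 (r0 + e) := by
    refine closure_minimal (fun z hz => ?_) Metric.isClosed_closedBall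
    rw [mem_closedBall_zero_iff]
    by_contra hcon
    push Not at hcon
    refine hz ?_
    simp only [hχdef]
    rw [χb.zero_of_le_dist (by rw [dist_zero_right]; exact hcon.le)]
    simp
  have hχc : HasCompactSupport χ :=
    (isCompact_closedBall (0 : ℂ) (r0 + e)).of_isClosed_subset (isClosed_tsupport _) hsupp
  have hχρ : tsupport χ ⊆ Metric.ball 0 ρ :=
    hsupp.trans (Metric.closedBall_subset_ball hk2)
  have hχ1 : ∀ ζ, ‖χ ζ‖ₑ ≤ 1 := by
    intro ζ
    simp only [hχdef]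
    rw [← ofReal_norm, Complex.norm_real, ← ENNReal.ofReal_one]
    refine ENNReal.ofReal_le_ofReal ?_
    rw [Real.norm_of_nonneg χb.nonneg]
    exact χb.le_one
  have hχone : ∀ ζ : ℂ, ‖ζ‖ ≤ ra → χ ζ = 1 := by
    intro ζ hζ
    simp only [hχdef]
    rw [χb.one_of_mem_closedBall (by rw [mem_closedBall_zero_iff]; exact hζ)]
    simp
  have hdb0 : ∀ ζ : ℂ, ‖ζ‖ < ra → db χ ζ = 0 := by
    intro ζ hζ
    have h1 : χ =ᶠ[𝓝 ζ] fun _ => 1 := by
      filter_upwards [(isOpen_lt continuous_norm continuous_const).mem_nhds hζ] with z hz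
      exact hχone z (le_of_lt hz)
    unfold db
    rw [h1.fderiv_eq]
    simp
  have hdχ := continuous_db hχ
  have hχcont := hχ.continuous
  -- the finite constant B0
  set B0 : ℝ≥0∞ := ∫⁻ η, ‖η‖ₑ ^ (1 / s - 1) * (‖db χ η‖ₑ * ‖v η‖ₑ) with hB0
  have hB0t : B0 ≠ ⊤ := by
    obtain ⟨M, hM⟩ := hχc.exists_bound_of_continuousOn (f := db χ) hdχ.continuousOn
    have h1 : B0 ≤ ENNReal.ofReal M * ∫⁻ η in Metric.ball (0 : ℂ) ρ, ‖η‖ₑ ^ (1 / s - 1) * ‖v η‖ₑ := by
      rw [← lintegral_const_mul _ (by fun_prop),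
        ← lintegral_indicator Metric.isOpen_ball.measurableSet]
      refine lintegral_mono fun η => ?_
      by_cases h : η ∈ tsupport χ
      · rw [indicator_of_mem (hχρ h)]
        have h2 : ‖db χ η‖ₑ ≤ ENNReal.ofReal M := by
          rw [← ofReal_norm]; exact ENNReal.ofReal_le_ofReal (hM η h)
        calc ‖η‖ₑ ^ (1 / s - 1) * (‖db χ η‖ₑ * ‖v η‖ₑ) ≤
              ‖η‖ₑ ^ (1 / s - 1) * (ENNReal.ofReal M * ‖v η‖ₑ) := by gcongr
          _ = _ := by ring
      · rw [db_zero h]; simp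
    refine (h1.trans_lt (ENNReal.mul_lt_top ENNReal.ofReal_lt_top ?_)).ne
    exact finite_L1 hs1.le S.intv _
  set I : ℝ≥0∞ := ∫⁻ ζ in Metric.ball (0 : ℂ) t, ‖ζ‖ₑ ^ (-1 : ℝ) * ‖v ζ‖ₑ ^ s with hI
  -- main inequality
  have key : ∀ N : ℕ, I ^ (1 / s) ≤ (2 * (C0 s ^ (1 / s) * B0)) * ENNReal.ofReal (t / ra) ^ N := by
    intro N
    set P : ℂ → ℝ≥0∞ := fun ζ => ‖ζ‖ₑ ^ (-1 - N * s) * (‖χ ζ‖ₑ * ‖v ζ‖ₑ) ^ s with hP
    have mP : Measurable P := by fun_prop
    set J := ∫⁻ ζ, P ζ with hJ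
    have hJt : J ≠ ⊤ := by
      have h1 : J ≤ ∫⁻ ζ in Metric.ball (0 : ℂ) ρ, ‖ζ‖ₑ ^ (-1 - N * s) * ‖v ζ‖ₑ ^ s := by
        rw [← lintegral_indicator Metric.isOpen_ball.measurableSet]
        refine lintegral_mono fun ζ => ?_
        by_cases h : ζ ∈ tsupport χ
        · rw [indicator_of_mem (hχρ h)]
          simp only [hP]
          refine mul_le_mul_right (ENNReal.rpow_le_rpow ?_ hs0.le) _
          calc ‖χ ζ‖ₑ * ‖v ζ‖ₑ ≤ 1 * ‖v ζ‖ₑ := mul_le_mul_left (hχ1 ζ) _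
            _ = _ := one_mul _
        · simp only [hP]
          rw [image_eq_zero_of_notMem_tsupport h, enorm_zero, zero_mul,
            ENNReal.zero_rpow_of_pos hs0, mul_zero]
          exact bot_le
      exact (h1.trans_lt (S.intv _)).ne
    set A := ∫⁻ η, ‖η‖ₑ ^ (1 / s - 1 - N) * (‖χ η‖ₑ * ‖H η‖ₑ) with hA
    set B := ∫⁻ η, ‖η‖ₑ ^ (1 / s - 1 - N) * (‖db χ η‖ₑ * ‖v η‖ₑ) with hB
    have hmain : J ≤ C0 s * (A + B) ^ s := main_est S hd hχ hχc hχρ hχ1 N
    have hA1 : A ≤ W k ^ (1 / p) * J ^ (1 / s) := by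
      set f : ℂ → ℝ≥0∞ := fun η => ‖η‖ₑ ^ (2 * d / p) * V η with hf
      set g : ℂ → ℝ≥0∞ := fun η => ‖η‖ₑ ^ (-(1 / s) - N) * (‖χ η‖ₑ * ‖v η‖ₑ) with hg
      have mf : Measurable f := by fun_prop
      have mg : Measurable g := by fun_prop
      have h1 : A ≤ ∫⁻ η in ann r0 k ∩ Metric.ball (0 : ℂ) ρ, (f * g) η := by
        rw [← lintegral_indicator ((ann_meas r0 k).inter Metric.isOpen_ball.measurableSet)]
        refine lintegral_mono_ae ?_
        filter_upwards [Measure.ae_ne volume (0 : ℂ), S.ineq, hz] with η hη hi hzη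
        have hn0 := enorm_ne_zero' hη
        have hnt := enorm_ne_top' η
        by_cases h2 : η ∈ tsupport χ
        · have hHv := hi (hχρ h2)
          by_cases h3 : η ∈ Metric.ball (0 : ℂ) r0
          · rw [hzη h3, enorm_zero, mul_zero] at hHv
            have h4 : ‖H η‖ₑ = 0 := le_antisymm hHv bot_le
            rw [h4, mul_zero, mul_zero]
            exact bot_le
          · rw [indicator_of_mem (show η ∈ ann r0 k ∩ Metric.ball (0 : ℂ) ρ from
              ⟨⟨hsupp h2, h3⟩, hχρ h2⟩)]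
            simp only [Pi.mul_apply, hf, hg]
            have h5 : ‖η‖ₑ ^ (2 * d / p) * ‖η‖ₑ ^ (-(1 / s) - N) = ‖η‖ₑ ^ (1 / s - 1 - N) := by
              rw [← ENNReal.rpow_add _ _ hn0 hnt]
              congr 1
              rw [hsval, hp]
              field_simp
              ring
            calc ‖η‖ₑ ^ (1 / s - 1 - N) * (‖χ η‖ₑ * ‖H η‖ₑ) ≤
                  ‖η‖ₑ ^ (1 / s - 1 - N) * (‖χ η‖ₑ * (V η * ‖v η‖ₑ)) := by gcongr
              _ = _ := by rw [← h5]; ring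
        · rw [image_eq_zero_of_notMem_tsupport h2, enorm_zero, zero_mul, mul_zero]
          exact bot_le
      have h2 := ENNReal.lintegral_mul_le_Lp_mul_Lq
        (volume.restrict (ann r0 k ∩ Metric.ball (0 : ℂ) ρ)) hconj mf.aemeasurable mg.aemeasurable
      have h3 : ∫⁻ η in ann r0 k ∩ Metric.ball (0 : ℂ) ρ, f η ^ p = W k := by
        refine lintegral_congr fun η => ?_
        simp only [hf]
        rw [ENNReal.mul_rpow_of_nonneg _ _ hp0.le, ← ENNReal.rpow_mul]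
        congr 2
        field_simp
      have h4 : ∫⁻ η in ann r0 k ∩ Metric.ball (0 : ℂ) ρ, g η ^ s ≤ J := by
        refine (setLIntegral_le_lintegral _ _).trans (le_of_eq ?_)
        refine lintegral_congr fun η => ?_
        simp only [hg, hP]
        rw [ENNReal.mul_rpow_of_nonneg _ _ hs0.le, ← ENNReal.rpow_mul]
        congr 2
        field_simp
      rw [h3] at h2
      exact h1.trans (h2.trans (mul_le_mul_right (ENNReal.rpow_le_rpow h4 (by positivity)) _))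
    have hB1 : B ≤ (ENNReal.ofReal ra ^ N)⁻¹ * B0 := by
      rw [hB, hB0, ← lintegral_const_mul _ (by fun_prop)]
      refine lintegral_mono_ae ?_
      filter_upwards [Measure.ae_ne volume (0 : ℂ)] with η hη
      have hn0 := enorm_ne_zero' hη
      have hnt := enorm_ne_top' η
      by_cases h2 : ‖η‖ < ra
      · rw [hdb0 η h2]; simp
      · push Not at h2
        have h3 : ‖η‖ₑ ^ (1 / s - 1 - N) = (‖η‖ₑ ^ N)⁻¹ * ‖η‖ₑ ^ (1 / s - 1) := by
          rw [← ENNReal.rpow_natCast, ← ENNReal.rpow_neg, ← ENNReal.rpow_add _ _ hn0 hnt]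
          congr 1; ring
        have h4 : ENNReal.ofReal ra ≤ ‖η‖ₑ := by
          rw [← ofReal_norm]; exact ENNReal.ofReal_le_ofReal h2
        rw [h3, mul_assoc]
        exact mul_le_mul_left (ENNReal.inv_le_inv.mpr (pow_le_pow_left' h4 N)) _
    have hX : J ^ (1 / s) ≤ 2⁻¹ * J ^ (1 / s) + C0 s ^ (1 / s) * ((ENNReal.ofReal ra ^ N)⁻¹ * B0) := by
      calc J ^ (1 / s) ≤ (C0 s * (A + B) ^ s) ^ (1 / s) :=
            ENNReal.rpow_le_rpow hmain (by positivity)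
        _ = C0 s ^ (1 / s) * (A + B) := by
            rw [ENNReal.mul_rpow_of_nonneg _ _ (by positivity), ← ENNReal.rpow_mul,
              mul_one_div_cancel hs0.ne', ENNReal.rpow_one]
        _ ≤ C0 s ^ (1 / s) * (W k ^ (1 / p) * J ^ (1 / s) + (ENNReal.ofReal ra ^ N)⁻¹ * B0) :=
            mul_le_mul_right (add_le_add hA1 hB1) _
        _ = (C0 s ^ (1 / s) * W k ^ (1 / p)) * J ^ (1 / s) +
            C0 s ^ (1 / s) * ((ENNReal.ofReal ra ^ N)⁻¹ * B0) := by ring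
        _ ≤ _ := add_le_add (mul_le_mul_left hk1.le _) le_rfl
    have hX2 := half_cancel (ENNReal.rpow_ne_top_of_nonneg (by positivity) hJt) hX
    -- lower bound
    have hlow : (ENNReal.ofReal t ^ N)⁻¹ * I ^ (1 / s) ≤ J ^ (1 / s) := by
      have h1 : (ENNReal.ofReal t ^ N)⁻¹ ^ s * I ≤ J := by
        rw [hI, ← lintegral_const_mul _ (by fun_prop),
          ← lintegral_indicator Metric.isOpen_ball.measurableSet]
        refine lintegral_mono_ae ?_
        filter_upwards [Measure.ae_ne volume (0 : ℂ)] with ζ hζ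
        have hn0 := enorm_ne_zero' hζ
        have hnt := enorm_ne_top' ζ
        by_cases h2 : ζ ∈ Metric.ball (0 : ℂ) t
        · rw [indicator_of_mem h2]
          rw [mem_ball_zero_iff] at h2
          simp only [hP]
          rw [hχone ζ (h2.le.trans htra.le), enorm_one, one_mul]
          have h3 : ‖ζ‖ₑ ^ (-1 - N * s) = (‖ζ‖ₑ ^ N)⁻¹ ^ s * ‖ζ‖ₑ ^ (-1 : ℝ) := by
            rw [← ENNReal.rpow_natCast, ← ENNReal.rpow_neg, ← ENNReal.rpow_mul,
              ← ENNReal.rpow_add _ _ hn0 hnt]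
            congr 1; ring
          have h4 : ‖ζ‖ₑ ≤ ENNReal.ofReal t := by
            rw [← ofReal_norm]; exact ENNReal.ofReal_le_ofReal h2.le
          rw [h3, mul_assoc]
          exact mul_le_mul_left (ENNReal.rpow_le_rpow (ENNReal.inv_le_inv.mpr
            (pow_le_pow_left' h4 N)) hs0.le) _
        · rw [indicator_of_notMem h2]; exact bot_le
      calc (ENNReal.ofReal t ^ N)⁻¹ * I ^ (1 / s) = ((ENNReal.ofReal t ^ N)⁻¹ ^ s * I) ^ (1 / s) := by
            rw [ENNReal.mul_rpow_of_nonneg _ _ (by positivity), ← ENNReal.rpow_mul,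
              mul_one_div_cancel hs0.ne', ENNReal.rpow_one]
        _ ≤ _ := ENNReal.rpow_le_rpow h1 (by positivity)
    have ht1 : ENNReal.ofReal t ^ N ≠ 0 := pow_ne_zero _ (by simpa using ht0)
    have ht2 : ENNReal.ofReal t ^ N ≠ ⊤ := ENNReal.pow_ne_top ENNReal.ofReal_ne_top
    calc I ^ (1 / s) = ENNReal.ofReal t ^ N * ((ENNReal.ofReal t ^ N)⁻¹ * I ^ (1 / s)) := by
          rw [← mul_assoc, ENNReal.mul_inv_cancel ht1 ht2, one_mul]
      _ ≤ ENNReal.ofReal t ^ N * (2 * (C0 s ^ (1 / s) * ((ENNReal.ofReal ra ^ N)⁻¹ * B0))) :=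
          mul_le_mul_right (hlow.trans hX2) _
      _ = (2 * (C0 s ^ (1 / s) * B0)) * (ENNReal.ofReal t ^ N * (ENNReal.ofReal ra ^ N)⁻¹) := by ring
      _ = _ := by
          congr 1
          rw [ENNReal.ofReal_div_of_pos hra0, ENNReal.div_eq_inv_mul, mul_pow, ENNReal.inv_pow,
            mul_comm]
  have hI0 : I ^ (1 / s) = 0 := by
    have h1 : Tendsto (fun N : ℕ => (2 * (C0 s ^ (1 / s) * B0)) * ENNReal.ofReal (t / ra) ^ N) atTop
        (𝓝 0) := by
      have h2 : Tendsto (fun N : ℕ => ENNReal.ofReal (t / ra) ^ N) atTop (𝓝 0) := by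
        refine ENNReal.tendsto_pow_atTop_nhds_zero_of_lt_one ?_
        rw [← ENNReal.ofReal_one, ENNReal.ofReal_lt_ofReal_iff one_pos, div_lt_one hra0]
        exact htra
      have h3 := ENNReal.Tendsto.const_mul h2 (a := 2 * (C0 s ^ (1 / s) * B0))
        (Or.inr (ENNReal.mul_ne_top (by norm_num) (ENNReal.mul_ne_top
          (ENNReal.rpow_ne_top_of_nonneg (by positivity) hC) hB0t)))
      rwa [mul_zero] at h3
    exact le_antisymm (ge_of_tendsto' h1 key) bot_le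
  have hI1 : I = 0 := by
    rwa [ENNReal.rpow_eq_zero_iff_of_pos (by positivity)] at hI0
  refine ⟨t, by rw [ht]; linarith, ?_, ?_⟩
  · rw [ht]
    linarith
  · rw [hI, lintegral_eq_zero_iff (by fun_prop)] at hI1
    have h1 : ∀ᵐ ζ ∂(volume.restrict (Metric.ball (0 : ℂ) t)), v ζ = 0 := by
      filter_upwards [hI1] with ζ hζ
      have hζ' : ‖ζ‖ₑ ^ (-1 : ℝ) * ‖v ζ‖ₑ ^ s = 0 := hζ
      rcases mul_eq_zero.mp hζ' with h2 | h2
      · exfalso
        rw [ENNReal.rpow_eq_zero_iff] at h2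
        rcases h2 with ⟨_, h3⟩ | ⟨h3, _⟩
        · linarith
        · exact enorm_ne_top' ζ h3
      · rw [ENNReal.rpow_eq_zero_iff_of_pos hs0] at h2
        simpa using h2
    exact (ae_restrict_iff' Metric.isOpen_ball.measurableSet).1 h1

theorem ucp_disc (S : Sl m d ρ v H V) (hd : 1 ≤ d) :
    ∀ᵐ ζ : ℂ, ζ ∈ Metric.ball (0 : ℂ) ρ → v ζ = 0 := by
  rcases le_or_gt ρ 0 with hρ | hρ
  · refine ae_of_all _ fun ζ hζ => ?_
    rw [Metric.ball_eq_empty.mpr hρ] at hζ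
    exact absurd hζ (notMem_empty _)
  set T : Set ℝ := {r | 0 ≤ r ∧ r ≤ ρ ∧ ∀ᵐ ζ : ℂ, ζ ∈ Metric.ball (0 : ℂ) r → v ζ = 0} with hT
  have h0T : (0 : ℝ) ∈ T := by
    refine ⟨le_rfl, hρ.le, ae_of_all _ fun ζ hζ => ?_⟩
    rw [Metric.ball_zero] at hζ
    exact absurd hζ (notMem_empty _)
  have hbdd : BddAbove T := ⟨ρ, fun r hr => hr.2.1⟩
  set r0 := sSup T with hr0
  have hr0T : r0 ∈ T := by
    refine ⟨le_csSup hbdd h0T, csSup_le ⟨0, h0T⟩ fun r hr => hr.2.1, ?_⟩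
    have h1 : ∀ k : ℕ, ∀ᵐ ζ : ℂ, ζ ∈ Metric.ball (0 : ℂ) (r0 - 1 / ((k : ℝ) + 1)) → v ζ = 0 := by
      intro k
      have h2 : r0 - 1 / ((k : ℝ) + 1) < r0 := by
        have : (0 : ℝ) < 1 / ((k : ℝ) + 1) := by positivity
        linarith
      obtain ⟨r, hr, hr2⟩ := exists_lt_of_lt_csSup ⟨0, h0T⟩ h2
      filter_upwards [hr.2.2] with ζ hζ hζ2
      exact hζ (Metric.ball_subset_ball hr2.le hζ2)
    filter_upwards [ae_all_iff.mpr h1] with ζ hζ hζ2
    rw [mem_ball_zero_iff] at hζ2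
    have h3 : Tendsto (fun k : ℕ => r0 - 1 / ((k : ℝ) + 1)) atTop (𝓝 (r0 - 0)) :=
      (tendsto_one_div_add_atTop_nhds_zero_nat (𝕜 := ℝ)).const_sub r0
    rw [sub_zero] at h3
    obtain ⟨k, hk⟩ := (h3.eventually_const_lt hζ2).exists
    exact hζ k (by rw [mem_ball_zero_iff]; exact hk)
  have hr0ρ : r0 = ρ := by
    by_contra hne
    have hlt : r0 < ρ := lt_of_le_of_ne hr0T.2.1 hne
    obtain ⟨r, hr1, hr2, hr3⟩ := step S hd hr0T.1 hlt hr0T.2.2
    have : r ∈ T := ⟨hr0T.1.trans hr1.le, hr2, hr3⟩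
    exact absurd (le_csSup hbdd this) (not_le.mpr hr1)
  rw [← hr0ρ]
  exact hr0T.2.2

end Pool.Agent.X100.SUC
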