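import Mathlib

set_option autoImplicit false

open MeasureTheory Set Filter Topology
open scoped ENNReal ContDiff Convolution

namespace Pool.Agent.X100.SUC

variable {n : ℕ}

/-- translations are continuous in `L^1` -/
lemma transl_cont (g : (Fin n → ℂ) → ℂ) (hg : Integrable g) (η : ℝ≥0∞) (hη : 0 < η) :
    ∃ ε : ℝ, 0 < ε ∧ ∀ t : Fin n → ℂ, ‖t‖ < ε → ∫⁻ z, ‖g (z - t) - g z‖ₑ ≤ η := by
  have hg1 : MemLp g 1 volume := memLp_one_iff_integrable.mpr hg
  have : Fact ((1 : ℝ≥0∞) ≤ 1) := ⟨le_rfl⟩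
  let G : (Fin n → ℂ) → C(Fin n → ℂ, Fin n → ℂ) := fun t => ⟨fun z => z - t, by fun_prop⟩
  have hG : Continuous G := ContinuousMap.continuous_of_continuous_uncurry _ (by
    show Continuous fun p : (Fin n → ℂ) × (Fin n → ℂ) => p.2 - p.1
    fun_prop)
  have hmp : ∀ t, MeasurePreserving (G t) volume volume := fun t =>
    measurePreserving_sub_right volume t
  have hc : Continuous fun t => Lp.compMeasurePreserving (G t) (hmp t) (hg1.toLp g) :=
    Continuous.compMeasurePreservingLp continuous_const hG hmp (by norm_num)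
  have h0 := hc.tendsto 0
  rw [EMetric.tendsto_nhds] at h0
  have h1 := h0 η hη
  rw [Metric.eventually_nhds_iff] at h1
  obtain ⟨ε, hε, h2⟩ := h1
  refine ⟨ε, hε, fun t ht => ?_⟩
  have h3 := h2 (y := t) (by simpa [dist_eq_norm] using ht)
  rw [Lp.edist_def] at h3
  have hcoe : ∀ s : Fin n → ℂ, (Lp.compMeasurePreserving (G s) (hmp s) (hg1.toLp g) : (Fin n → ℂ) → ℂ)
      =ᵐ[volume] fun z => g (z - s) := by
    intro s
    have e1 := Lp.coeFn_compMeasurePreserving (hg1.toLp g) (hmp s)
    have e2 : (fun z => (hg1.toLp g : (Fin n → ℂ) → ℂ) (G s z)) =ᵐ[volume] fun z => g (G s z) :=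
      (hmp s).quasiMeasurePreserving.ae_eq_comp hg1.coeFn_toLp
    exact e1.trans e2
  have h4 : eLpNorm (fun z => g (z - t) - g z) 1 volume =
      eLpNorm ((Lp.compMeasurePreserving (G t) (hmp t) (hg1.toLp g) : (Fin n → ℂ) → ℂ) -
        (Lp.compMeasurePreserving (G 0) (hmp 0) (hg1.toLp g) : (Fin n → ℂ) → ℂ)) 1 volume := by
    apply eLpNorm_congr_ae
    filter_upwards [hcoe t, hcoe 0] with z h5 h6
    rw [Pi.sub_apply, h5, h6, sub_zero]
  rw [← eLpNorm_one_eq_lintegral_enorm, h4]
  exact h3.le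

/-- the bumps -/
noncomputable def bX (n k : ℕ) : ContDiffBump (0 : Fin n → ℂ) :=
  ⟨1 / (2 * ((k : ℝ) + 1)), 1 / ((k : ℝ) + 1), by positivity, by
    refine one_div_lt_one_div_of_lt (by positivity) ?_
    have : (0 : ℝ) < (k : ℝ) + 1 := by positivity
    linarith⟩

/-- the mollifiers -/
noncomputable def ph (n k : ℕ) (z : Fin n → ℂ) : ℂ := (((bX n k).normed volume z : ℝ) : ℂ)

lemma ph_contDiff (k : ℕ) : ContDiff ℝ ∞ (ph n k) :=
  Complex.ofRealCLM.contDiff.comp (bX n k).contDiff_normed

lemma ph_zero {k : ℕ} {z : Fin n → ℂ} (h : 1 / ((k : ℝ) + 1) ≤ ‖z‖) : ph n k z = 0 := by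
  unfold ph
  have h1 : z ∉ Function.support ((bX n k).normed volume) := by
    rw [(bX n k).support_normed_eq, mem_ball_zero_iff]
    exact not_lt.mpr h
  rw [Function.notMem_support] at h1
  rw [h1]; simp

lemma ph_tsupport (k : ℕ) : tsupport (ph n k) ⊆ Metric.closedBall 0 (1 / ((k : ℝ) + 1)) := by
  refine closure_minimal (fun z hz => ?_) Metric.isClosed_closedBall
  rw [mem_closedBall_zero_iff]
  by_contra hcon
  push Not at hcon
  exact hz (ph_zero hcon.le)

lemma ph_compact (k : ℕ) : HasCompactSupport (ph n k) :=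
  (isCompact_closedBall (0 : Fin n → ℂ) (1 / ((k : ℝ) + 1))).of_isClosed_subset
    (isClosed_tsupport _) (ph_tsupport k)

lemma ph_integral (k : ℕ) : ∫ z, ph n k z = 1 := by
  unfold ph
  rw [integral_complex_ofReal, (bX n k).integral_normed]
  simp

lemma ph_lintegral (k : ℕ) : ∫⁻ z, ‖ph n k z‖ₑ = 1 := by
  have h1 : Integrable (ph n k) :=
    (ph_contDiff k).continuous.integrable_of_hasCompactSupport (ph_compact k)
  rw [← ofReal_integral_norm_eq_lintegral_enorm h1]
  have h2 : ∫ z, ‖ph n k z‖ = 1 := by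
    rw [← (bX n k).integral_normed (μ := volume)]
    refine integral_congr_ae (ae_of_all _ fun z => ?_)
    show ‖ph n k z‖ = _
    unfold ph
    rw [Complex.norm_real]
    exact Real.norm_of_nonneg ((bX n k).nonneg_normed z)
  rw [h2, ENNReal.ofReal_one]

/-- mollification -/
noncomputable def ml (n k : ℕ) (g : (Fin n → ℂ) → ℂ) : (Fin n → ℂ) → ℂ :=
  g ⋆[ContinuousLinearMap.mul ℝ ℂ, volume] ph n k

lemma ml_apply (k : ℕ) (g : (Fin n → ℂ) → ℂ) (z : Fin n → ℂ) :
    ml n k g z = ∫ t, g t * ph n k (z - t) := rfl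

lemma ml_apply' (k : ℕ) (g : (Fin n → ℂ) → ℂ) (z : Fin n → ℂ) :
    ml n k g z = ∫ t, g (z - t) * ph n k t := by
  unfold ml
  rw [convolution_eq_swap]
  rfl

lemma ml_contDiff (k : ℕ) {g : (Fin n → ℂ) → ℂ} (hg : LocallyIntegrable g) :
    ContDiff ℝ ∞ (ml n k g) :=
  (ph_compact k).contDiff_convolution_right _ hg (ph_contDiff k)

lemma ml_fderiv (k : ℕ) {g : (Fin n → ℂ) → ℂ} (hg : LocallyIntegrable g) (z w : Fin n → ℂ) :
    fderiv ℝ (ml n k g) z w = ∫ t, g t * fderiv ℝ (ph n k) (z - t) w := by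
  have h1 := (ph_compact k).hasFDerivAt_convolution_right (ContinuousLinearMap.mul ℝ ℂ) hg
    ((ph_contDiff k).of_le (by simp)) z
  unfold ml
  rw [h1.fderiv, convolution_precompR_apply (ContinuousLinearMap.mul ℝ ℂ) hg
    ((ph_compact k).fderiv ℝ) ((ph_contDiff k).continuous_fderiv (by simp))]
  rfl

lemma ml_tendsto {g : (Fin n → ℂ) → ℂ} (hgm : Measurable g) (hg : Integrable g) :
    Tendsto (fun k => ∫⁻ z, ‖ml n k g z - g z‖ₑ) atTop (𝓝 0) := by
  rw [ENNReal.tendsto_atTop_zero]
  intro η hη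
  obtain ⟨ε, hε, h⟩ := transl_cont g hg η hη
  obtain ⟨K, hK⟩ := exists_nat_one_div_lt hε
  refine ⟨K, fun k hk => ?_⟩
  have hkε : 1 / ((k : ℝ) + 1) < ε := by
    refine lt_of_le_of_lt ?_ hK
    refine one_div_le_one_div_of_le (by positivity) ?_
    have : (K : ℝ) ≤ k := by exact_mod_cast hk
    linarith
  have hphc : Continuous (ph n k) := (ph_contDiff k).continuous
  have hphi : Integrable (ph n k) := hphc.integrable_of_hasCompactSupport (ph_compact k)
  have hpt : ∀ z, ‖ml n k g z - g z‖ₑ ≤ ∫⁻ t, ‖g (z - t) - g z‖ₑ * ‖ph n k t‖ₑ := by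
    intro z
    have hi1 : Integrable fun t => g (z - t) * ph n k t := by
      have h1 := (ph_compact (n := n) k).convolutionExists_right (ContinuousLinearMap.mul ℝ ℂ)
        hg.locallyIntegrable hphc z
      have h2 := h1.integrable_swap
      exact h2
    have hi2 : Integrable fun t => g z * ph n k t := hphi.const_mul _
    have e1 : ml n k g z - g z = ∫ t, (g (z - t) - g z) * ph n k t := by
      have e2 : ∫ t, g z * ph n k t = g z := by
        rw [integral_const_mul, ph_integral, mul_one]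
      calc ml n k g z - g z = (∫ t, g (z - t) * ph n k t) - ∫ t, g z * ph n k t := by
            rw [e2, ml_apply']
        _ = ∫ t, (g (z - t) * ph n k t - g z * ph n k t) := (integral_sub hi1 hi2).symm
        _ = _ := by
            refine integral_congr_ae (ae_of_all _ fun t => ?_)
            show g (z - t) * ph n k t - g z * ph n k t = (g (z - t) - g z) * ph n k t
            ring
    rw [e1]
    refine (enorm_integral_le_lintegral_enorm _).trans (le_of_eq ?_)
    refine lintegral_congr fun t => ?_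
    rw [enorm_mul]
  have hmm : Measurable fun p : (Fin n → ℂ) × (Fin n → ℂ) =>
      ‖g (p.1 - p.2) - g p.1‖ₑ * ‖ph n k p.2‖ₑ :=
    (((hgm.comp (measurable_fst.sub measurable_snd)).sub (hgm.comp measurable_fst)).enorm).mul
      ((hphc.measurable.comp measurable_snd).enorm)
  calc ∫⁻ z, ‖ml n k g z - g z‖ₑ ≤ ∫⁻ z, ∫⁻ t, ‖g (z - t) - g z‖ₑ * ‖ph n k t‖ₑ :=
        lintegral_mono hpt
    _ = ∫⁻ t, ∫⁻ z, ‖g (z - t) - g z‖ₑ * ‖ph n k t‖ₑ :=
        lintegral_lintegral_swap hmm.aemeasurable
    _ ≤ ∫⁻ t, η * ‖ph n k t‖ₑ := by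
        refine lintegral_mono fun t => ?_
        have hmt : Measurable fun z => ‖g (z - t) - g z‖ₑ :=
          ((hgm.comp (measurable_id.sub_const t)).sub hgm).enorm
        show ∫⁻ z, ‖g (z - t) - g z‖ₑ * ‖ph n k t‖ₑ ≤ η * ‖ph n k t‖ₑ
        rw [lintegral_mul_const _ hmt]
        by_cases ht : ph n k t = 0
        · rw [ht]; simp
        · refine mul_le_mul_left (h t ?_) _
          by_contra hcon
          push Not at hcon
          exact ht (ph_zero (hkε.le.trans hcon))
    _ = η := by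
        rw [lintegral_const_mul _ (by fun_prop), ph_lintegral, mul_one]

/-- Wirtinger derivative `∂/∂z̄_j` -/
noncomputable def dbar (j : Fin n) (φ : (Fin n → ℂ) → ℂ) (z : Fin n → ℂ) : ℂ :=
  (1 / 2) * (fderiv ℝ φ z (Pi.single j 1) + Complex.I * fderiv ℝ φ z (Pi.single j Complex.I))

lemma int_conv {g : (Fin n → ℂ) → ℂ} (hg : Integrable g) {f : (Fin n → ℂ) → ℂ}
    (hf : Continuous f) (hfc : HasCompactSupport f) (z : Fin n → ℂ) :
    Integrable fun t => g t * f (z - t) :=
  hfc.convolutionExists_right (ContinuousLinearMap.mul ℝ ℂ) hg.locallyIntegrable hf z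

lemma ml_dbar (k : ℕ) {g : (Fin n → ℂ) → ℂ} (hg : Integrable g) (j : Fin n) (z : Fin n → ℂ) :
    dbar j (ml n k g) z = ∫ t, g t * dbar j (ph n k) (z - t) := by
  have hD : Continuous (fderiv ℝ (ph n k)) := (ph_contDiff k).continuous_fderiv (by simp)
  have hc : ∀ w, Continuous fun z => fderiv ℝ (ph n k) z w := fun w =>
    hD.clm_apply continuous_const
  have hs : ∀ w, HasCompactSupport fun z => fderiv ℝ (ph n k) z w := fun w =>
    (ph_compact k).fderiv_apply ℝ w
  unfold dbar
  rw [ml_fderiv k hg.locallyIntegrable, ml_fderiv k hg.locallyIntegrable, ← integral_const_mul,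
    ← integral_add (int_conv hg (hc _) (hs _) z) ((int_conv hg (hc _) (hs _) z).const_mul _),
    ← integral_const_mul]
  refine integral_congr_ae (ae_of_all _ fun t => ?_)
  show (1 / 2 : ℂ) * (g t * _ + Complex.I * (g t * _)) = g t * ((1 / 2) * (_ + Complex.I * _))
  ring

/-- the test function `y ↦ φ(z - y)` -/
lemma dbar_reflect (k : ℕ) (j : Fin n) (z y : Fin n → ℂ) :
    dbar j (fun y => ph n k (z - y)) y = - dbar j (ph n k) (z - y) := by
  have h1 : HasFDerivAt (ph n k) (fderiv ℝ (ph n k) (z - y)) (z - y) :=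
    ((ph_contDiff k).differentiable (by simp) _).hasFDerivAt
  have h2 : HasFDerivAt (fun y : Fin n → ℂ => z - y) (-ContinuousLinearMap.id ℝ (Fin n → ℂ)) y := by
    simpa using (hasFDerivAt_id (𝕜 := ℝ) y).const_sub z
  have h3 : HasFDerivAt (fun y => ph n k (z - y))
      ((fderiv ℝ (ph n k) (z - y)).comp (-ContinuousLinearMap.id ℝ (Fin n → ℂ))) y := h1.comp y h2
  have h4 : ∀ w, (fderiv ℝ (ph n k) (z - y)).comp (-ContinuousLinearMap.id ℝ (Fin n → ℂ)) w =
      - fderiv ℝ (ph n k) (z - y) w := by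
    intro w
    rw [ContinuousLinearMap.comp_apply, ← map_neg]
    rfl
  unfold dbar
  rw [h3.fderiv, h4, h4]
  ring

/-- the mollification of the extension by zero: the `∂̄` derivative -/
lemma ml_weak {z0 : Fin n → ℂ} {r : ℝ} {u h : (Fin n → ℂ) → ℂ}
    (hu : IntegrableOn u (Metric.closedBall z0 r)) (j : Fin n)
    (hw : ∀ φ : (Fin n → ℂ) → ℂ, ContDiff ℝ ∞ φ → HasCompactSupport φ →
      tsupport φ ⊆ Metric.ball z0 r → ∫ z, u z * dbar j φ z = - ∫ z, h z * φ z)
    {k : ℕ} {r' : ℝ} (hk : 1 / ((k : ℝ) + 1) < r - r') {z : Fin n → ℂ}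
    (hz : z ∈ Metric.closedBall z0 r') :
    dbar j (ml n k ((Metric.closedBall z0 r).indicator u)) z =
      ml n k ((Metric.closedBall z0 r).indicator h) z := by
  have hP : MeasurableSet (Metric.closedBall z0 r) := Metric.isClosed_closedBall.measurableSet
  have hsub : ∀ y, y ∉ Metric.ball z0 r → 1 / ((k : ℝ) + 1) < ‖z - y‖ := by
    intro y hy
    rw [Metric.mem_ball, not_lt, dist_eq_norm] at hy
    rw [Metric.mem_closedBall, dist_eq_norm] at hz
    have h1 : ‖y - z0‖ ≤ ‖z - y‖ + ‖z - z0‖ := by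
      have : y - z0 = -(z - y) + (z - z0) := by abel
      rw [this]
      exact (norm_add_le _ _).trans (by rw [norm_neg])
    linarith
  have hts : tsupport (fun y => ph n k (z - y)) ⊆ Metric.ball z0 r := by
    have h1 : tsupport (fun y => ph n k (z - y)) ⊆ Metric.closedBall z (1 / ((k : ℝ) + 1)) := by
      refine closure_minimal (fun y hy => ?_) Metric.isClosed_closedBall
      rw [Metric.mem_closedBall, dist_comm, dist_eq_norm]
      by_contra hcon
      push Not at hcon
      exact hy (ph_zero hcon.le)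
    intro y hy
    by_contra hcon
    have h2 := hsub y hcon
    have h3 := h1 hy
    rw [Metric.mem_closedBall, dist_comm, dist_eq_norm] at h3
    linarith
  have hcs : HasCompactSupport (fun y => ph n k (z - y)) := by
    refine HasCompactSupport.of_support_subset_isCompact
      (isCompact_closedBall z (1 / ((k : ℝ) + 1))) ?_
    intro y hy
    rw [Metric.mem_closedBall, dist_comm, dist_eq_norm]
    by_contra hcon
    push Not at hcon
    exact hy (ph_zero hcon.le)
  have h1 := hw (fun y => ph n k (z - y)) ((ph_contDiff k).comp (contDiff_const.sub contDiff_id))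
    hcs hts
  simp_rw [dbar_reflect] at h1
  rw [ml_dbar k ((integrable_indicator_iff hP).mpr hu), ml_apply]
  have e1 : ∫ t, (Metric.closedBall z0 r).indicator u t * dbar j (ph n k) (z - t) =
      ∫ t, u t * dbar j (ph n k) (z - t) := by
    refine integral_congr_ae (ae_of_all _ fun t => ?_)
    show (Metric.closedBall z0 r).indicator u t * dbar j (ph n k) (z - t) =
      u t * dbar j (ph n k) (z - t)
    by_cases ht : t ∈ Metric.closedBall z0 r
    · rw [indicator_of_mem ht]
    · have h2 := hsub t (fun h3 => ht (Metric.ball_subset_closedBall h3))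
      have h3 : z - t ∉ tsupport (ph n k) := by
        intro h4
        have h5 := ph_tsupport k h4
        rw [mem_closedBall_zero_iff] at h5
        linarith
      have h6 : dbar j (ph n k) (z - t) = 0 := by
        unfold dbar
        rw [fderiv_of_notMem_tsupport ℝ h3]
        simp
      rw [h6, mul_zero, mul_zero]
  have e2 : ∫ t, (Metric.closedBall z0 r).indicator h t * ph n k (z - t) =
      ∫ t, h t * ph n k (z - t) := by
    refine integral_congr_ae (ae_of_all _ fun t => ?_)
    show (Metric.closedBall z0 r).indicator h t * ph n k (z - t) = h t * ph n k (z - t)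
    by_cases ht : t ∈ Metric.closedBall z0 r
    · rw [indicator_of_mem ht]
    · have h2 := hsub t (fun h3 => ht (Metric.ball_subset_closedBall h3))
      rw [ph_zero h2.le, mul_zero, mul_zero]
  rw [e1, e2]
  have h2 : ∫ z_1, u z_1 * -dbar j (ph n k) (z - z_1) = -∫ t, u t * dbar j (ph n k) (z - t) := by
    rw [← integral_neg]
    refine integral_congr_ae (ae_of_all _ fun t => ?_)
    show u t * -dbar j (ph n k) (z - t) = -(u t * dbar j (ph n k) (z - t))
    ring
  rw [h2] at h1
  exact neg_injective h1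

end Pool.Agent.X100.SUC
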