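import Mathlib
import Pool.Agent.X100.SUC.Disc3
import Pool.Agent.X100.SUC.Moll

set_option autoImplicit false

open MeasureTheory Set Filter Topology
open scoped ENNReal ContDiff

namespace Pool.Agent.X100.SUC

variable {d m : ℕ}

/-- the direction vector of a complex line -/
def ee (s : Fin d → ℂ) : Fin (d + 1) → ℂ := Fin.cons 1 s

/-- the complex line through `z0` -/
def ln (z0 : Fin (d + 1) → ℂ) (s : Fin d → ℂ) (ζ : ℂ) : Fin (d + 1) → ℂ := z0 + ζ • ee s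

lemma cons_smul (ζ : ℂ) (s : Fin d → ℂ) : (Fin.cons ζ (ζ • s) : Fin (d + 1) → ℂ) = ζ • ee s := by
  funext i
  refine Fin.cases ?_ (fun j => ?_) i
  · simp [ee]
  · simp [ee]

lemma measurable_ee : Measurable (ee (d := d)) := by
  refine measurable_pi_lambda _ fun i => ?_
  refine Fin.cases ?_ (fun j => ?_) i
  · simp only [ee, Fin.cons_zero]; exact measurable_const
  · simp only [ee, Fin.cons_succ]; exact measurable_pi_apply j

lemma measurable_ln (z0 : Fin (d + 1) → ℂ) :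
    Measurable (fun p : ℂ × (Fin d → ℂ) => ln z0 p.2 p.1) := by
  unfold ln
  have h := measurable_ee.comp (measurable_snd : Measurable (Prod.snd : ℂ × (Fin d → ℂ) → _))
  exact measurable_const.add (measurable_fst.smul h)

lemma continuous_ln (z0 : Fin (d + 1) → ℂ) (s : Fin d → ℂ) : Continuous (ln z0 s) := by
  unfold ln
  fun_prop

lemma ln_sub (z0 : Fin (d + 1) → ℂ) (s : Fin d → ℂ) (ζ : ℂ) : ln z0 s ζ - z0 = ζ • ee s := by
  unfold ln; abel

lemma polar (z0 : Fin (d + 1) → ℂ) {f : (Fin (d + 1) → ℂ) → ℝ≥0∞} (hf : Measurable f) :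
    ∫⁻ z, f z = ∫⁻ s : Fin d → ℂ, ∫⁻ ζ : ℂ, ‖ζ‖ₑ ^ (2 * d) * f (ln z0 s ζ) := by
  have hmp := (volume_preserving_piFinSuccAbove (fun _ : Fin (d + 1) => ℂ) 0).symm
  have hcons : ∀ p : ℂ × (Fin d → ℂ),
      (MeasurableEquiv.piFinSuccAbove (fun _ : Fin (d + 1) => ℂ) 0).symm p =
        (Fin.cons p.1 p.2 : Fin (d + 1) → ℂ) := by
    intro p
    show (Fin.insertNth (α := fun _ : Fin (d + 1) => ℂ) 0 p.1 p.2) = _
    rw [Fin.insertNth_zero]
    rfl
  have hf' : Measurable fun z => f (z0 + z) := hf.comp (measurable_const_add z0)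
  have hcm : Measurable fun p : ℂ × (Fin d → ℂ) => f (z0 + (Fin.cons p.1 p.2 : Fin (d + 1) → ℂ)) := by
    have h1 := hf'.comp (MeasurableEquiv.piFinSuccAbove (fun _ : Fin (d + 1) => ℂ) 0).symm.measurable
    have h2 : (fun p : ℂ × (Fin d → ℂ) => f (z0 + (Fin.cons p.1 p.2 : Fin (d + 1) → ℂ))) =
        (fun z => f (z0 + z)) ∘
          ⇑(MeasurableEquiv.piFinSuccAbove (fun _ : Fin (d + 1) => ℂ) 0).symm := by
      funext p
      simp only [Function.comp]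
      rw [hcons]
    rw [h2]
    exact h1
  calc ∫⁻ z, f z = ∫⁻ z, f (z0 + z) := (lintegral_add_left_eq_self _ z0).symm
    _ = ∫⁻ p : ℂ × (Fin d → ℂ), f (z0 + (Fin.cons p.1 p.2 : Fin (d + 1) → ℂ))
          ∂((volume : Measure ℂ).prod (volume : Measure (Fin d → ℂ))) := by
        rw [← hmp.lintegral_comp hf']
        refine lintegral_congr fun p => ?_
        rw [hcons]
    _ = ∫⁻ ζ : ℂ, ∫⁻ w : Fin d → ℂ, f (z0 + (Fin.cons ζ w : Fin (d + 1) → ℂ)) :=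
        lintegral_prod _ hcm.aemeasurable
    _ = ∫⁻ ζ : ℂ, ∫⁻ s : Fin d → ℂ, ‖ζ‖ₑ ^ (2 * d) * f (ln z0 s ζ) := by
        refine lintegral_congr_ae ?_
        filter_upwards [Measure.ae_ne volume (0 : ℂ)] with ζ hζ
        have h1 := lint_smul (V := Fin d → ℂ) volume hζ
          (fun w => f (z0 + (Fin.cons ζ w : Fin (d + 1) → ℂ)))
        have h2 : Module.finrank ℂ (Fin d → ℂ) = d := by simp
        rw [h2] at h1
        rw [h1, ← lintegral_const_mul' _ _ (ENNReal.pow_ne_top (by simp))]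
        refine lintegral_congr fun s => ?_
        rw [cons_smul]
        rfl
    _ = _ := by
        rw [lintegral_lintegral_swap]
        have h1 : Measurable fun p : ℂ × (Fin d → ℂ) => ‖p.1‖ₑ ^ (2 * d) * f (ln z0 p.2 p.1) :=
          ((measurable_fst.enorm).pow_const _).mul (hf.comp (measurable_ln z0))
        exact h1.aemeasurable

lemma measurable_slice (z0 : Fin (d + 1) → ℂ) {f : (Fin (d + 1) → ℂ) → ℝ≥0∞} (hf : Measurable f) :
    Measurable fun s : Fin d → ℂ => ∫⁻ ζ : ℂ, ‖ζ‖ₑ ^ (2 * d) * f (ln z0 s ζ) := by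
  have h1 : Measurable fun p : (Fin d → ℂ) × ℂ => ‖p.2‖ₑ ^ (2 * d) * f (ln z0 p.1 p.2) :=
    ((measurable_snd.enorm).pow_const _).mul (hf.comp ((measurable_ln z0).comp measurable_swap))
  exact h1.lintegral_prod_right'

lemma polar_fin (z0 : Fin (d + 1) → ℂ) {f : (Fin (d + 1) → ℂ) → ℝ≥0∞} (hf : Measurable f)
    (h : ∫⁻ z, f z < ⊤) :
    ∀ᵐ s : Fin d → ℂ, ∫⁻ ζ : ℂ, ‖ζ‖ₑ ^ (2 * d) * f (ln z0 s ζ) < ⊤ := by
  rw [polar z0 hf] at h
  exact ae_lt_top (measurable_slice z0 hf) h.ne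

lemma polar_ae (z0 : Fin (d + 1) → ℂ) {p : (Fin (d + 1) → ℂ) → Prop} (h : ∀ᵐ z, p z) :
    ∀ᵐ s : Fin d → ℂ, ∀ᵐ ζ : ℂ, p (ln z0 s ζ) := by
  set N : Set (Fin (d + 1) → ℂ) := toMeasurable volume {z | ¬ p z} with hN
  have hN0 : volume N = 0 := by rw [hN, measure_toMeasurable]; exact h
  have hNm : MeasurableSet N := measurableSet_toMeasurable _ _
  have hf : Measurable (N.indicator fun _ => (1 : ℝ≥0∞)) := measurable_const.indicator hNm
  have h1 := polar z0 hf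
  rw [lintegral_indicator hNm, lintegral_const, one_mul, Measure.restrict_apply_univ, hN0] at h1
  have h2 := (lintegral_eq_zero_iff (measurable_slice z0 hf)).mp h1.symm
  filter_upwards [h2] with s hs
  have hs' : ∫⁻ ζ : ℂ, ‖ζ‖ₑ ^ (2 * d) * N.indicator (fun _ => (1 : ℝ≥0∞)) (ln z0 s ζ) = 0 := hs
  have hm : Measurable fun ζ : ℂ => ‖ζ‖ₑ ^ (2 * d) * N.indicator (fun _ => (1 : ℝ≥0∞)) (ln z0 s ζ) :=
    (measurable_enorm.pow_const _).mul (hf.comp (continuous_ln z0 s).measurable)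
  rw [lintegral_eq_zero_iff hm] at hs'
  filter_upwards [hs', Measure.ae_ne volume (0 : ℂ)] with ζ hζ hζ0
  have hζ' : ‖ζ‖ₑ ^ (2 * d) * N.indicator (fun _ => (1 : ℝ≥0∞)) (ln z0 s ζ) = 0 := hζ
  rcases mul_eq_zero.mp hζ' with h3 | h3
  · exact absurd h3 (pow_ne_zero _ (enorm_ne_zero' hζ0))
  · by_contra hcon
    have h4 : ln z0 s ζ ∈ N := subset_toMeasurable _ _ hcon
    rw [indicator_of_mem h4] at h3
    exact one_ne_zero h3

/-- a subsequence converging along almost every line -/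
lemma polar_subseq (z0 : Fin (d + 1) → ℂ) {D : ℕ → (Fin (d + 1) → ℂ) → ℝ≥0∞}
    (hD : ∀ k, Measurable (D k)) (h : Tendsto (fun k => ∫⁻ z, D k z) atTop (𝓝 0)) :
    ∃ κ : ℕ → ℕ, (∀ l, l ≤ κ l) ∧ ∀ᵐ s : Fin d → ℂ,
      Tendsto (fun l => ∫⁻ ζ : ℂ, ‖ζ‖ₑ ^ (2 * d) * D (κ l) (ln z0 s ζ)) atTop (𝓝 0) := by
  have h1 : ∀ l : ℕ, ∃ k, l ≤ k ∧ ∫⁻ z, D k z ≤ 2⁻¹ ^ l := by
    intro l
    have h2 : (0 : ℝ≥0∞) < 2⁻¹ ^ l := pos_iff_ne_zero.mpr (pow_ne_zero _ (by simp))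
    rw [ENNReal.tendsto_atTop_zero] at h
    obtain ⟨K, hK⟩ := h _ h2
    exact ⟨max K l, le_max_right _ _, hK _ (le_max_left _ _)⟩
  choose κ hκ1 hκ2 using h1
  refine ⟨κ, hκ1, ?_⟩
  have h2 : ∑' l, ∫⁻ z, D (κ l) z ≠ ⊤ := by
    refine ((ENNReal.tsum_le_tsum hκ2).trans_lt ?_).ne
    rw [ENNReal.tsum_geometric]
    simp
  have h3 : ∫⁻ s : Fin d → ℂ, ∑' l, ∫⁻ ζ : ℂ, ‖ζ‖ₑ ^ (2 * d) * D (κ l) (ln z0 s ζ) ≠ ⊤ := by
    rw [lintegral_tsum fun l => (measurable_slice z0 (hD (κ l))).aemeasurable]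
    refine ne_of_eq_of_ne ?_ h2
    exact tsum_congr fun l => (polar z0 (hD (κ l))).symm
  have h4 := ae_lt_top' (AEMeasurable.tsum
    fun l => (measurable_slice z0 (hD (κ l))).aemeasurable) h3
  filter_upwards [h4] with s hs
  exact ENNReal.tendsto_atTop_zero_of_tsum_ne_top hs.ne

end Pool.Agent.X100.SUC
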