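import Mathlib
import Pool.Agent.X100.SUC.Polar

set_option autoImplicit false

open MeasureTheory Set Filter Topology
open scoped ENNReal ContDiff

namespace Pool.Agent.X100.SUC

variable {d m : ℕ}

lemma pi_enorm_le {ι : Type*} [Fintype ι] {x : ι → ℂ} {c : ℝ≥0∞} (h : ∀ i, ‖x i‖ₑ ≤ c) :
    ‖x‖ₑ ≤ c := by
  rw [← edist_zero_right, edist_pi_le_iff]
  intro i
  rw [Pi.zero_apply, edist_zero_right]
  exact h i

lemma le_pi_enorm {ι : Type*} [Fintype ι] (x : ι → ℂ) (i : ι) : ‖x i‖ₑ ≤ ‖x‖ₑ := by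
  have := edist_le_pi_edist x 0 i
  rwa [Pi.zero_apply, edist_zero_right, edist_zero_right] at this

/-- chain rule for the `∂̄` operator along a complex line -/
lemma db_line {U : (Fin (d + 1) → ℂ) → ℂ} (hU : ContDiff ℝ 1 U) (z0 : Fin (d + 1) → ℂ)
    (s : Fin d → ℂ) (ζ : ℂ) :
    db (fun ζ => U (ln z0 s ζ)) ζ =
      ∑ j, (starRingEnd ℂ) (ee s j) * dbar j U (ln z0 s ζ) := by
  set e := ee s with he
  have h1 : HasFDerivAt U (fderiv ℝ U (ln z0 s ζ)) (ln z0 s ζ) :=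
    (hU.differentiable (by simp) _).hasFDerivAt
  have h2 : HasFDerivAt (ln z0 s) ((ContinuousLinearMap.id ℝ ℂ).smulRight e) ζ := by
    have h3 := ((hasFDerivAt_id (𝕜 := ℝ) ζ).smul_const e).const_add z0
    exact h3
  have h3 : fderiv ℝ (fun ζ => U (ln z0 s ζ)) ζ =
      (fderiv ℝ U (ln z0 s ζ)).comp ((ContinuousLinearMap.id ℝ ℂ).smulRight e) :=
    (h1.comp ζ h2).fderiv
  set A := fderiv ℝ U (ln z0 s ζ) with hA
  have h4 : ∀ v : ℂ, A.comp ((ContinuousLinearMap.id ℝ ℂ).smulRight e) v = A (v • e) := fun v => rfl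
  have h5 : ∀ w : Fin (d + 1) → ℂ, A w = ∑ j, (A.comp (ContinuousLinearMap.single ℝ
      (fun _ : Fin (d + 1) => ℂ) j)) (w j) := by
    intro w
    conv_lhs => rw [← Finset.univ_sum_single w]
    rw [map_sum]
    rfl
  unfold db dbar
  rw [h3, h4, h4, h5 ((1 : ℂ) • e), h5 (Complex.I • e), Finset.mul_sum, ← Finset.sum_add_distrib,
    Finset.mul_sum]
  refine Finset.sum_congr rfl fun j _ => ?_
  have h6 := Pool.Agent.Helper523.LL.lin_polar (A.comp (ContinuousLinearMap.single ℝ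
      (fun _ : Fin (d + 1) => ℂ) j)) (e j)
  have e1 : ((1 : ℂ) • e) j = e j := by simp
  have e2 : (Complex.I • e) j = Complex.I * e j := by simp
  rw [e1, e2, h6]
  have e3 : ∀ v, (A.comp (ContinuousLinearMap.single ℝ (fun _ : Fin (d + 1) => ℂ) j)) v =
      A (Pi.single j v) := fun v => rfl
  rw [e3, e3]
  ring

/-- the local data -/
structure Dat (m d : ℕ) (z0 : Fin (d + 1) → ℂ) (r : ℝ) (u : (Fin (d + 1) → ℂ) → Fin m → ℂ)
    (h : Fin (d + 1) → (Fin (d + 1) → ℂ) → Fin m → ℂ) (V : (Fin (d + 1) → ℂ) → ℝ≥0∞) : Prop where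
  mu : Measurable u
  mh : ∀ j, Measurable (h j)
  mV : Measurable V
  iu : IntegrableOn u (Metric.closedBall z0 r)
  ih : ∀ j, IntegrableOn (h j) (Metric.closedBall z0 r)
  weak : ∀ (j : Fin (d + 1)) (c : Fin m), ∀ φ : (Fin (d + 1) → ℂ) → ℂ, ContDiff ℝ ∞ φ →
    HasCompactSupport φ → tsupport φ ⊆ Metric.ball z0 r →
      ∫ z, u z c * dbar j φ z = - ∫ z, h j z c * φ z
  intV : ∫⁻ z in Metric.closedBall z0 r, V z ^ (2 * d + 2 : ℝ) < ⊤
  ineq : ∀ᵐ z, z ∈ Metric.closedBall z0 r → ∀ j, ‖h j z‖ₑ ≤ V z * ‖u z‖ₑ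
  van : ∀ N : ℕ, ∫⁻ z in Metric.closedBall z0 r, ‖z - z0‖ₑ ^ (-(N : ℝ)) * ‖u z‖ₑ ^ sg d < ⊤

lemma away {K : Set ℂ} (hK : IsCompact K) (h0 : (0 : ℂ) ∉ K) : ∃ a : ℝ, 0 < a ∧ ∀ ζ ∈ K, a ≤ ‖ζ‖ := by
  rcases K.eq_empty_or_nonempty with h | h
  · exact ⟨1, one_pos, fun ζ hζ => by rw [h] at hζ; exact absurd hζ (notMem_empty _)⟩
  · obtain ⟨x, hx, hmin⟩ := hK.exists_isMinOn h continuous_norm.continuousOn
    refine ⟨‖x‖, norm_pos_iff.mpr fun h1 => h0 (h1 ▸ hx), fun ζ hζ => hmin hζ⟩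

lemma tend_K {K : Set ℂ} (hK : IsCompact K) (h0 : (0 : ℂ) ∉ K) {C : ℝ≥0∞} (hC : C ≠ ⊤)
    {X Y : ℕ → ℂ → ℝ≥0∞}
    (hY : Tendsto (fun l => ∫⁻ ζ, ‖ζ‖ₑ ^ (2 * d) * Y l ζ) atTop (𝓝 0)) (L : ℕ)
    (hX : ∀ l, L ≤ l → ∀ ζ ∈ K, X l ζ ≤ C * Y l ζ) :
    Tendsto (fun l => ∫⁻ ζ in K, X l ζ) atTop (𝓝 0) := by
  obtain ⟨a, ha, hKa⟩ := away hK h0
  set A : ℝ≥0∞ := C * (ENNReal.ofReal a ^ (2 * d))⁻¹ with hA
  have ha0 : ENNReal.ofReal a ^ (2 * d) ≠ 0 := pow_ne_zero _ (by simpa using ha)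
  have hat : ENNReal.ofReal a ^ (2 * d) ≠ ⊤ := ENNReal.pow_ne_top ENNReal.ofReal_ne_top
  have hAt : A ≠ ⊤ := ENNReal.mul_ne_top hC (ENNReal.inv_ne_top.mpr ha0)
  have h1 : Tendsto (fun l => A * ∫⁻ ζ, ‖ζ‖ₑ ^ (2 * d) * Y l ζ) atTop (𝓝 0) := by
    have := ENNReal.Tendsto.const_mul hY (Or.inr hAt)
    rwa [mul_zero] at this
  refine tendsto_of_tendsto_of_tendsto_of_le_of_le' tendsto_const_nhds h1
    (Eventually.of_forall fun _ => bot_le) ?_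
  filter_upwards [eventually_ge_atTop L] with l hl
  rw [← lintegral_const_mul' _ _ hAt]
  calc ∫⁻ ζ in K, X l ζ ≤ ∫⁻ ζ in K, A * (‖ζ‖ₑ ^ (2 * d) * Y l ζ) := by
        refine setLIntegral_mono' hK.isClosed.measurableSet fun ζ hζ => ?_
        refine (hX l hl ζ hζ).trans ?_
        have h2 : ENNReal.ofReal a ^ (2 * d) ≤ ‖ζ‖ₑ ^ (2 * d) := by
          refine pow_le_pow_left' ?_ _
          rw [← ofReal_norm]; exact ENNReal.ofReal_le_ofReal (hKa ζ hζ)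
        have h3 : 1 ≤ (ENNReal.ofReal a ^ (2 * d))⁻¹ * ‖ζ‖ₑ ^ (2 * d) := by
          rw [← ENNReal.inv_mul_cancel ha0 hat]
          exact mul_le_mul_right h2 _
        calc C * Y l ζ = C * 1 * Y l ζ := by rw [mul_one]
          _ ≤ C * ((ENNReal.ofReal a ^ (2 * d))⁻¹ * ‖ζ‖ₑ ^ (2 * d)) * Y l ζ := by gcongr
          _ = _ := by rw [hA]; ring
    _ ≤ _ := setLIntegral_le_lintegral _ _

section

variable {z0 : Fin (d + 1) → ℂ} {r : ℝ} {u : (Fin (d + 1) → ℂ) → Fin m → ℂ}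
  {h : Fin (d + 1) → (Fin (d + 1) → ℂ) → Fin m → ℂ} {V : (Fin (d + 1) → ℂ) → ℝ≥0∞}

/-- components extended by zero -/
noncomputable def ext0 (z0 : Fin (d + 1) → ℂ) (r : ℝ) (f : (Fin (d + 1) → ℂ) → Fin m → ℂ)
    (c : Fin m) : (Fin (d + 1) → ℂ) → ℂ :=
  (Metric.closedBall z0 r).indicator fun z => f z c

lemma ext0_meas {f : (Fin (d + 1) → ℂ) → Fin m → ℂ} (hf : Measurable f) (c : Fin m) :
    Measurable (ext0 z0 r f c) :=
  ((measurable_pi_apply c).comp hf).indicator Metric.isClosed_closedBall.measurableSet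

lemma integrable_comp {f : (Fin (d + 1) → ℂ) → Fin m → ℂ}
    (hf : IntegrableOn f (Metric.closedBall z0 r)) (c : Fin m) :
    IntegrableOn (fun z => f z c) (Metric.closedBall z0 r) :=
  (ContinuousLinearMap.proj (R := ℂ) (φ := fun _ : Fin m => ℂ) c).integrable_comp hf

lemma ext0_int {f : (Fin (d + 1) → ℂ) → Fin m → ℂ}
    (hf : IntegrableOn f (Metric.closedBall z0 r)) (c : Fin m) :
    Integrable (ext0 z0 r f c) :=
  (integrable_comp hf c).integrable_indicator Metric.isClosed_closedBall.measurableSet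

lemma ext0_of_mem {f : (Fin (d + 1) → ℂ) → Fin m → ℂ} {c : Fin m} {z : Fin (d + 1) → ℂ}
    (hz : z ∈ Metric.closedBall z0 r) : ext0 z0 r f c z = f z c := indicator_of_mem hz _

/-- the error of the mollification -/
noncomputable def DD (z0 : Fin (d + 1) → ℂ) (r : ℝ) (u : (Fin (d + 1) → ℂ) → Fin m → ℂ)
    (h : Fin (d + 1) → (Fin (d + 1) → ℂ) → Fin m → ℂ) (k : ℕ) (z : Fin (d + 1) → ℂ) : ℝ≥0∞ :=
  ∑ c : Fin m, (‖ml (d + 1) k (ext0 z0 r u c) z - ext0 z0 r u c z‖ₑ +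
    ∑ j : Fin (d + 1), ‖ml (d + 1) k (ext0 z0 r (h j) c) z - ext0 z0 r (h j) c z‖ₑ)

lemma DD_meas (S : Dat m d z0 r u h V) (k : ℕ) : Measurable (DD z0 r u h k) := by
  unfold DD
  refine Finset.measurable_sum _ fun c _ => ?_
  have h1 : Measurable fun z => ‖ml (d + 1) k (ext0 z0 r u c) z - ext0 z0 r u c z‖ₑ :=
    ((ml_contDiff k (ext0_int S.iu c).locallyIntegrable).continuous.measurable.sub
      (ext0_meas S.mu c)).enorm
  have h2 : Measurable fun z => ∑ j : Fin (d + 1),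
      ‖ml (d + 1) k (ext0 z0 r (h j) c) z - ext0 z0 r (h j) c z‖ₑ :=
    Finset.measurable_sum _ fun j _ =>
      ((ml_contDiff k (ext0_int (S.ih j) c).locallyIntegrable).continuous.measurable.sub
      (ext0_meas (S.mh j) c)).enorm
  exact h1.add h2

lemma DD_tendsto (S : Dat m d z0 r u h V) :
    Tendsto (fun k => ∫⁻ z, DD z0 r u h k z) atTop (𝓝 0) := by
  have m1 : ∀ (c : Fin m) k, Measurable fun z =>
      ‖ml (d + 1) k (ext0 z0 r u c) z - ext0 z0 r u c z‖ₑ := fun c k =>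
    ((ml_contDiff k (ext0_int S.iu c).locallyIntegrable).continuous.measurable.sub
      (ext0_meas S.mu c)).enorm
  have m2 : ∀ (c : Fin m) j k, Measurable fun z =>
      ‖ml (d + 1) k (ext0 z0 r (h j) c) z - ext0 z0 r (h j) c z‖ₑ := fun c j k =>
    ((ml_contDiff k (ext0_int (S.ih j) c).locallyIntegrable).continuous.measurable.sub
      (ext0_meas (S.mh j) c)).enorm
  have e : ∀ k, ∫⁻ z, DD z0 r u h k z = ∑ c : Fin m,
      ((∫⁻ z, ‖ml (d + 1) k (ext0 z0 r u c) z - ext0 z0 r u c z‖ₑ) +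
      ∑ j : Fin (d + 1), ∫⁻ z, ‖ml (d + 1) k (ext0 z0 r (h j) c) z - ext0 z0 r (h j) c z‖ₑ) := by
    intro k
    unfold DD
    rw [lintegral_finsetSum]
    · refine Finset.sum_congr rfl fun c _ => ?_
      rw [lintegral_add_left (m1 c k), lintegral_finsetSum _ fun j _ => m2 c j k]
    · intro c _
      have m3 : Measurable fun z => ∑ j : Fin (d + 1),
          ‖ml (d + 1) k (ext0 z0 r (h j) c) z - ext0 z0 r (h j) c z‖ₑ :=
        Finset.measurable_sum _ fun j _ => m2 c j k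
      exact (m1 c k).add m3
  simp_rw [e]
  have h0 : (0 : ℝ≥0∞) = ∑ _c : Fin m, (0 + ∑ _j : Fin (d + 1), 0) := by simp
  rw [h0]
  refine tendsto_finsetSum _ fun c _ => ?_
  refine Tendsto.add (ml_tendsto (ext0_meas S.mu c) (ext0_int S.iu c)) ?_
  exact tendsto_finsetSum _ fun j _ => ml_tendsto (ext0_meas (S.mh j) c) (ext0_int (S.ih j) c)

lemma DD_ge_u (c : Fin m) (k : ℕ) (z : Fin (d + 1) → ℂ) :
    ‖ml (d + 1) k (ext0 z0 r u c) z - ext0 z0 r u c z‖ₑ ≤ DD z0 r u h k z := by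
  unfold DD
  refine le_trans ?_ (Finset.single_le_sum (f := fun c : Fin m =>
    (‖ml (d + 1) k (ext0 z0 r u c) z - ext0 z0 r u c z‖ₑ +
    ∑ j : Fin (d + 1), ‖ml (d + 1) k (ext0 z0 r (h j) c) z - ext0 z0 r (h j) c z‖ₑ))
    (fun _ _ => bot_le) (Finset.mem_univ c))
  exact le_self_add

lemma DD_ge_h (c : Fin m) (j : Fin (d + 1)) (k : ℕ) (z : Fin (d + 1) → ℂ) :
    ‖ml (d + 1) k (ext0 z0 r (h j) c) z - ext0 z0 r (h j) c z‖ₑ ≤ DD z0 r u h k z := by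
  unfold DD
  refine le_trans ?_ (Finset.single_le_sum (f := fun c : Fin m =>
    (‖ml (d + 1) k (ext0 z0 r u c) z - ext0 z0 r u c z‖ₑ +
    ∑ j : Fin (d + 1), ‖ml (d + 1) k (ext0 z0 r (h j) c) z - ext0 z0 r (h j) c z‖ₑ))
    (fun _ _ => bot_le) (Finset.mem_univ c))
  refine le_trans ?_ le_add_self
  exact Finset.single_le_sum (f := fun j : Fin (d + 1) =>
    ‖ml (d + 1) k (ext0 z0 r (h j) c) z - ext0 z0 r (h j) c z‖ₑ)
    (fun _ _ => bot_le) (Finset.mem_univ j)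

lemma ee_norm_pos (s : Fin d → ℂ) : 0 < ‖ee s‖ := by
  rw [norm_pos_iff]
  intro h
  have := congrFun h 0
  simp [ee] at this

/-- almost every line is good -/
lemma mk_Sl (S : Dat m d z0 r u h V) {κ : ℕ → ℕ} (hκ : ∀ l, l ≤ κ l) {s : Fin d → ℂ}
    (g1 : ∀ᵐ ζ : ℂ, ln z0 s ζ ∈ Metric.closedBall z0 r →
      ∀ j, ‖h j (ln z0 s ζ)‖ₑ ≤ V (ln z0 s ζ) * ‖u (ln z0 s ζ)‖ₑ)
    (g2 : ∫⁻ ζ : ℂ, ‖ζ‖ₑ ^ (2 * d) * (Metric.closedBall z0 r).indicator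
      (fun z => V z ^ (2 * d + 2 : ℝ)) (ln z0 s ζ) < ⊤)
    (g3 : ∀ N : ℕ, ∫⁻ ζ : ℂ, ‖ζ‖ₑ ^ (2 * d) * (Metric.closedBall z0 r).indicator
      (fun z => ‖z - z0‖ₑ ^ (-(N : ℝ)) * ‖u z‖ₑ ^ sg d) (ln z0 s ζ) < ⊤)
    (g4 : Tendsto (fun l => ∫⁻ ζ : ℂ, ‖ζ‖ₑ ^ (2 * d) * DD z0 r u h (κ l) (ln z0 s ζ)) atTop (𝓝 0))
    {ρ : ℝ} (hρ : ρ * ‖ee s‖ < r) :
    Sl m d ρ (fun ζ c => ext0 z0 r u c (ln z0 s ζ))
      (fun ζ c => ∑ j, (starRingEnd ℂ) (ee s j) * ext0 z0 r (h j) c (ln z0 s ζ))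
      (fun ζ => (∑ j, ‖ee s j‖ₑ) * V (ln z0 s ζ)) := by
  have hmem : ∀ ζ ∈ Metric.ball (0 : ℂ) ρ, ln z0 s ζ ∈ Metric.closedBall z0 (ρ * ‖ee s‖) := by
    intro ζ hζ
    rw [mem_ball_zero_iff] at hζ
    rw [Metric.mem_closedBall, dist_eq_norm, ln_sub, norm_smul]
    exact mul_le_mul_of_nonneg_right hζ.le (norm_nonneg _)
  have hmem' : ∀ ζ ∈ Metric.ball (0 : ℂ) ρ, ln z0 s ζ ∈ Metric.closedBall z0 r := fun ζ hζ =>
    Metric.closedBall_subset_closedBall hρ.le (hmem ζ hζ)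
  have hv : ∀ ζ ∈ Metric.ball (0 : ℂ) ρ, (fun c => ext0 z0 r u c (ln z0 s ζ)) = u (ln z0 s ζ) := by
    intro ζ hζ
    funext c
    exact ext0_of_mem (hmem' ζ hζ)
  have hlm := (continuous_ln z0 s).measurable
  have hs1 := sg_gt d
  set CC : ℝ≥0∞ := ∑ j, ‖ee s j‖ₑ with hCC
  have hCCt : CC ≠ ⊤ := by
    rw [hCC]; exact ENNReal.sum_ne_top.mpr fun j _ => by simp
  have he0 : ‖ee s‖ₑ ≠ 0 := by
    rw [← ofReal_norm]; simpa using ee_norm_pos s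
  have het : ‖ee s‖ₑ ≠ ⊤ := by simp
  refine ⟨?_, ?_, ?_, ?_, ?_, ?_, ?_⟩
  · exact measurable_pi_lambda _ fun c => (ext0_meas S.mu c).comp hlm
  · refine measurable_pi_lambda _ fun c => ?_
    exact Finset.measurable_sum _ fun j _ => ((ext0_meas (S.mh j) c).comp hlm).const_mul _
  · exact (S.mV.comp hlm).const_mul _
  · filter_upwards [g1] with ζ hζ hζρ
    have h1 := hζ (hmem' ζ hζρ)
    rw [hv ζ hζρ]
    refine pi_enorm_le fun c => ?_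
    have e1 : ∀ j, ext0 z0 r (h j) c (ln z0 s ζ) = h j (ln z0 s ζ) c := fun j =>
      ext0_of_mem (hmem' ζ hζρ)
    simp_rw [e1]
    calc ‖∑ j, (starRingEnd ℂ) (ee s j) * h j (ln z0 s ζ) c‖ₑ ≤
          ∑ j, ‖(starRingEnd ℂ) (ee s j) * h j (ln z0 s ζ) c‖ₑ := enorm_sum_le _ _
      _ ≤ ∑ j, ‖ee s j‖ₑ * (V (ln z0 s ζ) * ‖u (ln z0 s ζ)‖ₑ) := by
          refine Finset.sum_le_sum fun j _ => ?_
          rw [enorm_mul]
          have e2 : ‖(starRingEnd ℂ) (ee s j)‖ₑ = ‖ee s j‖ₑ := by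
            rw [← ofReal_norm, ← ofReal_norm, RCLike.norm_conj]
          rw [e2]
          exact mul_le_mul_right ((le_pi_enorm _ c).trans (h1 j)) _
      _ = _ := by rw [← Finset.sum_mul, mul_assoc]
  · have h1 : ∫⁻ ζ in Metric.ball (0 : ℂ) ρ, ‖ζ‖ₑ ^ (2 * d : ℝ) *
        (CC * V (ln z0 s ζ)) ^ (2 * d + 2 : ℝ) ≤ CC ^ (2 * d + 2 : ℝ) * ∫⁻ ζ : ℂ, ‖ζ‖ₑ ^ (2 * d) *
          (Metric.closedBall z0 r).indicator (fun z => V z ^ (2 * d + 2 : ℝ)) (ln z0 s ζ) := by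
      have ht : CC ^ (2 * d + 2 : ℝ) ≠ ⊤ := ENNReal.rpow_ne_top_of_nonneg (by positivity) hCCt
      rw [← lintegral_const_mul' _ _ ht, ← lintegral_indicator Metric.isOpen_ball.measurableSet]
      refine lintegral_mono fun ζ => ?_
      by_cases hζ : ζ ∈ Metric.ball (0 : ℂ) ρ
      · rw [indicator_of_mem hζ, indicator_of_mem (hmem' ζ hζ)]
        rw [ENNReal.mul_rpow_of_nonneg _ _ (by positivity)]
        have e1 : ‖ζ‖ₑ ^ (2 * d : ℝ) = ‖ζ‖ₑ ^ (2 * d) := by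
          rw [← ENNReal.rpow_natCast]; push_cast; rfl
        rw [e1]
        exact le_of_eq (by ring)
      · rw [indicator_of_notMem hζ]; exact bot_le
    exact h1.trans_lt (ENNReal.mul_lt_top
      (ENNReal.rpow_lt_top_of_nonneg (by positivity) hCCt) g2)
  · intro x
    obtain ⟨N, hN⟩ := exists_nat_ge (-x + 2 * d)
    have hx : 0 ≤ x + N - 2 * d := by linarith
    have h1 : ∫⁻ ζ in Metric.ball (0 : ℂ) ρ, ‖ζ‖ₑ ^ x *
        ‖(fun c => ext0 z0 r u c (ln z0 s ζ))‖ₑ ^ sg d ≤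
        (ENNReal.ofReal ρ ^ (x + N - 2 * d) * ‖ee s‖ₑ ^ (N : ℝ)) * ∫⁻ ζ : ℂ, ‖ζ‖ₑ ^ (2 * d) *
          (Metric.closedBall z0 r).indicator
            (fun z => ‖z - z0‖ₑ ^ (-(N : ℝ)) * ‖u z‖ₑ ^ sg d) (ln z0 s ζ) := by
      have ht : ENNReal.ofReal ρ ^ (x + N - 2 * d) * ‖ee s‖ₑ ^ (N : ℝ) ≠ ⊤ :=
        ENNReal.mul_ne_top (ENNReal.rpow_ne_top_of_nonneg hx ENNReal.ofReal_ne_top)
          (ENNReal.rpow_ne_top_of_nonneg (by positivity) het)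
      rw [← lintegral_const_mul' _ _ ht, ← lintegral_indicator Metric.isOpen_ball.measurableSet]
      refine lintegral_mono_ae ?_
      filter_upwards [Measure.ae_ne volume (0 : ℂ)] with ζ hζ0
      have hn0 := enorm_ne_zero' hζ0
      have hnt := enorm_ne_top' ζ
      by_cases hζ : ζ ∈ Metric.ball (0 : ℂ) ρ
      · rw [indicator_of_mem hζ, indicator_of_mem (hmem' ζ hζ), hv ζ hζ, ln_sub, enorm_smul]
        rw [mem_ball_zero_iff] at hζ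
        have h3 : ‖ζ‖ₑ ≤ ENNReal.ofReal ρ := by
          rw [← ofReal_norm]; exact ENNReal.ofReal_le_ofReal hζ.le
        have e0 : ‖ζ‖ₑ ^ (2 * d) = ‖ζ‖ₑ ^ (2 * d : ℝ) := by
          rw [← ENNReal.rpow_natCast]; push_cast; rfl
        have e1 : ‖ζ‖ₑ ^ x = ‖ζ‖ₑ ^ (x + N - 2 * d) * (‖ζ‖ₑ ^ (2 * d : ℝ) * ‖ζ‖ₑ ^ (-(N : ℝ))) := by
          rw [← ENNReal.rpow_add _ _ hn0 hnt, ← ENNReal.rpow_add _ _ hn0 hnt]
          congr 1; ring
        have e2 : (‖ζ‖ₑ * ‖ee s‖ₑ) ^ (-(N : ℝ)) = ‖ζ‖ₑ ^ (-(N : ℝ)) * ‖ee s‖ₑ ^ (-(N : ℝ)) :=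
          ENNReal.mul_rpow_of_ne_top hnt het _
        have e3 : ‖ee s‖ₑ ^ (N : ℝ) * ‖ee s‖ₑ ^ (-(N : ℝ)) = 1 := by
          rw [← ENNReal.rpow_add _ _ he0 het, add_neg_cancel, ENNReal.rpow_zero]
        rw [e0, e1, e2]
        calc ‖ζ‖ₑ ^ (x + N - 2 * d) * (‖ζ‖ₑ ^ (2 * d : ℝ) * ‖ζ‖ₑ ^ (-(N : ℝ))) *
              ‖u (ln z0 s ζ)‖ₑ ^ sg d ≤ ENNReal.ofReal ρ ^ (x + N - 2 * d) *
              (‖ζ‖ₑ ^ (2 * d : ℝ) * ‖ζ‖ₑ ^ (-(N : ℝ))) * ‖u (ln z0 s ζ)‖ₑ ^ sg d := by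
              gcongr
          _ = ENNReal.ofReal ρ ^ (x + N - 2 * d) *
              (‖ζ‖ₑ ^ (2 * d : ℝ) * ‖ζ‖ₑ ^ (-(N : ℝ))) * ‖u (ln z0 s ζ)‖ₑ ^ sg d *
              (‖ee s‖ₑ ^ (N : ℝ) * ‖ee s‖ₑ ^ (-(N : ℝ))) := by rw [e3, mul_one]
          _ ≤ _ := le_of_eq (by ring)
      · rw [indicator_of_notMem hζ]; exact bot_le
    refine h1.trans_lt (ENNReal.mul_lt_top (ENNReal.mul_lt_top ?_ ?_) (g3 N))
    · exact ENNReal.rpow_lt_top_of_nonneg hx ENNReal.ofReal_ne_top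
    · exact ENNReal.rpow_lt_top_of_nonneg (by positivity) het
  · intro χ hχ hχc hχO
    have hmlc : ∀ k c, ContDiff ℝ 1 (ml (d + 1) k (ext0 z0 r u c)) := fun k c =>
      (ml_contDiff k (ext0_int S.iu c).locallyIntegrable).of_le (by simp)
    have hlnc : ContDiff ℝ 1 (ln z0 s) := by
      unfold ln; fun_prop
    refine limit_ineq_vec (O := Metric.ball 0 ρ \ {0}) ?_ ?_
      (fun l c ζ => ml (d + 1) (κ l) (ext0 z0 r u c) (ln z0 s ζ)) ?_ ?_ ?_ hχ hχc hχO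
    · exact measurable_pi_lambda _ fun c => (ext0_meas S.mu c).comp hlm
    · refine measurable_pi_lambda _ fun c => ?_
      exact Finset.measurable_sum _ fun j _ => ((ext0_meas (S.mh j) c).comp hlm).const_mul _
    · intro l c
      exact (hmlc (κ l) c).comp hlnc
    · intro c K hKO hK
      refine tend_K (d := d) hK (fun h0 => (hKO h0).2 rfl) (C := 1) (by simp) g4 0 ?_
      intro l _ ζ _
      rw [one_mul]
      exact DD_ge_u c _ _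
    · intro c K hKO hK
      have hlim := tendsto_one_div_add_atTop_nhds_zero_nat (𝕜 := ℝ)
      obtain ⟨L, hL⟩ := eventually_atTop.mp
        (hlim.eventually_lt_const (show (0 : ℝ) < r - ρ * ‖ee s‖ by linarith))
      refine tend_K (d := d) hK (fun h0 => (hKO h0).2 rfl) (C := CC) hCCt g4 L ?_
      intro l hl ζ hζ
      have hζρ := (hKO hζ).1
      rw [db_line (hmlc (κ l) c)]
      have e1 : ∀ j, dbar j (ml (d + 1) (κ l) (ext0 z0 r u c)) (ln z0 s ζ) =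
          ml (d + 1) (κ l) (ext0 z0 r (h j) c) (ln z0 s ζ) := by
        intro j
        refine ml_weak (integrable_comp S.iu c) j (S.weak j c) (hL (κ l) (hl.trans (hκ l)))
          (hmem ζ hζρ)
      simp_rw [e1]
      rw [← Finset.sum_sub_distrib]
      refine (enorm_sum_le _ _).trans ?_
      rw [hCC, Finset.sum_mul]
      refine Finset.sum_le_sum fun j _ => ?_
      rw [← mul_sub, enorm_mul]
      have e2 : ‖(starRingEnd ℂ) (ee s j)‖ₑ = ‖ee s j‖ₑ := by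
        rw [← ofReal_norm, ← ofReal_norm, RCLike.norm_conj]
      rw [e2]
      exact mul_le_mul_right (DD_ge_h c j _ _) _

/-- local unique continuation -/
theorem local_ucp (S : Dat m d z0 r u h V) (hd : 1 ≤ d) :
    ∀ᵐ z, z ∈ Metric.ball z0 r → u z = 0 := by
  have hPm : MeasurableSet (Metric.closedBall z0 r) := Metric.isClosed_closedBall.measurableSet
  obtain ⟨κ, hκ, hκ2⟩ := polar_subseq z0 (DD_meas S) (DD_tendsto S)
  have mu := S.mu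
  have a1 := polar_ae z0 S.ineq
  have a2 := polar_fin z0 (f := (Metric.closedBall z0 r).indicator
      (fun z => V z ^ (2 * d + 2 : ℝ))) ((S.mV.pow_const _).indicator hPm) (by
    rw [lintegral_indicator hPm]; exact S.intV)
  have a3 : ∀ N : ℕ, ∀ᵐ s : Fin d → ℂ, ∫⁻ ζ : ℂ, ‖ζ‖ₑ ^ (2 * d) *
      (Metric.closedBall z0 r).indicator
      (fun z => ‖z - z0‖ₑ ^ (-(N : ℝ)) * ‖u z‖ₑ ^ sg d) (ln z0 s ζ) < ⊤ := by
    intro N
    refine polar_fin z0 ?_ (by rw [lintegral_indicator hPm]; exact S.van N)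
    refine Measurable.indicator ?_ hPm
    fun_prop
  have hline : ∀ᵐ s : Fin d → ℂ, ∀ᵐ ζ : ℂ, ln z0 s ζ ∈ Metric.ball z0 r → u (ln z0 s ζ) = 0 := by
    filter_upwards [a1, a2, ae_all_iff.mpr a3, hκ2] with s h1 h2 h3 h4
    have he := ee_norm_pos s
    have hk : ∀ k : ℕ, ∀ᵐ ζ : ℂ, ζ ∈ Metric.ball (0 : ℂ) (r / ‖ee s‖ - 1 / ((k : ℝ) + 1)) →
        (fun c => ext0 z0 r u c (ln z0 s ζ)) = 0 := by
      intro k
      have h5 : (r / ‖ee s‖ - 1 / ((k : ℝ) + 1)) * ‖ee s‖ < r := by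
        have : (0 : ℝ) < 1 / ((k : ℝ) + 1) := by positivity
        rw [sub_mul, div_mul_cancel₀ _ he.ne']
        nlinarith
      exact ucp_disc (mk_Sl S hκ h1 h2 h3 h4 h5) hd
    filter_upwards [ae_all_iff.mpr hk] with ζ hζ hmem
    have h6 : ‖ζ‖ < r / ‖ee s‖ := by
      rw [Metric.mem_ball, dist_eq_norm, ln_sub, norm_smul] at hmem
      rwa [lt_div_iff₀ he]
    have h7 : Tendsto (fun k : ℕ => r / ‖ee s‖ - 1 / ((k : ℝ) + 1)) atTop (𝓝 (r / ‖ee s‖ - 0)) :=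
      (tendsto_one_div_add_atTop_nhds_zero_nat (𝕜 := ℝ)).const_sub _
    rw [sub_zero] at h7
    obtain ⟨k, hk2⟩ := (h7.eventually_const_lt h6).exists
    have h8 := hζ k (by rw [mem_ball_zero_iff]; exact hk2)
    funext c
    have h9 := congrFun h8 c
    rw [← h9]
    exact (ext0_of_mem (Metric.ball_subset_closedBall hmem)).symm
  have hBm : MeasurableSet {z | z ∈ Metric.ball z0 r ∧ u z ≠ 0} := by
    have h1 : MeasurableSet {z | u z ≠ 0} := (mu (measurableSet_singleton 0)).compl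
    exact Metric.isOpen_ball.measurableSet.inter h1
  set B := {z | z ∈ Metric.ball z0 r ∧ u z ≠ 0} with hB
  have h1 := polar z0 (f := B.indicator fun _ => (1 : ℝ≥0∞)) (measurable_const.indicator hBm)
  rw [lintegral_indicator hBm, lintegral_const, one_mul, Measure.restrict_apply_univ] at h1
  have h2 : ∫⁻ s : Fin d → ℂ, ∫⁻ ζ : ℂ, ‖ζ‖ₑ ^ (2 * d) *
      B.indicator (fun _ => (1 : ℝ≥0∞)) (ln z0 s ζ) = 0 := by
    rw [lintegral_eq_zero_iff (measurable_slice z0 (measurable_const.indicator hBm))]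
    filter_upwards [hline] with s hs
    show ∫⁻ ζ : ℂ, ‖ζ‖ₑ ^ (2 * d) * B.indicator (fun _ => (1 : ℝ≥0∞)) (ln z0 s ζ) = 0
    have : ∀ᵐ ζ : ℂ, ‖ζ‖ₑ ^ (2 * d) * B.indicator (fun _ => (1 : ℝ≥0∞)) (ln z0 s ζ) = 0 := by
      filter_upwards [hs] with ζ hζ
      rw [indicator_of_notMem, mul_zero]
      rintro ⟨h3, h4⟩
      exact h4 (hζ h3)
    rw [lintegral_congr_ae this]
    simp
  rw [h2] at h1
  rw [ae_iff]
  refine measure_mono_null ?_ h1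
  intro z hz
  have hz' : ¬ (z ∈ Metric.ball z0 r → u z = 0) := hz
  push Not at hz'
  exact hz'

end

end Pool.Agent.X100.SUC
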