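import Mathlib
import Pool.Agent.X100.SUC.Slice

set_option autoImplicit false

open MeasureTheory Set Filter Topology
open scoped ENNReal ContDiff

namespace Pool.Agent.X100.SUC

variable {n m d : ℕ}

/-- the Euclidean norm on `ℂ^k` -/
noncomputable def nrm {k : ℕ} (x : Fin k → ℂ) : ℝ := Real.sqrt (∑ i, ‖x i‖ ^ 2)

/-- the open Euclidean ball in `ℂⁿ` -/
def eball (z0 : Fin n → ℂ) (r : ℝ) : Set (Fin n → ℂ) := {z | nrm (z - z0) < r}

/-- `f ∈ L^s_loc(Ω)` -/
def LocLp {F : Type} [NormedAddCommGroup F] (s : ℝ) (Ω : Set (Fin n → ℂ))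
    (f : (Fin n → ℂ) → F) : Prop :=
  ∀ K ⊆ Ω, IsCompact K → MemLp f (ENNReal.ofReal s) (volume.restrict K)

/-- `h` is the distributional derivative `∂u/∂z̄_j` of `u : Ω → ℂ^m` on `Ω` (tested componentwise
against smooth compactly supported functions) -/
def IsWeakDbar (Ω : Set (Fin n → ℂ)) (j : Fin n) (u h : (Fin n → ℂ) → Fin m → ℂ) : Prop :=
  ∀ φ : (Fin n → ℂ) → ℂ, ContDiff ℝ ∞ φ → HasCompactSupport φ → tsupport φ ⊆ Ω →
    ∀ c : Fin m, ∫ z in Ω, u z c * dbar j φ z = - ∫ z in Ω, h z c * φ z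

/-- `u` vanishes to infinite order at `z0` in the `L^q` sense -/
def VanishesInfOrder (q : ℝ) (u : (Fin n → ℂ) → Fin m → ℂ) (z0 : Fin n → ℂ) : Prop :=
  ∀ N : ℕ, Tendsto (fun r : ℝ => (r ^ N)⁻¹ * ∫ z in eball z0 r, nrm (u z) ^ q) (𝓝[>] 0) (𝓝 0)

lemma norm_le_nrm {k : ℕ} (x : Fin k → ℂ) : ‖x‖ ≤ nrm x := by
  unfold nrm
  rw [pi_norm_le_iff_of_nonneg (Real.sqrt_nonneg _)]
  intro i
  refine Real.le_sqrt_of_sq_le ?_
  exact Finset.single_le_sum (f := fun i => ‖x i‖ ^ 2) (fun _ _ => by positivity) (Finset.mem_univ i)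

lemma nrm_le {k : ℕ} (x : Fin k → ℂ) : nrm x ≤ Real.sqrt k * ‖x‖ := by
  unfold nrm
  rw [← Real.sqrt_sq (norm_nonneg x), ← Real.sqrt_mul (by positivity)]
  refine Real.sqrt_le_sqrt ?_
  calc ∑ i, ‖x i‖ ^ 2 ≤ ∑ _i : Fin k, ‖x‖ ^ 2 :=
        Finset.sum_le_sum fun i _ => pow_le_pow_left₀ (norm_nonneg _) (norm_le_pi_norm x i) 2
    _ = _ := by simp

lemma nrm_nonneg {k : ℕ} (x : Fin k → ℂ) : 0 ≤ nrm x := Real.sqrt_nonneg _

lemma nrm_continuous {k : ℕ} : Continuous (nrm (k := k)) := by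
  unfold nrm; fun_prop

lemma dyadic {z0 : Fin n → ℂ} (hn : 0 < n) {F : (Fin n → ℂ) → ℝ≥0∞} {N : ℕ} {C : ℝ≥0∞} (hC : C ≠ ⊤)
    {t0 : ℝ} (ht0 : 0 < t0)
    (h : ∀ t, 0 < t → t ≤ t0 → ∫⁻ z in Metric.closedBall z0 t, F z ≤ C * ENNReal.ofReal t ^ (N + 1)) :
    ∫⁻ z in Metric.closedBall z0 t0, ‖z - z0‖ₑ ^ (-(N : ℝ)) * F z < ⊤ := by
  set S : ℕ → Set (Fin n → ℂ) := fun k =>
    {z | t0 * (1 / 2) ^ (k + 1) < ‖z - z0‖ ∧ ‖z - z0‖ ≤ t0 * (1 / 2) ^ k} with hS
  have hSm : ∀ k, MeasurableSet (S k) := by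
    intro k
    have hm : Measurable fun z : Fin n → ℂ => ‖z - z0‖ := by fun_prop
    exact (measurableSet_lt measurable_const hm).inter (measurableSet_le hm measurable_const)
  have hcov : ∀ᵐ z ∂(volume : Measure (Fin n → ℂ)), z ∈ Metric.closedBall z0 t0 → z ∈ ⋃ k, S k := by
    have : Nonempty (Fin n) := ⟨⟨0, hn⟩⟩
    filter_upwards [Measure.ae_ne volume z0] with z hz hzt
    rw [Metric.mem_closedBall, dist_eq_norm] at hzt
    have hpos : 0 < ‖z - z0‖ := norm_pos_iff.mpr (sub_ne_zero.mpr hz)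
    obtain ⟨k, hk1, hk2⟩ := exists_nat_pow_near_of_lt_one (x := ‖z - z0‖ / t0) (y := 1 / 2)
      (by positivity) (by rw [div_le_one ht0]; exact hzt) (by norm_num) (by norm_num)
    refine mem_iUnion.mpr ⟨k, ?_, ?_⟩
    · rw [lt_div_iff₀ ht0] at hk1; linarith
    · rw [div_le_iff₀ ht0] at hk2; linarith
  have hle : ∫⁻ z in Metric.closedBall z0 t0, ‖z - z0‖ₑ ^ (-(N : ℝ)) * F z ≤
      ∑' k, ∫⁻ z in S k, ‖z - z0‖ₑ ^ (-(N : ℝ)) * F z := by
    refine le_trans ?_ (lintegral_iUnion_le S _)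
    refine lintegral_mono' (Measure.restrict_mono_ae ?_) le_rfl
    filter_upwards [hcov] with z hz using hz
  refine hle.trans_lt ?_
  have hterm : ∀ k, ∫⁻ z in S k, ‖z - z0‖ₑ ^ (-(N : ℝ)) * F z ≤
      (C * 2 ^ N * ENNReal.ofReal t0) * 2⁻¹ ^ k := by
    intro k
    have hp1 : 0 < t0 * (1 / 2) ^ (k + 1) := by positivity
    have hp2 : 0 < t0 * (1 / 2) ^ k := by positivity
    have hple : t0 * (1 / 2) ^ k ≤ t0 := by
      have : ((1 : ℝ) / 2) ^ k ≤ 1 := pow_le_one₀ (by norm_num) (by norm_num)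
      nlinarith
    set a := ENNReal.ofReal (t0 * (1 / 2) ^ (k + 1)) with ha
    have ha0 : a ≠ 0 := by rw [ha]; simpa using hp1
    have hat : a ≠ ⊤ := ENNReal.ofReal_ne_top
    have h2a : ENNReal.ofReal (t0 * (1 / 2) ^ k) = 2 * a := by
      rw [ha]
      have : (2 : ℝ≥0∞) = ENNReal.ofReal 2 := by simp
      rw [this, ← ENNReal.ofReal_mul (by norm_num)]
      congr 1; ring
    calc ∫⁻ z in S k, ‖z - z0‖ₑ ^ (-(N : ℝ)) * F z ≤ ∫⁻ z in S k, (a ^ N)⁻¹ * F z := by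
          refine setLIntegral_mono' (hSm k) fun z hz => ?_
          refine mul_le_mul_left ?_ _
          rw [ENNReal.rpow_neg, ENNReal.rpow_natCast]
          refine ENNReal.inv_le_inv.mpr (pow_le_pow_left' ?_ N)
          rw [ha, ← ofReal_norm]
          exact ENNReal.ofReal_le_ofReal hz.1.le
      _ = (a ^ N)⁻¹ * ∫⁻ z in S k, F z :=
          lintegral_const_mul' _ _ (ENNReal.inv_ne_top.mpr (pow_ne_zero _ ha0))
      _ ≤ (a ^ N)⁻¹ * (C * (2 * a) ^ (N + 1)) := by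
          refine mul_le_mul_right ?_ _
          rw [← h2a]
          refine le_trans ?_ (h _ hp2 hple)
          refine lintegral_mono_set fun z hz => ?_
          rw [Metric.mem_closedBall, dist_eq_norm]
          exact hz.2
      _ = C * 2 ^ N * (2 * a) * ((a ^ N)⁻¹ * a ^ N) := by rw [mul_pow]; ring
      _ = C * 2 ^ N * (2 * a) := by
          rw [ENNReal.inv_mul_cancel (pow_ne_zero _ ha0) (ENNReal.pow_ne_top hat), mul_one]
      _ = _ := by
          rw [← h2a, ENNReal.ofReal_mul ht0.le, ENNReal.ofReal_pow (by norm_num)]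
          have : ENNReal.ofReal (1 / 2) = 2⁻¹ := by
            rw [one_div, ENNReal.ofReal_inv_of_pos (by norm_num)]; simp
          rw [this]; ring
  refine (ENNReal.tsum_le_tsum hterm).trans_lt ?_
  rw [ENNReal.tsum_mul_left, ENNReal.tsum_geometric]
  refine ENNReal.mul_lt_top (ENNReal.mul_lt_top (ENNReal.mul_lt_top hC.lt_top ?_)
    ENNReal.ofReal_lt_top) ?_
  · exact ENNReal.pow_lt_top (by norm_num)
  · simp

/-- the local vanishing condition used in the proof -/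
def Van (d : ℕ) (u : (Fin (d + 1) → ℂ) → Fin m → ℂ) (z1 : Fin (d + 1) → ℂ) : Prop :=
  ∃ t0 : ℝ, 0 < t0 ∧ ∀ N : ℕ, ∫⁻ z in Metric.closedBall z1 t0,
    ‖z - z1‖ₑ ^ (-(N : ℝ)) * ‖u z‖ₑ ^ sg d < ⊤

lemma rpow_le_add {t : ℝ≥0∞} {a b : ℝ} (h0 : 0 ≤ a) (h : a ≤ b) : t ^ a ≤ t ^ b + 1 := by
  rcases le_total t 1 with h1 | h1
  · exact (ENNReal.rpow_le_one h1 h0).trans le_add_self
  · exact (ENNReal.rpow_le_rpow_of_exponent_le h1 h).trans le_self_add

lemma lint_rpow {F : Type} [NormedAddCommGroup F] {q : ℝ} (hq : 0 < q) {f : (Fin n → ℂ) → F}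
    {μ : Measure (Fin n → ℂ)} (h : MemLp f (ENNReal.ofReal q) μ) : ∫⁻ z, ‖f z‖ₑ ^ q ∂μ < ⊤ := by
  have h1 := lintegral_rpow_enorm_lt_top_of_eLpNorm_lt_top (by simpa using hq)
    ENNReal.ofReal_ne_top h.2
  rwa [ENNReal.toReal_ofReal hq.le] at h1

lemma van_of_vanishes {Ω : Set (Fin (d + 1) → ℂ)} (hΩ : IsOpen Ω) {u : (Fin (d + 1) → ℂ) → Fin m → ℂ}
    {q : ℝ} (hq : sg d ≤ q) (hu : LocLp q Ω u) {z0 : Fin (d + 1) → ℂ} (hz0 : z0 ∈ Ω)
    (hv : VanishesInfOrder q u z0) : ∃ t0 : ℝ, 0 < t0 ∧ ∀ N : ℕ,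
      ∫⁻ z in Metric.closedBall z0 t0, ‖z - z0‖ₑ ^ (-(N : ℝ)) * ‖u z‖ₑ ^ sg d < ⊤ := by
  have hs1 := sg_gt d
  have hq0 : 0 < q := by linarith
  obtain ⟨R, hR0, hR⟩ := Metric.nhds_basis_closedBall.mem_iff.mp (hΩ.mem_nhds hz0)
  have hMem := hu _ hR (isCompact_closedBall z0 R)
  set cc : ℝ := Real.sqrt ((d + 1 : ℕ) : ℝ) + 1 with hcc
  have hcc0 : 0 < cc := by rw [hcc]; positivity
  have hmeas : AEStronglyMeasurable u (volume.restrict (Metric.closedBall z0 R)) := hMem.1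
  -- integrability of nrm u ^ q
  have hint : IntegrableOn (fun z => nrm (u z) ^ q) (Metric.closedBall z0 R) := by
    have h1 : IntegrableOn (fun z => ‖u z‖ ^ q) (Metric.closedBall z0 R) := by
      have := hMem.integrable_norm_rpow (by simpa using hq0) ENNReal.ofReal_ne_top
      rwa [ENNReal.toReal_ofReal hq0.le] at this
    refine (h1.const_mul (Real.sqrt m ^ q)).mono' ?_ (ae_of_all _ fun z => ?_)
    · exact ((nrm_continuous.rpow_const fun _ => Or.inr hq0.le).comp_aestronglyMeasurable hmeas)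
    · rw [Real.norm_of_nonneg (Real.rpow_nonneg (nrm_nonneg _) _),
        ← Real.mul_rpow (Real.sqrt_nonneg _) (norm_nonneg _)]
      exact Real.rpow_le_rpow (nrm_nonneg _) (nrm_le _) hq0.le
  set t0 : ℝ := min (R / cc) (1 / 2) with ht0
  have ht00 : 0 < t0 := by rw [ht0]; positivity
  -- bound on closed balls
  have hfin : ∀ t, t ≤ t0 → ∫⁻ z in Metric.closedBall z0 t, ‖u z‖ₑ ^ q < ⊤ := by
    intro t ht
    have h1 := lint_rpow hq0 hMem
    refine lt_of_le_of_lt (lintegral_mono_set (Metric.closedBall_subset_closedBall ?_)) h1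
    have : t0 ≤ R / cc := min_le_left _ _
    have h2 : R / cc ≤ R := div_le_self hR0.le (by rw [hcc]; linarith [Real.sqrt_nonneg ((d + 1 : ℕ) : ℝ)])
    linarith
  have hbound : ∀ N : ℕ, ∃ C : ℝ≥0∞, C ≠ ⊤ ∧ ∀ t, 0 < t → t ≤ t0 →
      ∫⁻ z in Metric.closedBall z0 t, ‖u z‖ₑ ^ q ≤ C * ENNReal.ofReal t ^ (N + 1) := by
    intro N
    have h1 := hv (N + 1)
    have h2 : ∀ᶠ r : ℝ in 𝓝[>] 0, (r ^ (N + 1))⁻¹ * ∫ z in eball z0 r, nrm (u z) ^ q < 1 :=
      h1.eventually_lt_const one_pos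
    obtain ⟨t1, ht1, h3⟩ := (mem_nhdsGT_iff_exists_Ioo_subset (s := {r : ℝ | (r ^ (N + 1))⁻¹ *
      ∫ z in eball z0 r, nrm (u z) ^ q < 1})).mp h2
    have ht10 : 0 < t1 := ht1
    set I0 := ∫⁻ z in Metric.closedBall z0 t0, ‖u z‖ₑ ^ q with hI0
    have hI0t : I0 ≠ ⊤ := (hfin t0 le_rfl).ne
    set t2 := t1 / (2 * cc) with ht2
    have ht20 : 0 < t2 := by rw [ht2]; positivity
    refine ⟨ENNReal.ofReal (cc ^ (N + 1)) + I0 * (ENNReal.ofReal t2 ^ (N + 1))⁻¹, ?_, ?_⟩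
    · refine ENNReal.add_ne_top.mpr ⟨ENNReal.ofReal_ne_top, ENNReal.mul_ne_top hI0t ?_⟩
      exact ENNReal.inv_ne_top.mpr (pow_ne_zero _ (by simpa using ht20))
    · intro t ht htt0
      rcases le_total t t2 with h4 | h4
      · -- small t
        have hct : cc * t < t1 := by
          have : cc * t ≤ cc * t2 := mul_le_mul_of_nonneg_left h4 hcc0.le
          have h5 : cc * t2 = t1 / 2 := by rw [ht2]; field_simp
          linarith
        have h5 : ((cc * t) ^ (N + 1))⁻¹ * ∫ z in eball z0 (cc * t), nrm (u z) ^ q < 1 :=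
          h3 ⟨by positivity, hct⟩
        have h6 : ∫ z in eball z0 (cc * t), nrm (u z) ^ q ≤ (cc * t) ^ (N + 1) := by
          have hp : 0 < (cc * t) ^ (N + 1) := by positivity
          rw [inv_mul_lt_iff₀ hp] at h5
          linarith
        have hsub1 : Metric.closedBall z0 t ⊆ eball z0 (cc * t) := by
          intro z hz
          rw [Metric.mem_closedBall, dist_eq_norm] at hz
          show nrm (z - z0) < cc * t
          calc nrm (z - z0) ≤ Real.sqrt ((d + 1 : ℕ) : ℝ) * ‖z - z0‖ := nrm_le _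
            _ ≤ Real.sqrt ((d + 1 : ℕ) : ℝ) * t :=
                mul_le_mul_of_nonneg_left hz (Real.sqrt_nonneg _)
            _ < cc * t := by rw [hcc]; nlinarith
        have hsub2 : eball z0 (cc * t) ⊆ Metric.closedBall z0 R := by
          intro z hz
          have hz' : nrm (z - z0) < cc * t := hz
          rw [Metric.mem_closedBall, dist_eq_norm]
          have h7 : t0 ≤ R / cc := min_le_left _ _
          have h8 : cc * t ≤ R := by
            have : t ≤ R / cc := htt0.trans h7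
            rw [le_div_iff₀ hcc0] at this
            linarith
          linarith [norm_le_nrm (z - z0)]
        calc ∫⁻ z in Metric.closedBall z0 t, ‖u z‖ₑ ^ q ≤
              ∫⁻ z in eball z0 (cc * t), ‖u z‖ₑ ^ q := lintegral_mono_set hsub1
          _ ≤ ∫⁻ z in eball z0 (cc * t), ENNReal.ofReal (nrm (u z) ^ q) := by
              refine lintegral_mono fun z => ?_
              rw [← ENNReal.ofReal_rpow_of_nonneg (nrm_nonneg _) hq0.le]
              refine ENNReal.rpow_le_rpow ?_ hq0.le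
              rw [← ofReal_norm]
              exact ENNReal.ofReal_le_ofReal (norm_le_nrm _)
          _ = ENNReal.ofReal (∫ z in eball z0 (cc * t), nrm (u z) ^ q) :=
              (ofReal_integral_eq_lintegral_ofReal (hint.mono_set hsub2)
                (ae_of_all _ fun z => Real.rpow_nonneg (nrm_nonneg _) _)).symm
          _ ≤ ENNReal.ofReal ((cc * t) ^ (N + 1)) := ENNReal.ofReal_le_ofReal h6
          _ = ENNReal.ofReal (cc ^ (N + 1)) * ENNReal.ofReal t ^ (N + 1) := by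
              rw [mul_pow, ENNReal.ofReal_mul (by positivity), ENNReal.ofReal_pow ht.le]
          _ ≤ _ := mul_le_mul_left le_self_add _
      · -- large t
        have h5 : ENNReal.ofReal t2 ^ (N + 1) ≤ ENNReal.ofReal t ^ (N + 1) :=
          pow_le_pow_left' (ENNReal.ofReal_le_ofReal h4) _
        have h6 : ENNReal.ofReal t2 ^ (N + 1) ≠ 0 := pow_ne_zero _ (by simpa using ht20)
        have h7 : ENNReal.ofReal t2 ^ (N + 1) ≠ ⊤ := ENNReal.pow_ne_top ENNReal.ofReal_ne_top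
        calc ∫⁻ z in Metric.closedBall z0 t, ‖u z‖ₑ ^ q ≤ I0 :=
              lintegral_mono_set (Metric.closedBall_subset_closedBall htt0)
          _ = I0 * (ENNReal.ofReal t2 ^ (N + 1))⁻¹ * ENNReal.ofReal t2 ^ (N + 1) := by
              rw [mul_assoc, ENNReal.inv_mul_cancel h6 h7, mul_one]
          _ ≤ I0 * (ENNReal.ofReal t2 ^ (N + 1))⁻¹ * ENNReal.ofReal t ^ (N + 1) :=
              mul_le_mul_right h5 _
          _ ≤ _ := mul_le_mul_left le_add_self _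
  refine ⟨t0, ht00, fun N => ?_⟩
  obtain ⟨N', hN'⟩ := exists_nat_ge ((N : ℝ) * q / sg d)
  obtain ⟨C, hC, hCb⟩ := hbound N'
  have h1 := dyadic (F := fun z => ‖u z‖ₑ ^ q) (Nat.succ_pos d) hC ht00 hCb
  have h2 : ∀ z ∈ Metric.closedBall z0 t0, ‖z - z0‖ₑ ^ (-(N : ℝ)) * ‖u z‖ₑ ^ sg d ≤
      ‖z - z0‖ₑ ^ (-(N' : ℝ)) * ‖u z‖ₑ ^ q + 1 := by
    intro z hz
    rw [Metric.mem_closedBall, dist_eq_norm] at hz
    have hz1 : ‖z - z0‖ₑ ≤ 1 := by
      rw [← ofReal_norm, ← ENNReal.ofReal_one]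
      refine ENNReal.ofReal_le_ofReal (hz.trans ?_)
      exact (min_le_right _ _).trans (by norm_num)
    have hs0 : 0 < sg d := by linarith
    have e1 : ‖z - z0‖ₑ ^ (-(N : ℝ)) * ‖u z‖ₑ ^ sg d =
        (‖z - z0‖ₑ ^ (-(N : ℝ) / sg d) * ‖u z‖ₑ) ^ sg d := by
      rw [ENNReal.mul_rpow_of_nonneg _ _ hs0.le, ← ENNReal.rpow_mul, div_mul_cancel₀ _ hs0.ne']
    rw [e1]
    refine (rpow_le_add hs0.le hq).trans ?_
    refine add_le_add ?_ le_rfl
    rw [ENNReal.mul_rpow_of_nonneg _ _ hq0.le, ← ENNReal.rpow_mul]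
    refine mul_le_mul_left ?_ _
    refine ENNReal.rpow_le_rpow_of_exponent_ge hz1 ?_
    have : -(N : ℝ) / sg d * q = -((N : ℝ) * q / sg d) := by ring
    rw [this]
    linarith
  refine (setLIntegral_mono' Metric.isClosed_closedBall.measurableSet h2).trans_lt ?_
  rw [lintegral_add_right _ measurable_const]
  refine ENNReal.add_lt_top.mpr ⟨h1, ?_⟩
  rw [lintegral_const, one_mul, Measure.restrict_apply_univ]
  exact measure_closedBall_lt_top

end Pool.Agent.X100.SUC
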