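import Mathlib
import Pool.Agent.X100.SUC.Main

set_option autoImplicit false

open MeasureTheory Set Filter Topology
open scoped ENNReal ContDiff

namespace Pool.Agent.X100.SUC

variable {m d : ℕ}

lemma local_step {Ω : Set (Fin (d + 1) → ℂ)} {u : (Fin (d + 1) → ℂ) → Fin m → ℂ}
    {h : Fin (d + 1) → (Fin (d + 1) → ℂ) → Fin m → ℂ} {V : (Fin (d + 1) → ℂ) → ℝ} {q : ℝ}
    (hd : 1 ≤ d) (hq : sg d ≤ q) (hu : LocLp q Ω u) (hh : ∀ j, LocLp 1 Ω (h j))
    (hw : ∀ j, IsWeakDbar Ω j u (h j)) (hV : LocLp (2 * ((d : ℝ) + 1)) Ω V)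
    (hineq : ∀ᵐ z ∂(volume.restrict Ω),
      Real.sqrt (∑ j, ∑ c, ‖h j z c‖ ^ 2) ≤ V z * nrm (u z))
    {z1 : Fin (d + 1) → ℂ} {r : ℝ} (hball : Metric.closedBall z1 r ⊆ Ω)
    (hvan : ∃ t0 : ℝ, 0 < t0 ∧ ∀ N : ℕ,
      ∫⁻ z in Metric.closedBall z1 t0, ‖z - z1‖ₑ ^ (-(N : ℝ)) * ‖u z‖ₑ ^ sg d < ⊤) :
    ∀ᵐ z ∂(volume.restrict (Metric.ball z1 r)), u z = 0 := by
  have hs1 := sg_gt d
  have hs0 : 0 < sg d := by linarith
  have hq0 : 0 < q := by linarith
  have hPc := isCompact_closedBall z1 r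
  have hPm : MeasurableSet (Metric.closedBall z1 r) := Metric.isClosed_closedBall.measurableSet
  have Mu := hu _ hball hPc
  have Mh := fun j => hh j _ hball hPc
  have MV := hV _ hball hPc
  have eu := Mu.1.ae_eq_mk
  have eh := fun j => (Mh j).1.ae_eq_mk
  have eV := MV.1.ae_eq_mk
  have hfinP : IsFiniteMeasure (volume.restrict (Metric.closedBall z1 r)) :=
    ⟨by rw [Measure.restrict_apply_univ]; exact measure_closedBall_lt_top⟩
  set u' := Mu.1.mk u with hu'
  set h' : Fin (d + 1) → (Fin (d + 1) → ℂ) → Fin m → ℂ := fun j => (Mh j).1.mk (h j) with hh'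
  set V0 := MV.1.mk V with hV0
  have mu' : Measurable u' := Mu.1.stronglyMeasurable_mk.measurable
  have mh' : ∀ j, Measurable (h' j) := fun j => (Mh j).1.stronglyMeasurable_mk.measurable
  have mV0 : Measurable V0 := MV.1.stronglyMeasurable_mk.measurable
  have D : Dat m d z1 r u' h' (fun z => ENNReal.ofReal (Real.sqrt m) * ‖V0 z‖ₑ) := by
    refine ⟨mu', mh', by fun_prop, ?_, ?_, ?_, ?_, ?_, ?_⟩
    · have h1 : Integrable u (volume.restrict (Metric.closedBall z1 r)) := by
        refine Mu.integrable ?_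
        rw [← ENNReal.ofReal_one]
        exact ENNReal.ofReal_le_ofReal (by linarith)
      exact h1.congr eu
    · intro j
      have h1 : Integrable (h j) (volume.restrict (Metric.closedBall z1 r)) := by
        refine (Mh j).integrable ?_
        rw [ENNReal.ofReal_one]
      exact h1.congr (eh j)
    · intro j c φ hφ hφc hφs
      have h1 := hw j φ hφ hφc ((hφs.trans Metric.ball_subset_closedBall).trans hball) c
      have hz1 : ∀ x, x ∉ Metric.ball z1 r → dbar j φ x = 0 := by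
        intro x hx
        unfold dbar
        rw [fderiv_of_notMem_tsupport ℝ (fun h => hx (hφs h))]
        simp
      have hz2 : ∀ x, x ∉ Metric.ball z1 r → φ x = 0 := fun x hx =>
        image_eq_zero_of_notMem_tsupport (fun h => hx (hφs h))
      have hsub : Metric.ball z1 r ⊆ Ω := Metric.ball_subset_closedBall.trans hball
      have key : ∀ (f g : (Fin (d + 1) → ℂ) → ℂ) (k : (Fin (d + 1) → ℂ) → ℂ),
          (∀ x, x ∉ Metric.ball z1 r → k x = 0) →
          (∀ᵐ x ∂(volume.restrict (Metric.closedBall z1 r)), f x = g x) →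
          ∫ z in Ω, f z * k z = ∫ z, g z * k z := by
        intro f g k hk hfg
        rw [setIntegral_eq_integral_of_forall_compl_eq_zero (fun x hx => by
          rw [hk x (fun h => hx (hsub h)), mul_zero])]
        rw [← setIntegral_eq_integral_of_forall_compl_eq_zero (s := Metric.closedBall z1 r)
          (f := fun z => f z * k z) (fun x hx => by
          rw [hk x (fun h => hx (Metric.ball_subset_closedBall h)), mul_zero])]
        rw [← setIntegral_eq_integral_of_forall_compl_eq_zero (s := Metric.closedBall z1 r)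
          (f := fun z => g z * k z) (fun x hx => by
          rw [hk x (fun h => hx (Metric.ball_subset_closedBall h)), mul_zero])]
        refine integral_congr_ae ?_
        filter_upwards [hfg] with x hx
        rw [hx]
      rw [key (fun z => u z c) (fun z => u' z c) _ hz1 (by
        filter_upwards [eu] with x hx; rw [hx]),
        key (fun z => h j z c) (fun z => h' j z c) _ hz2 (by
        filter_upwards [eh j] with x hx; rw [hx])] at h1
      exact h1
    · have h1 := lint_rpow (by positivity) MV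
      have h2 : ∫⁻ z in Metric.closedBall z1 r,
          (ENNReal.ofReal (Real.sqrt m) * ‖V0 z‖ₑ) ^ (2 * d + 2 : ℝ) =
          ENNReal.ofReal (Real.sqrt m) ^ (2 * d + 2 : ℝ) *
            ∫⁻ z in Metric.closedBall z1 r, ‖V z‖ₑ ^ (2 * ((d : ℝ) + 1)) := by
        rw [← lintegral_const_mul' _ _
          (ENNReal.rpow_ne_top_of_nonneg (by positivity) ENNReal.ofReal_ne_top)]
        refine lintegral_congr_ae ?_
        filter_upwards [eV] with z hz
        rw [hz, ENNReal.mul_rpow_of_nonneg _ _ (by positivity)]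
        congr 2
        ring
      rw [h2]
      exact ENNReal.mul_lt_top (ENNReal.rpow_lt_top_of_nonneg (by positivity)
        ENNReal.ofReal_ne_top) h1
    · rw [← ae_restrict_iff' hPm]
      have e1 : ∀ᵐ z ∂(volume.restrict (Metric.closedBall z1 r)), ∀ j, h j z = h' j z :=
        ae_all_iff.mpr eh
      have e2 := ae_restrict_of_ae_restrict_of_subset hball hineq
      filter_upwards [eu, e1, eV, e2] with z a1 a2 a3 a4 j
      rw [← a1, ← a2 j, ← a3, ← ofReal_norm (h j z)]
      have b1 : ‖h j z‖ ≤ Real.sqrt (∑ j, ∑ c, ‖h j z c‖ ^ 2) := by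
        refine (norm_le_nrm _).trans (Real.sqrt_le_sqrt ?_)
        exact Finset.single_le_sum (f := fun j => ∑ c, ‖h j z c‖ ^ 2)
          (fun _ _ => by positivity) (Finset.mem_univ j)
      have b2 : ‖h j z‖ ≤ Real.sqrt m * ‖V z‖ * ‖u z‖ := by
        calc ‖h j z‖ ≤ V z * nrm (u z) := b1.trans a4
          _ ≤ ‖V z‖ * nrm (u z) := mul_le_mul_of_nonneg_right (le_abs_self _) (nrm_nonneg _)
          _ ≤ ‖V z‖ * (Real.sqrt m * ‖u z‖) := mul_le_mul_of_nonneg_left (nrm_le _) (norm_nonneg _)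
          _ = _ := by ring
      refine (ENNReal.ofReal_le_ofReal b2).trans (le_of_eq ?_)
      rw [ENNReal.ofReal_mul (by positivity), ENNReal.ofReal_mul (by positivity), ofReal_norm,
        ofReal_norm]
    · intro N
      obtain ⟨t0, ht0, hvN⟩ := hvan
      have h1 : ∫⁻ z in Metric.closedBall z1 r, ‖z - z1‖ₑ ^ (-(N : ℝ)) * ‖u' z‖ₑ ^ sg d =
          ∫⁻ z in Metric.closedBall z1 r, ‖z - z1‖ₑ ^ (-(N : ℝ)) * ‖u z‖ₑ ^ sg d := by
        refine lintegral_congr_ae ?_
        filter_upwards [eu] with z hz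
        rw [hz]
      rw [h1]
      have h2 : ∫⁻ z in Metric.closedBall z1 r, ‖u z‖ₑ ^ sg d < ⊤ := by
        refine lt_of_le_of_lt (lintegral_mono fun z => rpow_le_add (b := q) hs0.le hq) ?_
        rw [lintegral_add_right _ measurable_const]
        refine ENNReal.add_lt_top.mpr ⟨lint_rpow hq0 Mu, ?_⟩
        rw [lintegral_const, one_mul]
        exact measure_lt_top _ _
      have ht0' : ENNReal.ofReal t0 ^ N ≠ 0 := pow_ne_zero _ (by simpa using ht0)
      have h3 : ∫⁻ z in Metric.closedBall z1 r \ Metric.closedBall z1 t0,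
          ‖z - z1‖ₑ ^ (-(N : ℝ)) * ‖u z‖ₑ ^ sg d < ⊤ := by
        have h4 : ∫⁻ z in Metric.closedBall z1 r \ Metric.closedBall z1 t0,
          ‖z - z1‖ₑ ^ (-(N : ℝ)) * ‖u z‖ₑ ^ sg d ≤
          ∫⁻ z in Metric.closedBall z1 r \ Metric.closedBall z1 t0,
            (ENNReal.ofReal t0 ^ N)⁻¹ * ‖u z‖ₑ ^ sg d := by
          refine setLIntegral_mono' (hPm.diff Metric.isClosed_closedBall.measurableSet)
            fun z hz => ?_
          refine mul_le_mul_left ?_ _
          rw [ENNReal.rpow_neg, ENNReal.rpow_natCast]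
          refine ENNReal.inv_le_inv.mpr (pow_le_pow_left' ?_ N)
          have h5 := hz.2
          rw [Metric.mem_closedBall, dist_eq_norm, not_le] at h5
          rw [← ofReal_norm]
          exact ENNReal.ofReal_le_ofReal h5.le
        refine h4.trans_lt ?_
        rw [lintegral_const_mul' _ _ (ENNReal.inv_ne_top.mpr ht0')]
        refine ENNReal.mul_lt_top (ENNReal.inv_ne_top.mpr ht0').lt_top ?_
        exact lt_of_le_of_lt (lintegral_mono_set sdiff_subset) h2
      have h5 : Metric.closedBall z1 r ⊆ (Metric.closedBall z1 r \ Metric.closedBall z1 t0) ∪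
          Metric.closedBall z1 t0 := fun z hz => by
        by_cases h6 : z ∈ Metric.closedBall z1 t0
        · exact Or.inr h6
        · exact Or.inl ⟨hz, h6⟩
      refine lt_of_le_of_lt (lintegral_mono_set h5) ?_
      refine lt_of_le_of_lt (lintegral_union_le _ _ _) ?_
      exact ENNReal.add_lt_top.mpr ⟨h3, hvN N⟩
  have h1 := local_ucp D hd
  have h2 : ∀ᵐ z ∂(volume.restrict (Metric.ball z1 r)), u' z = 0 :=
    (ae_restrict_iff' Metric.isOpen_ball.measurableSet).mpr h1
  have h3 : ∀ᵐ z ∂(volume.restrict (Metric.ball z1 r)), u z = u' z :=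
    ae_restrict_of_ae_restrict_of_subset Metric.ball_subset_closedBall eu
  filter_upwards [h2, h3] with z a b
  rw [b, a]

theorem main {n : ℕ} (hn : 2 ≤ n) {Ω : Set (Fin n → ℂ)} (hΩ : IsOpen Ω) (hc : IsPreconnected Ω)
    {u : (Fin n → ℂ) → Fin m → ℂ} {h : Fin n → (Fin n → ℂ) → Fin m → ℂ}
    {V : (Fin n → ℂ) → ℝ} {q : ℝ} (hq : (2 * n : ℝ) / (2 * n - 1) ≤ q)
    (hu : LocLp q Ω u) (hh : ∀ j, LocLp 1 Ω (h j))
    (hw : ∀ j, IsWeakDbar Ω j u (h j)) (hV : LocLp (2 * n) Ω V)
    (hineq : ∀ᵐ z ∂(volume.restrict Ω),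
      Real.sqrt (∑ j, ∑ c, ‖h j z c‖ ^ 2) ≤ V z * nrm (u z))
    {z0 : Fin n → ℂ} (hz0 : z0 ∈ Ω) (hvan : VanishesInfOrder q u z0) :
    ∀ᵐ z ∂(volume.restrict Ω), u z = 0 := by
  obtain ⟨d, rfl⟩ : ∃ d, n = d + 1 := ⟨n - 1, by omega⟩
  have hd : 1 ≤ d := by omega
  have hq' : sg d ≤ q := by
    refine le_trans (le_of_eq ?_) hq
    unfold sg
    push_cast
    congr 1 <;> ring
  have hV' : LocLp (2 * ((d : ℝ) + 1)) Ω V := by
    push_cast at hV
    exact hV
  set Z : Set (Fin (d + 1) → ℂ) := {z | ∃ r : ℝ, 0 < r ∧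
    ∀ᵐ w ∂(volume.restrict (Metric.ball z r)), u w = 0} with hZ
  have hZopen : IsOpen Z := by
    rw [Metric.isOpen_iff]
    rintro z ⟨r, hr, hzr⟩
    refine ⟨r, hr, fun w hw => ⟨r - dist w z, ?_, ?_⟩⟩
    · rw [Metric.mem_ball] at hw; linarith
    · refine ae_restrict_of_ae_restrict_of_subset ?_ hzr
      refine Metric.ball_subset_ball' ?_
      linarith
  have hz0Z : z0 ∈ Z := by
    obtain ⟨R, hR0, hR⟩ := Metric.nhds_basis_closedBall.mem_iff.mp (hΩ.mem_nhds hz0)
    exact ⟨R, hR0, local_step hd hq' hu hh hw hV' hineq hR (van_of_vanishes hΩ hq' hu hz0 hvan)⟩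
  have hcl : closure Z ∩ Ω ⊆ Z := by
    rintro z ⟨hz1, hz2⟩
    obtain ⟨R, hR0, hR⟩ := Metric.nhds_basis_closedBall.mem_iff.mp (hΩ.mem_nhds hz2)
    obtain ⟨z1, hz1Z, hz1d⟩ := Metric.mem_closure_iff.mp hz1 (R / 2) (by positivity)
    have hsub : Metric.closedBall z1 (R / 2) ⊆ Ω := by
      refine (Metric.closedBall_subset_closedBall' ?_).trans hR
      rw [dist_comm]; linarith
    obtain ⟨t, ht, htu⟩ := hz1Z
    have h1 := local_step hd hq' hu hh hw hV' hineq hsub ⟨t / 2, by positivity, fun N => by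
      have h2 : ∀ᵐ w ∂(volume.restrict (Metric.closedBall z1 (t / 2))),
          ‖w - z1‖ₑ ^ (-(N : ℝ)) * ‖u w‖ₑ ^ sg d = 0 := by
        have h3 := ae_restrict_of_ae_restrict_of_subset
          (Metric.closedBall_subset_ball (show t / 2 < t by linarith)) htu
        filter_upwards [h3] with w hw
        rw [hw, enorm_zero, ENNReal.zero_rpow_of_pos (by linarith [sg_gt d]), mul_zero]
      rw [lintegral_congr_ae h2]
      simp⟩
    refine ⟨R / 2 - dist z z1, by linarith, ?_⟩
    refine ae_restrict_of_ae_restrict_of_subset (Metric.ball_subset_ball' ?_) h1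
    linarith
  have hsub : Ω ⊆ Z := hc.subset_of_closure_inter_subset hZopen ⟨z0, hz0, hz0Z⟩ hcl
  rw [ae_restrict_iff' hΩ.measurableSet, ae_iff]
  refine measure_null_of_locally_null _ fun z hz => ?_
  have hz' : ¬ (z ∈ Ω → u z = 0) := hz
  push Not at hz'
  obtain ⟨r, hr, hzr⟩ := hsub hz'.1
  rw [ae_restrict_iff' Metric.isOpen_ball.measurableSet, ae_iff] at hzr
  refine ⟨{w | ¬ (w ∈ Ω → u w = 0)} ∩ Metric.ball z r, ?_, ?_⟩
  · exact inter_mem self_mem_nhdsWithin (mem_nhdsWithin_of_mem_nhds (Metric.ball_mem_nhds z hr))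
  · refine measure_mono_null ?_ hzr
    rintro w ⟨h1, h2⟩
    have h1' : ¬ (w ∈ Ω → u w = 0) := h1
    push Not at h1'
    show ¬ (w ∈ Metric.ball z r → u w = 0)
    push Not
    exact ⟨h2, h1'.2⟩

end Pool.Agent.X100.SUC
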